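import Pool.Agent.STT.Stmts

set_option autoImplicit false

namespace Pool.Agent.STT

namespace AsmAux

variable {V : Type} [AddCommGroup V] [Module ℝ V]

theorem isK_of_subsingleton [Subsingleton V] (L : LA V) (J : V →ₗ[ℝ] V) : IsK L J := by
  refine ⟨⊥, ⊤, isCompl_bot_top, ?_, ?_, ?_, ?_, ?_, ?_, ?_⟩
  · intro x _; exact Subsingleton.elim _ _
  · intro x _; trivial
  · intro x _ y _; exact Subsingleton.elim _ _
  · intro x _ y _; exact Subsingleton.elim _ _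
  · intro x _ y _; exact Subsingleton.elim _ _
  · intro x _ y _; exact Subsingleton.elim _ _
  · intro x _ _; exact Subsingleton.elim _ _

theorem th_anti {H : HS V} (t : V →ₗ[ℝ] V →ₗ[ℝ] ℝ) (h : ∀ x, t x x = 0) (x y : V) :
    t x y = - t y x := by
  have h1 := h (x + y)
  simp only [map_add, LinearMap.add_apply, h, zero_add, add_zero] at h1
  linarith

end AsmAux

open AsmAux in
theorem cs1_proof (hDEG : Stmt_DEG) (hD1X : Stmt_D1X) (hRD1 : Stmt_RD1) (hLBR : Stmt_LBR)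
    (hD1J : Stmt_D1J)
    (hKFX : Stmt_KFX) (hC1A : Stmt_C1A) (hC1B : Stmt_C1B) (hC1C : Stmt_C1C) (hC1D : Stmt_C1D)
    (hF1A : Stmt_F1A) (hF1B : Stmt_F1B) (hF1C : Stmt_F1C) (hK1 : Stmt_K1) : Stmt_CS1 := by
  intro V _ _ _ H hS ih v0 lam0 hv0 hbr0
  obtain ⟨v, hbr, h1⟩ : ∃ v : V, (∀ x, H.br x v = lam0 x • v) ∧ H.Om v (H.J v) = 1 := by
    have hT : 0 < H.Om v0 (H.J v0) := H.tame v0 hv0
    refine ⟨(Real.sqrt (H.Om v0 (H.J v0)))⁻¹ • v0, ?_, ?_⟩
    · intro x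
      rw [map_smul, hbr0, smul_comm]
    · have hs : Real.sqrt (H.Om v0 (H.J v0)) ≠ 0 := (Real.sqrt_pos.mpr hT).ne'
      rw [map_smul, map_smul, map_smul, LinearMap.smul_apply, smul_eq_mul, smul_eq_mul]
      have h2 := Real.mul_self_sqrt hT.le
      field_simp
      nlinarith
  have hv : v ≠ 0 := by
    intro h
    rw [h, map_zero, LinearMap.zero_apply] at h1
    exact zero_ne_one h1
  obtain ⟨hlv, hlbr⟩ := hLBR V H v lam0 hv hbr
  have hid : ∀ x, ∀ u ∈ Submodule.span ℝ {v}, H.br x u ∈ Submodule.span ℝ {v} := by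
    intro x u hu
    obtain ⟨t, rfl⟩ := Submodule.mem_span_singleton.mp hu
    rw [map_smul, hbr, smul_smul]
    exact Submodule.smul_mem _ _ (Submodule.mem_span_singleton_self v)
  have hiso : ∀ u ∈ Submodule.span ℝ {v}, ∀ w ∈ Submodule.span ℝ {v}, H.Om u w = 0 := by
    intro u hu w hw
    obtain ⟨t, rfl⟩ := Submodule.mem_span_singleton.mp hu
    obtain ⟨s, rfl⟩ := Submodule.mem_span_singleton.mp hw
    simp [H.alt]
  obtain ⟨G⟩ := hDEG V H (Submodule.span ℝ {v}) hid hiso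
  obtain ⟨D, hD⟩ := hD1X V H v lam0 hbr h1 G
  obtain ⟨d⟩ : Nonempty (Dec1 H v lam0) := ⟨⟨G, D, hD⟩⟩
  obtain ⟨R, hRl, hRe, hRD, hRt, hRtau⟩ := hRD1 V H v lam0 hbr h1 d
  have hfr : Module.finrank ℝ d.G.c < Module.finrank ℝ V := by
    have h2 := d.G.fr
    have h3 : Module.finrank ℝ (Submodule.span ℝ {v}) = 1 := finrank_span_singleton hv
    omega
  have hK : IsK d.G.Hc.toLA d.G.Hc.J := ih d.G.c d.G.Hc hfr (d.G.solv hS)
  obtain ⟨K⟩ := hKFX d.G.c d.G.Hc hK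
  by_cases hl : R.lam = 0
  · have a1 := hC1A d.G.c d.G.Hc K R hl
    obtain ⟨b1, b2, b3⟩ := hC1B d.G.c d.G.Hc K R hl a1
    obtain ⟨c1, c2, c3⟩ := hC1C d.G.c d.G.Hc K R hl a1 b2
    have d1 := hC1D d.G.c d.G.Hc K R hl
    have hth : ∀ x y, R.th x y = 0 := by
      intro x y
      have hx : x = K.PA x + (x - K.PA x) := by abel
      have hy : y = K.PA y + (y - K.PA y) := by abel
      have hx0 : K.PA (x - K.PA x) = 0 := by rw [map_sub, K.pp, sub_self]
      have hy0 : K.PA (y - K.PA y) = 0 := by rw [map_sub, K.pp, sub_self]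
      rw [hx, hy]
      simp only [map_add, LinearMap.add_apply]
      rw [c2 _ _ (K.pp x) (K.pp y), c3 _ _ hx0 hy0, d1 _ _ hx0 (K.pp y),
        th_anti (H := d.G.Hc) R.th R.thalt (K.PA x) (y - K.PA y), d1 _ _ hy0 (K.pp x)]
      ring
    have hl0 : lam0 = 0 := by
      ext x
      obtain ⟨u, hu, w, hw, y, rfl⟩ := d.G.ex x
      obtain ⟨t, rfl⟩ := Submodule.mem_span_singleton.mp hu
      obtain ⟨s, rfl⟩ := Submodule.mem_span_singleton.mp hw
      have h2 : lam0 (y : V) = 0 := by rw [← hRl, hl]; rfl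
      have h3 : lam0 (H.J v) = 0 := by rw [← hRe, c1]
      simp [map_add, map_smul, hlv, h2, h3]
    have hthG : ∀ x y, d.G.th x y = 0 := by
      intro x y
      obtain ⟨t, ht⟩ := Submodule.mem_span_singleton.mp (d.G.tha x y)
      have h2 := hRt x y
      rw [hth, ← ht, map_smul, LinearMap.smul_apply, h1, smul_eq_mul, mul_one] at h2
      rw [← ht, ← h2, zero_smul]
    have hDJ := hD1J V H v lam0 hbr h1 d
    rw [hRD] at a1 b1 b2 b3
    have hlast : ∀ x y, K.PA x = 0 → K.PA y = 0 →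
        d.G.Hc.Om (d.D x) y + d.G.Hc.Om x (d.D y) = 0 := by
      intro x y hx hy
      have h2 := R.e2 x y
      rw [hRD, hl, hth] at h2
      have h3 : d.G.Hc.br x y = 0 := by
        rw [K.breq, ← K.EPr x y, ← K.EPr y x, hx, hy, map_zero, map_zero, sub_zero]
      rw [h3, map_zero] at h2
      simpa using h2
    subst hl0
    exact hK1 V H v (fun x => by rw [hbr]; simp) h1 d K hthG hDJ a1 b1 b2 b3 hlast
  · exfalso
    obtain ⟨b, hb⟩ := hF1A d.G.c d.G.Hc K R hl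
    exact hF1C d.G.c d.G.Hc K R hl b hb (hF1B d.G.c d.G.Hc K R hl b hb)

theorem cs2_proof (hDEG : Stmt_DEG) (hPQX : Stmt_PQX) (hD2X : Stmt_D2X) (hRD2 : Stmt_RD2)
    (hPRE : Stmt_PRE) (hKFX : Stmt_KFX) (hG2A : Stmt_G2A) (hG2B : Stmt_G2B) (hG2C : Stmt_G2C)
    (hG2D : Stmt_G2D) (hN2D : Stmt_N2D) (hN2E : Stmt_N2E) (hGV2 : Stmt_GV2) (hXP : Stmt_XP) :
    Stmt_CS2 := by
  intro V _ _ _ H hS hN ih P hiso0
  have hmem : ∀ z, z ∈ P.pl ↔ ∃ s t : ℝ, s • P.u1 + t • P.u2 = z := by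
    intro z; exact Submodule.mem_span_pair
  have hid : ∀ x, ∀ u ∈ P.pl, H.br x u ∈ P.pl := by
    intro x u hu
    obtain ⟨s, t, rfl⟩ := (hmem u).mp hu
    rw [hmem]
    refine ⟨s * P.nu x + t * P.mu x, t * P.nu x - s * P.mu x, ?_⟩
    rw [map_add, map_smul, map_smul, P.h1, P.h2]
    module
  have hiso : ∀ u ∈ P.pl, ∀ w ∈ P.pl, H.Om u w = 0 := by
    intro u hu w hw
    obtain ⟨s, t, rfl⟩ := (hmem u).mp hu
    obtain ⟨s', t', rfl⟩ := (hmem w).mp hw
    have h2 : H.Om P.u2 P.u1 = 0 := by rw [H.oanti, hiso0, neg_zero]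
    simp [H.alt, hiso0, h2]
  obtain ⟨G⟩ := hDEG V H P.pl hid hiso
  obtain ⟨p, hp, q, hq, hsp, hadp, hadq⟩ := hPQX V H P
  obtain ⟨Dp, hDp⟩ := hD2X V H P G p q hp hq hadp
  obtain ⟨Dq, hDq⟩ := hD2X V H P G q (-p) hq (P.pl.neg_mem hp) (by
    intro x w hw
    rw [hadq x w hw, map_neg, map_neg]; ring)
  obtain ⟨d⟩ : Nonempty (Dec2 H P) := ⟨⟨G, p, q, hp, hq, hsp, Dp, Dq, hadp, hadq, hDp, by
    intro y
    rw [hDq y, smul_neg, smul_neg, sub_neg_eq_add, sub_neg_eq_add]⟩⟩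
  obtain ⟨R, hRn, hRm, hRp, hRq⟩ := hRD2 V H P d
  have hplne : P.pl ≠ ⊥ := by
    intro h
    have h2 : P.u1 ∈ P.pl := Submodule.subset_span (by simp)
    rw [h, Submodule.mem_bot] at h2
    have h3 := P.ind.ne_zero 0
    simp [h2] at h3
  have hfr : Module.finrank ℝ d.G.c < Module.finrank ℝ V := by
    have h2 := d.G.fr
    have h3 : 0 < Module.finrank ℝ P.pl := by
      rw [Module.finrank_pos_iff_exists_ne_zero]
      obtain ⟨z, hz, hz0⟩ := (Submodule.ne_bot_iff _).mp hplne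
      exact ⟨⟨z, hz⟩, fun h => hz0 (congrArg Subtype.val h)⟩
    omega
  have hK : IsK d.G.Hc.toLA d.G.Hc.J := ih d.G.c d.G.Hc hfr (d.G.solv hS)
  obtain ⟨K⟩ := hKFX d.G.c d.G.Hc hK
  by_cases hl : R.nu = 0
  · obtain ⟨e1, e2⟩ := hN2E d.G.c d.G.Hc K R hl (hN2D d.G.c d.G.Hc K R hl)
    rw [hRp] at e1
    rw [hRq] at e2
    have hnu : P.nu = 0 := by
      ext x
      obtain ⟨u, hu, w, hw, y, rfl⟩ := d.G.ex x
      have h2 := hPRE V H P u hu
      have h3 := hPRE V H P w hw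
      have h4 : P.nu (y : V) = 0 := by rw [← hRn, hl]; rfl
      rw [map_add, map_add, h2.1, h3.2.2.1, h4]; simp
    obtain ⟨V0, hV0, hg⟩ := hGV2 V H P d K hnu e1 e2
    exact hXP V H hS hN ih V0 hV0 hg
  · exfalso
    obtain ⟨bp, bq, h1, h2⟩ := hG2A d.G.c d.G.Hc K R hl
    have h3 := hG2B d.G.c d.G.Hc K R hl bp bq h1 h2
    obtain ⟨a, b, c, e⟩ := hG2C d.G.c d.G.Hc K R hl bp bq h1 h2 h3
    exact hG2D d.G.c d.G.Hc K R hl bp bq h1 h2 h3 a b c e

theorem main_proof (hCS1 : Stmt_CS1) (hCS2 : Stmt_CS2) (hCS3 : Stmt_CS3) : Stmt_MAIN := by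
  have key : ∀ n : ℕ, ∀ (V : Type) [AddCommGroup V] [Module ℝ V] [FiniteDimensional ℝ V]
      (H : HS V), Module.finrank ℝ V = n → H.toLA.Solv → IsK H.toLA H.J := by
    intro n
    induction n using Nat.strong_induction_on with
    | _ n ihn =>
      intro V _ _ _ H hn hS
      have ih : IH V := by
        intro W HW hW hs
        exact ihn _ (hn ▸ hW) W HW rfl hs
      rcases subsingleton_or_nontrivial V with hV | hV
      · exact AsmAux.isK_of_subsingleton H.toLA H.J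
      by_cases h1 : NoLine H
      · by_cases h2 : NoIso H
        · exact hCS3 V H hS h1 h2 ih
        · unfold NoIso at h2
          push Not at h2
          obtain ⟨P, hP⟩ := h2
          exact hCS2 V H hS h1 ih P hP
      · unfold NoLine at h1
        push Not at h1
        obtain ⟨v, lam, hl, hv⟩ := h1
        exact hCS1 V H hS ih v lam hv hl
  intro V _ _ _ H hS
  exact key _ V H rfl hS

end Pool.Agent.STT
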