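import Pool.Agent.STT.Stmts

set_option autoImplicit false

namespace Pool.Agent.STT

theorem c1a_proof (hSKL : Stmt_SKL) : Stmt_C1A := by
  intro V _ _ _ H K R hlam
  have hE0 : ∀ x s, K.PA s = 0 → K.E x s = 0 := fun x s hs => by rw [← K.EPr, hs, map_zero]
  have hES : ∀ x y, K.E x y = K.E (x - K.PA x) y := fun x y => by
    rw [map_sub, LinearMap.sub_apply, K.EPl, sub_zero]
  have hJsk : ∀ x y, K.ip (H.J x) y = - K.ip x (H.J y) := by
    intro x y
    have := K.ipJ x (H.J y)
    rw [H.JJ, map_neg] at this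
    linarith
  have hsym : ∀ s t, K.PA s = 0 → K.PA t = 0 → K.E s (R.D t) = K.E t (R.D s) := by
    intro s t hs ht
    have h1 := R.e1 s t
    rw [hlam] at h1
    simp only [LinearMap.zero_apply, zero_smul, sub_zero, zero_add] at h1
    rw [K.breq s t, hE0 s t ht, hE0 t s hs, sub_zero, map_zero, K.breq (R.D s) t, K.breq s (R.D t),
      hE0 _ t ht, hE0 _ s hs] at h1
    rw [zero_sub, sub_zero] at h1
    exact (eq_neg_of_add_eq_zero_right h1.symm).trans (neg_neg _)
  have hdiag : ∀ s, K.PA s = 0 → K.E s (R.D s) = 0 := by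
    intro s hs
    have hJs : K.PA (H.J s) = 0 := by rw [K.pJ, hs, map_zero]
    have h1 : K.E (H.J s) (R.D s) = H.J (K.E s (R.D s)) := by
      rw [← hsym s (H.J s) hs hJs, R.DJ, K.EJ]
    exact (hSKL V K.ip K.ipd (K.E s) (K.E (H.J s)) H.J (K.ipE s) (K.ipE (H.J s)) hJsk H.JJ
      (fun x => K.Ec _ _ _) (K.EJ s) (K.EJ (H.J s)) (R.D s) h1).1
  have hst : ∀ s t, K.PA s = 0 → K.PA t = 0 → K.E s (R.D t) = 0 := by
    intro s t hs ht
    have h1 := hdiag (s + t) (by rw [map_add, hs, ht, add_zero])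
    simp only [map_add, LinearMap.add_apply, hdiag s hs, hdiag t ht] at h1
    rw [zero_add, add_zero, hsym t s ht hs] at h1
    have h2 : (2 : ℝ) • K.E s (R.D t) = 0 := by rw [two_smul]; exact h1
    rcases smul_eq_zero.mp h2 with h | h
    · norm_num at h
    · exact h
  intro t ht
  apply K.ker
  intro x
  rw [hES]
  exact hst _ t (by rw [map_sub, K.pp, sub_self]) ht

end Pool.Agent.STT
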