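import Pool.Agent.STT.Stmts

set_option autoImplicit false

/-!
# MP_e0fc50_gt (Streets-Tian), squad STT: module C1B
-/

namespace Pool.Agent.STT

namespace C1BAux

variable {V : Type} [AddCommGroup V] [Module ℝ V]

theorem D_E {H : HS V} (K : KF H) (R : Red1 H) (hlam : R.lam = 0)
    (hS : ∀ t, K.PA t = 0 → K.PA (R.D t) = 0) {s : V} (hs : K.PA s = 0) (a : V) :
    R.D (K.E s a) = K.E (R.D s) a + K.E s (R.D a) := by
  have hEs : ∀ x, K.E x s = 0 := fun x => by rw [← K.EPr, hs, map_zero]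
  have hDs : ∀ x, K.E x (R.D s) = 0 := fun x => by rw [← K.EPr, hS s hs, map_zero]
  have h := R.e1 s a
  rw [hlam, K.breq s a, K.breq (R.D s) a, K.breq s (R.D a), hEs, hEs, hDs] at h
  simpa only [LinearMap.zero_apply, zero_smul, sub_zero, zero_add] using h

theorem E_D_zero (hTR2 : Stmt_TR2) [FiniteDimensional ℝ V] {H : HS V} (K : KF H) (R : Red1 H)
    (hlam : R.lam = 0) (hS : ∀ t, K.PA t = 0 → K.PA (R.D t) = 0) {s : V} (hs : K.PA s = 0) :
    K.E (R.D s) = 0 := by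
  refine (hTR2 V K.ip K.ipd).2 (K.E (R.D s)) (K.ipE (R.D s)) ?_
  have h1 : K.E (R.D s) = R.D ∘ₗ K.E s - K.E s ∘ₗ R.D := by
    ext a
    rw [LinearMap.sub_apply, LinearMap.comp_apply, LinearMap.comp_apply, D_E K R hlam hS hs,
      add_sub_cancel_right]
  have h2 : K.E (R.D s) ∘ₗ K.E s = K.E s ∘ₗ K.E (R.D s) := by
    ext a
    exact K.Ec _ _ _
  have h3 : K.E (R.D s) ∘ₗ K.E (R.D s) =
      (K.E (R.D s) ∘ₗ R.D) ∘ₗ K.E s - (K.E (R.D s) ∘ₗ K.E s) ∘ₗ R.D := by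
    conv_lhs => rw [show K.E (R.D s) ∘ₗ K.E (R.D s) =
      K.E (R.D s) ∘ₗ (R.D ∘ₗ K.E s - K.E s ∘ₗ R.D) from by rw [← h1]]
    rw [LinearMap.comp_sub, LinearMap.comp_assoc, LinearMap.comp_assoc]
  rw [h3, map_sub]
  have h4 : LinearMap.trace ℝ V ((K.E (R.D s) ∘ₗ R.D) ∘ₗ K.E s) =
      LinearMap.trace ℝ V (K.E s ∘ₗ (K.E (R.D s) ∘ₗ R.D)) :=
    LinearMap.trace_mul_comm ℝ (K.E (R.D s) ∘ₗ R.D) (K.E s)
  rw [h4, ← LinearMap.comp_assoc, ← h2, sub_self]

end C1BAux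

open C1BAux in
theorem c1b_proof (hTR2 : Stmt_TR2) (hSPN : Stmt_SPN) : Stmt_C1B := by
  intro V _ _ _ H K R hlam hS
  have hl : ∀ x a, K.E x a = K.E (x - K.PA x) a := fun x a => by
    rw [map_sub, LinearMap.sub_apply, K.EPl, sub_zero]
  have hp : ∀ x, K.PA (x - K.PA x) = 0 := fun x => by rw [map_sub, K.pp, sub_self]
  have h3 : ∀ x y, R.D (K.E x y) = K.E x (R.D y) := by
    intro x y
    rw [hl x y, D_E K R hlam hS (hp x), E_D_zero hTR2 K R hlam hS (hp x),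
      LinearMap.zero_apply, zero_add, ← hl]
  have h2 : ∀ y, K.PA (R.D (K.PA y)) = R.D (K.PA y) := by
    intro y
    have h := hSPN V H K (LinearMap.ker (K.PA ∘ₗ R.D - R.D)) (fun x z => by
      rw [LinearMap.mem_ker, LinearMap.sub_apply, LinearMap.comp_apply, h3, K.PE, sub_self]) y
    rw [LinearMap.mem_ker, LinearMap.sub_apply, LinearMap.comp_apply, sub_eq_zero] at h
    exact h
  refine ⟨?_, h2, h3⟩
  intro x y
  have h4 : R.D x = R.D (K.PA x) + R.D (x - K.PA x) := by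
    rw [← map_add, add_sub_cancel]
  rw [h4, map_add, LinearMap.add_apply, E_D_zero hTR2 K R hlam hS (hp x), LinearMap.zero_apply,
    add_zero, ← h2, K.EPl]

end Pool.Agent.STT
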