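import Pool.Agent.STT.Stmts

set_option autoImplicit false

/-!
# MP_e0fc50_gt (Streets-Tian), squad STT: module C1D
-/

namespace Pool.Agent.STT

namespace C1DAux

variable {V : Type} [AddCommGroup V] [Module ℝ V]

/-- `J` is skew for `ip`. -/
theorem ipJ_skew {H : HS V} (K : KF H) (x y : V) : K.ip (H.J x) y = - K.ip x (H.J y) := by
  have h := K.ipJ x (H.J y)
  rw [H.JJ, map_neg] at h
  linarith

theorem ip_nd {H : HS V} (K : KF H) {u : V} (h : ∀ a, K.ip u a = 0) : u = 0 := by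
  by_contra h0
  exact (K.ipd.pos u h0).ne' (h u)

theorem th_sym {H : HS V} (K : KF H) (R : Red1 H) (hlam : R.lam = 0) {s t : V}
    (hs : K.PA s = 0) (ht : K.PA t = 0) (a : V) : R.th s (K.E t a) = R.th t (K.E s a) := by
  have hEs : ∀ x, K.E x s = 0 := fun x => by rw [← K.EPr, hs, map_zero]
  have hEt : ∀ x, K.E x t = 0 := fun x => by rw [← K.EPr, ht, map_zero]
  have h := R.thc s t a
  rw [hlam, K.breq t a, K.breq a s, K.breq s t, hEt, hEs, hEt, hEs] at h
  simp only [LinearMap.zero_apply, zero_mul, add_zero, sub_zero, zero_sub, map_neg,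
    map_zero, zero_add] at h
  linarith

theorem th_self (hSKL : Stmt_SKL) (hTR3 : Stmt_TR3) [FiniteDimensional ℝ V] {H : HS V}
    (K : KF H) (R : Red1 H) (hlam : R.lam = 0) {s : V} (hs : K.PA s = 0) (a : V) :
    R.th s (K.E s a) = 0 := by
  have hJs : K.PA (H.J s) = 0 := by rw [K.pJ, hs, map_zero]
  have h1 : ∀ a, R.th s (K.E (H.J s) a) = - R.th s (H.J (K.E s a)) := by
    intro a
    rw [th_sym K R hlam hs hJs, ← R.thJ (H.J s), H.JJ, map_neg, LinearMap.neg_apply]
  obtain ⟨w, hw⟩ := (hTR3 V K.ip K.ipd).2.2 (R.th s ∘ₗ K.PA)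
  have hw' : ∀ x y, K.ip w (K.E x y) = R.th s (K.E x y) := by
    intro x y
    rw [hw, LinearMap.comp_apply, K.PE]
  have h2 : K.E (H.J s) w = H.J (K.E s w) := by
    rw [← sub_eq_zero]
    refine ip_nd K fun a => ?_
    rw [map_sub, LinearMap.sub_apply, K.ipE, ipJ_skew, K.ipE, K.EJ, hw', h1]
    rw [hw, LinearMap.comp_apply, K.pJ, K.PE]
    ring
  have h3 := (hSKL V K.ip K.ipd (K.E s) (K.E (H.J s)) H.J (K.ipE s) (K.ipE (H.J s))
    (ipJ_skew K) H.JJ (K.Ec s (H.J s)) (K.EJ s) (K.EJ (H.J s)) w h2).1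
  rw [← hw', ← neg_eq_zero, ← K.ipE, h3, map_zero, LinearMap.zero_apply]

end C1DAux

open C1DAux in
theorem c1d_proof (hSKL : Stmt_SKL) (hSPN : Stmt_SPN) (hTR3 : Stmt_TR3) : Stmt_C1D := by
  intro V _ _ _ H K R hlam x y hx hy
  have h1 : ∀ t, K.PA t = 0 → ∀ a, R.th x (K.E t a) = 0 := by
    intro t ht a
    have h2 := th_self hSKL hTR3 K R hlam hx a
    have h3 := th_self hSKL hTR3 K R hlam ht a
    have h4 : K.PA (x + t) = 0 := by rw [map_add, hx, ht, add_zero]
    have h5 := th_self hSKL hTR3 K R hlam h4 a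
    simp only [map_add, LinearMap.add_apply] at h5
    have h6 := th_sym K R hlam hx ht a
    linarith
  have h2 : ∀ z a, K.E z a ∈ LinearMap.ker (R.th x) := by
    intro z a
    have h3 : K.E z a = K.E (z - K.PA z) a := by
      rw [map_sub, LinearMap.sub_apply, K.EPl, sub_zero]
    rw [LinearMap.mem_ker, h3]
    exact h1 _ (by rw [map_sub, K.pp, sub_self]) a
  have h3 := hSPN V H K _ h2 y
  rw [hy] at h3
  exact h3

end Pool.Agent.STT
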