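import Pool.Agent.STT.Stmts

/-!
# MP_e0fc50_gt (Streets-Tian): module C3B
-/

set_option autoImplicit false

namespace Pool.Agent.STT

theorem c3b_proof (hNRM : Stmt_NRM) : Stmt_C3B := by
  intro V _ _ _ H A hA u hu hJu x
  obtain ⟨k, hs, hp, hk⟩ := hA.k
  have h := hNRM V A (A ⊓ A.comap H.J) k (H.br x) (H.br (H.J x)) H.J inf_le_left hs hp
    (fun w hw => hA.i x w hw) (fun w hw => hA.i (H.J x) w hw)
    (fun w hw z hz => hk x w hw z hz) (fun w hw z hz => hk (H.J x) w hw z hz)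
    (fun w hw => hA.co x (H.J x) w hw)
    (fun w hw => by
      rw [Submodule.mem_inf, Submodule.mem_comap] at hw ⊢
      refine ⟨hw.2, ?_⟩
      rw [H.JJ]
      exact A.neg_mem hw.1)
    (fun w _ => H.JJ w)
    (fun w hw => by
      rw [Submodule.mem_inf, Submodule.mem_comap] at hw ⊢
      refine ⟨A.add_mem (hA.i _ _ hw.1) (hA.i _ _ hw.2), ?_⟩
      rw [← H.nij]
      exact A.sub_mem (hA.i _ _ hw.2) (hA.i _ _ hw.1))
    (fun w _ => H.nij x w)
    u (by
      rw [Submodule.mem_inf, Submodule.mem_comap]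
      exact ⟨hu, hJu⟩)
  rw [Submodule.mem_inf, Submodule.mem_comap] at h
  exact ⟨h.2, h.1.2⟩

end Pool.Agent.STT
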