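import Pool.Agent.STT.Stmts

set_option autoImplicit false

namespace Pool.Agent.STT

theorem c3c_proof (_hPBR : Stmt_PBR) (hPRE : Stmt_PRE) : Stmt_C3C := by
  intro V _ _ _ H A hA hbr hJ P
  by_contra hne
  have hpre := hPRE V H P
  have m1 : P.u1 ∈ P.pl := Submodule.subset_span (by simp)
  have m2 : P.u2 ∈ P.pl := Submodule.subset_span (by simp)
  have b12 : H.br P.u1 P.u2 = 0 := ((hpre _ m1).2.2.2.2 _ m2).1
  have bj1 : H.br (H.J P.u1) P.u1 = 0 := ((hpre _ m1).2.2.2.2 _ m1).2.1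
  have hr : ∀ x y, H.br (H.J x) (H.J y) = H.br x y := by
    intro x y
    have h1 : H.br (H.J x) y + H.br x (H.J y) = 0 := by
      apply hJ _ (A.add_mem (hbr _ _) (hbr _ _))
      rw [← H.nij x y]
      exact A.sub_mem (hbr _ _) (hbr _ _)
    have h2 := H.nij x y
    rw [h1, map_zero] at h2
    exact sub_eq_zero.mp h2
  have hnu : ∀ x, P.nu x = 0 := by
    intro x
    have hc := H.closed x P.u1 P.u2
    rw [b12, H.toLA.anti P.u2 x, P.h1, P.h2] at hc
    simp only [map_sub, map_smul, map_neg, map_add, LinearMap.sub_apply, LinearMap.smul_apply,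
      LinearMap.neg_apply, LinearMap.add_apply, map_zero, LinearMap.zero_apply, H.alt,
      smul_eq_mul] at hc
    rw [H.oanti P.u2 P.u1] at hc
    have : P.nu x * H.Om P.u1 P.u2 = 0 := by linarith
    exact (mul_eq_zero.mp this).resolve_right hne
  have hm : ∀ x, - (P.mu x) * H.Om P.u2 P.u1 + P.mu (H.J x) * H.Om P.u2 (H.J P.u1) = 0 := by
    intro x
    have hc := H.closed (H.J x) (H.J P.u1) P.u1
    rw [hr, bj1, H.toLA.anti P.u1 (H.J x), P.h1, P.h1, hnu, hnu] at hc
    simp only [map_sub, map_smul, map_neg, map_add, LinearMap.sub_apply, LinearMap.smul_apply,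
      LinearMap.neg_apply, LinearMap.add_apply, map_zero, LinearMap.zero_apply,
      smul_eq_mul, zero_smul, zero_sub] at hc
    linarith
  apply P.mu0
  ext x
  have h1 := hm x
  have h2 := hm (H.J x)
  rw [H.JJ, map_neg] at h2
  have h3 : P.mu x * (H.Om P.u2 P.u1 ^ 2 + H.Om P.u2 (H.J P.u1) ^ 2) = 0 := by
    linear_combination (- H.Om P.u2 P.u1) * h1 + (- H.Om P.u2 (H.J P.u1)) * h2
  have h4 : 0 < H.Om P.u2 P.u1 ^ 2 + H.Om P.u2 (H.J P.u1) ^ 2 := by
    have : H.Om P.u2 P.u1 ≠ 0 := by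
      rw [H.oanti]; simpa using hne
    positivity
  simpa using (mul_eq_zero.mp h3).resolve_right h4.ne'

end Pool.Agent.STT
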