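import Pool.Agent.STT.Stmts

set_option autoImplicit false

namespace Pool.Agent.STT

theorem cs3_proof (hLIE : Stmt_LIE) (hC3A : Stmt_C3A) (hC3B : Stmt_C3B) (hC3C : Stmt_C3C)
    (hXP : Stmt_XP) : Stmt_CS3 := by
  intro V _ _ _ _ H hs hl hi hih
  obtain ⟨A, hA, hbr, -⟩ := hC3A V H hs hl hi
  by_cases hex : ∃ u ∈ A, H.J u ∈ A ∧ u ≠ 0
  · obtain ⟨u, hu, hJu, hu0⟩ := hex
    set V0 : Submodule ℝ V := A ⊓ A.comap H.J with hV0
    have hmem : ∀ w, w ∈ V0 ↔ w ∈ A ∧ H.J w ∈ A := by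
      intro w
      rw [hV0, Submodule.mem_inf, Submodule.mem_comap]
    refine hXP V H hs hl hih V0 ?_ ?_
    · intro h0
      have : u ∈ V0 := (hmem u).mpr ⟨hu, hJu⟩
      rw [h0, Submodule.mem_bot] at this
      exact hu0 this
    · refine ⟨?_, ?_, ?_, ?_, ?_⟩
      · intro x hx
        rw [hmem] at hx ⊢
        refine ⟨hx.2, ?_⟩
        rw [H.JJ]
        exact A.neg_mem hx.1
      · intro x w hw
        rw [hmem] at hw ⊢
        exact ⟨hbr _ _, (hC3B V H A hA w hw.1 hw.2 x).2⟩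
      · intro w hw w' hw'
        exact hA.ab w ((hmem w).mp hw).1 w' ((hmem w').mp hw').1
      · intro x w hw
        rw [hmem] at hw
        exact (hC3B V H A hA w hw.1 hw.2 x).1
      · intro x y w hw
        exact hA.ab _ (hbr x y) w ((hmem w).mp hw).1
  · exfalso
    have hJ : ∀ u ∈ A, H.J u ∈ A → u = 0 := by
      intro u hu hJu
      by_contra h
      exact hex ⟨u, hu, hJu, h⟩
    have hP := hC3C V H A hA hbr hJ
    rcases hLIE V H hs ⊤ top_ne_bot (fun _ _ _ => Submodule.mem_top) with h | h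
    · obtain ⟨v, -, hv0, lam, hlam⟩ := h
      exact hv0 (hl v lam hlam)
    · obtain ⟨P, -, -⟩ := h
      exact hi P (hP P)

end Pool.Agent.STT
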