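import Pool.Agent.STT.Stmts

/-!
# MP_e0fc50_gt (Streets-Tian), squad STT: the cocycle identity of the reduction
-/

set_option autoImplicit false

namespace Pool.Agent.STT

namespace D1C_

variable {V : Type} [AddCommGroup V] [Module ℝ V]

theorem cyc (L : LA V) (x y z : V) :
    L.br x (L.br y z) + L.br y (L.br z x) + L.br z (L.br x y) = 0 := by
  have h1 := L.jac x y z
  have h2 : L.br y (L.br z x) = - L.br y (L.br x z) := by
    rw [L.anti z x, map_neg]
  have h3 : L.br z (L.br x y) = - L.br (L.br x y) z := L.anti _ _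
  rw [h1, h2, h3]
  abel

end D1C_

theorem d1c_proof : Stmt_D1C := by
  intro V _ _ _ H v lam0 hv hJ G x y z
  have hspan : ∀ (s : G.c) (u : V), u ∈ Submodule.span ℝ {v} →
      H.Om (H.br (s : V) u) (H.J v) = lam0 (s : V) * H.Om u (H.J v) := by
    intro s u hu
    obtain ⟨a, rfl⟩ := Submodule.mem_span_singleton.1 hu
    rw [map_smul, hv, map_smul, map_smul, map_smul]
    simp only [LinearMap.smul_apply, smul_eq_mul, hJ]
    ring
  have key : ∀ s t r : G.c, H.Om (H.br (s : V) (H.br (t : V) (r : V))) (H.J v)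
      = lam0 (s : V) * H.Om (G.th t r) (H.J v) + H.Om (G.th s (G.Hc.br t r)) (H.J v)
        + H.Om ((G.Hc.br s (G.Hc.br t r) : G.c) : V) (H.J v) := by
    intro s t r
    rw [G.hbr t r, map_add, map_add, LinearMap.add_apply, hspan s _ (G.tha t r),
      G.hbr s (G.Hc.br t r), map_add, LinearMap.add_apply]
    ring
  have h0 := D1C_.cyc H.toLA (x : V) (y : V) (z : V)
  have h1 := D1C_.cyc G.Hc.toLA x y z
  have h1' : ((G.Hc.br x (G.Hc.br y z) : G.c) : V) + ((G.Hc.br y (G.Hc.br z x) : G.c) : V)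
      + ((G.Hc.br z (G.Hc.br x y) : G.c) : V) = 0 := by
    rw [← Submodule.coe_add, ← Submodule.coe_add, h1, Submodule.coe_zero]
  have h2 : H.Om (H.br (x : V) (H.br (y : V) (z : V))) (H.J v)
      + H.Om (H.br (y : V) (H.br (z : V) (x : V))) (H.J v)
      + H.Om (H.br (z : V) (H.br (x : V) (y : V))) (H.J v) = 0 := by
    rw [← LinearMap.add_apply, ← map_add, ← LinearMap.add_apply, ← map_add, h0, map_zero,
      LinearMap.zero_apply]
  have h3 : H.Om ((G.Hc.br x (G.Hc.br y z) : G.c) : V) (H.J v)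
      + H.Om ((G.Hc.br y (G.Hc.br z x) : G.c) : V) (H.J v)
      + H.Om ((G.Hc.br z (G.Hc.br x y) : G.c) : V) (H.J v) = 0 := by
    rw [← LinearMap.add_apply, ← map_add, ← LinearMap.add_apply, ← map_add, h1', map_zero,
      LinearMap.zero_apply]
  rw [key x y z, key y z x, key z x y] at h2
  linarith

end Pool.Agent.STT
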