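import Pool.Agent.STT.Stmts

set_option autoImplicit false

namespace Pool.Agent.STT

namespace D1E1Aux

variable {V : Type} [AddCommGroup V] [Module ℝ V]

theorem ccomp {H : HS V} {a : Submodule ℝ V} (G : DecG H a) {u w : V} (hu : u ∈ a) (hw : w ∈ a)
    (y z : G.c) (h : u + H.J w + (y : V) = (z : V)) : y = z := by
  have := (G.uniq u hu w hw (y - z) (by
    rw [Submodule.coe_sub, ← h]; abel)).2.2
  exact sub_eq_zero.mp this

end D1E1Aux

open D1E1Aux in
theorem d1e1_proof (hLBR : Stmt_LBR) : Stmt_D1E1 := by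
  intro V _ _ _ H v lam0 hv hv1 d x y
  obtain ⟨hl0, hlb⟩ := hLBR V H v lam0 (by
    intro h0
    rw [h0] at hv1
    simp at hv1) hv
  have hth : ∀ x y : d.G.c, ∃ t : ℝ, d.G.th x y = t • v := by
    intro x y
    obtain ⟨t, ht⟩ := Submodule.mem_span_singleton.mp (d.G.tha x y)
    exact ⟨t, ht.symm⟩
  obtain ⟨t, ht⟩ := hth x y
  obtain ⟨t1, ht1⟩ := hth (d.D x) y
  obtain ⟨t2, ht2⟩ := hth x (d.D y)
  have hvm : v ∈ Submodule.span ℝ {v} := Submodule.mem_span_singleton_self v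
  have hbrv : ∀ x, H.br v x = - lam0 x • v := by
    intro x
    rw [H.toLA.anti, hv]; simp
  have hz := d.G.hbr x y
  have hj := H.jac (H.J v) (x : V) (y : V)
  rw [hz] at hj
  rw [d.brv x, d.brv y] at hj
  simp only [map_add, map_smul, LinearMap.add_apply, LinearMap.smul_apply, ht, hv, hbrv,
    d.brv y, d.brv (d.G.Hc.br x y)] at hj
  rw [H.toLA.anti (x : V) (H.J v), d.brv x, d.G.hbr (d.D x) y, d.G.hbr x (d.D y), ht1, ht2] at hj
  set z : d.G.c := d.G.Hc.br x y
  refine (ccomp d.G (u := (t * lam0 (H.J v) + 2 * lam0 (H.J (z : V))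
      - lam0 (x : V) * (2 * lam0 (H.J (y : V))) + 2 * lam0 (H.J (x : V)) * lam0 (y : V) - t1
      + lam0 (y : V) * (2 * lam0 (H.J (x : V))) - 2 * lam0 (H.J (y : V)) * lam0 (x : V) - t2) • v)
      (w := lam0 (z : V) • v) (Submodule.smul_mem _ _ hvm) (Submodule.smul_mem _ _ hvm) _ _ ?_)
  simp only [map_smul, Submodule.coe_add, Submodule.coe_sub, Submodule.coe_smul]
  have key : ((d.D z : d.G.c) : V) = (lam0 (x : V) * (2 * lam0 (H.J (y : V))) 
      - 2 * lam0 (H.J (x : V)) * lam0 (y : V) + t1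
      - lam0 (y : V) * (2 * lam0 (H.J (x : V))) + 2 * lam0 (H.J (y : V)) * lam0 (x : V) + t2
      - t * lam0 (H.J v) - 2 * lam0 (H.J (z : V))) • v - lam0 (z : V) • H.J v
      + (lam0 (x : V) • ((d.D y : d.G.c) : V) - lam0 (y : V) • ((d.D x : d.G.c) : V)
      + ((d.G.Hc.br (d.D x) y : d.G.c) : V) + ((d.G.Hc.br x (d.D y) : d.G.c) : V)) := by
    linear_combination (norm := module) hj
  rw [key]
  module

end Pool.Agent.STT
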