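import Pool.Agent.STT.Stmts

/-!
# MP_e0fc50_gt (Streets-Tian), squad STT: the closedness of `Om` at `J v`
-/

set_option autoImplicit false

namespace Pool.Agent.STT

theorem d1e2_proof : Stmt_D1E2 := by
  intro V _ _ _ H v lam0 hv hJ d x y
  have hvm : v ∈ Submodule.span ℝ {v} := Submodule.mem_span_singleton_self v
  have half : ∀ s t : d.G.c, H.Om (H.br (H.J v) (s : V)) (t : V)
      = - (lam0 (s : V) * H.Om (t : V) (H.J v)) + d.G.Hc.Om (d.D s) t := by
    intro s t
    rw [d.brv s]
    simp only [map_add, map_smul, LinearMap.add_apply, LinearMap.smul_apply, smul_eq_mul]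
    rw [d.G.orth v hvm t, H.oanti (H.J v) (t : V), d.G.hOm (d.D s) t]
    ring
  have hc := H.closed (H.J v) (x : V) (y : V)
  have h1 := half x y
  have h2 : H.Om (H.br (y : V) (H.J v)) (x : V)
      = lam0 (y : V) * H.Om (x : V) (H.J v) + d.G.Hc.Om x (d.D y) := by
    rw [H.toLA.anti (y : V) (H.J v), map_neg, LinearMap.neg_apply, half y x,
      d.G.Hc.oanti (d.D y) x]
    ring
  have h3 : H.Om (H.br (x : V) (y : V)) (H.J v)
      = H.Om (d.G.th x y) (H.J v) + H.Om ((d.G.Hc.br x y : d.G.c) : V) (H.J v) := by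
    rw [d.G.hbr x y, map_add, LinearMap.add_apply]
  rw [h1, h2, h3] at hc
  linarith

end Pool.Agent.STT
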