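import Pool.Agent.STT.Stmts
import Mathlib.Tactic.Module

/-!
# MP_e0fc50_gt (Streets-Tian), squad STT: the Jacobi identity at `J v`, component along `v`
-/

set_option autoImplicit false

namespace Pool.Agent.STT

theorem d1e3_proof (_h : Stmt_LBR) : Stmt_D1E3 := by
  intro V _ _ _ H v lam0 hv hJ d x y
  have hv0 : v ≠ 0 := by
    intro h
    rw [h, map_zero, LinearMap.zero_apply] at hJ
    exact zero_ne_one hJ
  have hlv : lam0 v = 0 := by
    have h1 := hv v
    rw [H.skew] at h1
    rcases smul_eq_zero.1 h1.symm with h | h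
    · exact h
    · exact absurd h hv0
  have hlb : ∀ s t : V, lam0 (H.br s t) = 0 := by
    intro s t
    have h1 := H.jac s t v
    rw [hv t, hv s, map_smul, map_smul, hv s, hv t, hv (H.br s t), smul_smul, smul_smul,
      mul_comm (lam0 t) (lam0 s)] at h1
    have h2 : lam0 (H.br s t) • v = 0 := by
      have h3 := add_right_cancel (h1.symm.trans (zero_add _).symm)
      exact h3
    rcases smul_eq_zero.1 h2 with h | h
    · exact h
    · exact absurd h hv0
  have hth : ∀ s t : d.G.c, d.G.th s t = H.Om (d.G.th s t) (H.J v) • v := by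
    intro s t
    obtain ⟨a, ha⟩ := Submodule.mem_span_singleton.1 (d.G.tha s t)
    rw [← ha, map_smul, LinearMap.smul_apply, hJ, smul_eq_mul, mul_one]
  have hlc : ∀ s t : d.G.c, lam0 ((d.G.Hc.br s t : d.G.c) : V) = 0 := by
    intro s t
    have h1 := hlb (s : V) (t : V)
    rw [d.G.hbr s t, map_add, hth s t, map_smul, hlv, smul_zero, zero_add] at h1
    exact h1
  have hvx : ∀ s : V, H.br v s = -(lam0 s • v) := by
    intro s
    rw [H.toLA.anti v s, hv s]
  have hxj : ∀ s : d.G.c, H.br (s : V) (H.J v)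
      = -(lam0 (s : V) • H.J v + (2 * lam0 (H.J (s : V))) • v + ((d.D s : d.G.c) : V)) := by
    intro s
    rw [H.toLA.anti (s : V) (H.J v), d.brv s]
  have hjac := H.jac (H.J v) (x : V) (y : V)
  have hL : H.br (H.J v) (H.br (x : V) (y : V))
      = (lam0 (H.J v) * H.Om (d.G.th x y) (H.J v)
          + 2 * lam0 (H.J ((d.G.Hc.br x y : d.G.c) : V))) • v
        + ((d.D (d.G.Hc.br x y) : d.G.c) : V) := by
    rw [d.G.hbr x y, map_add, d.brv (d.G.Hc.br x y), hlc x y]
    nth_rewrite 1 [hth x y]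
    rw [map_smul, hv]
    module
  have hR1 : H.br (H.br (H.J v) (x : V)) (y : V)
      = (lam0 (x : V) * lam0 (y : V)) • H.J v
        + (2 * lam0 (x : V) * lam0 (H.J (y : V)) - 2 * lam0 (H.J (x : V)) * lam0 (y : V)
            + H.Om (d.G.th (d.D x) y) (H.J v)) • v
        + (lam0 (x : V) • ((d.D y : d.G.c) : V) + ((d.G.Hc.br (d.D x) y : d.G.c) : V)) := by
    rw [d.brv x]
    simp only [map_add, map_smul, LinearMap.add_apply, LinearMap.smul_apply]
    rw [d.brv y, hvx, d.G.hbr (d.D x) y]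
    nth_rewrite 1 [hth (d.D x) y]
    module
  have hR2 : H.br (x : V) (H.br (H.J v) (y : V))
      = -(lam0 (x : V) * lam0 (y : V)) • H.J v
        + (2 * lam0 (x : V) * lam0 (H.J (y : V)) - 2 * lam0 (H.J (x : V)) * lam0 (y : V)
            + H.Om (d.G.th x (d.D y)) (H.J v)) • v
        + (-(lam0 (y : V) • ((d.D x : d.G.c) : V)) + ((d.G.Hc.br x (d.D y) : d.G.c) : V)) := by
    rw [d.brv y]
    simp only [map_add, map_smul]
    rw [hxj x, hv, d.G.hbr x (d.D y)]
    nth_rewrite 1 [hth x (d.D y)]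
    module
  rw [hL, hR1, hR2] at hjac
  set cf : ℝ := H.Om (d.G.th (d.D x) y) (H.J v) + H.Om (d.G.th x (d.D y)) (H.J v)
    - (lam0 (H.J v) * H.Om (d.G.th x y) (H.J v)
      + 2 * lam0 (H.J ((d.G.Hc.br x y : d.G.c) : V)) - 4 * lam0 (x : V) * lam0 (H.J (y : V))
      + 4 * lam0 (H.J (x : V)) * lam0 (y : V)) with hcf
  let z : d.G.c := lam0 (x : V) • d.D y + d.G.Hc.br (d.D x) y - lam0 (y : V) • d.D x
      + d.G.Hc.br x (d.D y) - d.D (d.G.Hc.br x y)
  have hz : cf • v + H.J 0 + (z : V) = 0 := by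
    have hzc : (z : V) = lam0 (x : V) • ((d.D y : d.G.c) : V) + ((d.G.Hc.br (d.D x) y : d.G.c) : V)
        - lam0 (y : V) • ((d.D x : d.G.c) : V)
        + ((d.G.Hc.br x (d.D y) : d.G.c) : V) - ((d.D (d.G.Hc.br x y) : d.G.c) : V) := by
      simp only [z, Submodule.coe_add, Submodule.coe_sub, Submodule.coe_smul]
    rw [hzc, map_zero, add_zero]
    have h5 := sub_eq_zero.2 hjac.symm
    rw [← h5, hcf]
    module
  have hu := (d.G.uniq (cf • v) (Submodule.smul_mem _ _ (Submodule.mem_span_singleton_self v))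
    0 (Submodule.zero_mem _) z hz).1
  rcases smul_eq_zero.1 hu with h | h
  · rw [hcf] at h
    linarith
  · exact absurd h hv0

end Pool.Agent.STT
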