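import Pool.Agent.STT.Stmts

/-!
# MP_e0fc50_gt (Streets-Tian), module D1J
-/

set_option autoImplicit false

namespace Pool.Agent.STT

theorem d1j_proof : Stmt_D1J := by
  intro V _ _ _ H v lam0 hv hn d y
  have h1 := d.brv y
  have h2 := d.brv (d.G.Hc.J y)
  rw [d.G.hJ] at h2
  have hnij := H.nij (y : V) v
  rw [H.anti (H.J (y : V)) (H.J v), H.anti (y : V) (H.J v), h1, h2, hv, hv] at hnij
  have e := sub_eq_zero.mpr hnij
  simp only [map_add, map_neg, map_smul, H.JJ] at e
  have hz : (0 : V) + H.J 0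
      + ((d.D (d.G.Hc.J y) - d.G.Hc.J (d.D y) : d.G.c) : V) = 0 := by
    rw [Submodule.coe_sub, d.G.hJ, map_zero]
    linear_combination (norm := module) (-1 : ℝ) • e
  obtain ⟨-, -, h⟩ := d.G.uniq _ (Submodule.zero_mem _) _ (Submodule.zero_mem _) _ hz
  exact sub_eq_zero.mp h

end Pool.Agent.STT
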