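import Pool.Agent.STT.Stmts

/-!
# MP_e0fc50_gt (Streets-Tian): module D1T
-/

set_option autoImplicit false

namespace Pool.Agent.STT

namespace D1TAux

/-- trace of a block upper triangular map -/
theorem trace_block {A B : Type} [AddCommGroup A] [Module ℝ A] [FiniteDimensional ℝ A]
    [AddCommGroup B] [Module ℝ B] [FiniteDimensional ℝ B] (X : A →ₗ[ℝ] A) (D : B →ₗ[ℝ] B)
    (f : B →ₗ[ℝ] A) (T : (A × B) →ₗ[ℝ] (A × B))
    (hT : ∀ z, T z = (X z.1 + f z.2, D z.2)) :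
    LinearMap.trace ℝ (A × B) T = LinearMap.trace ℝ A X + LinearMap.trace ℝ B D := by
  have e : T = LinearMap.prodMap X D
      + (LinearMap.inl ℝ A B ∘ₗ f) ∘ₗ LinearMap.snd ℝ A B := by
    apply LinearMap.ext
    intro z
    rw [hT]
    ext <;> simp
  rw [e, map_add, LinearMap.trace_prodMap']
  have h0 : LinearMap.trace ℝ (A × B) ((LinearMap.inl ℝ A B ∘ₗ f) ∘ₗ LinearMap.snd ℝ A B) = 0 := by
    rw [LinearMap.trace_comp_comm']
    have : LinearMap.snd ℝ A B ∘ₗ LinearMap.inl ℝ A B ∘ₗ f = 0 := by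
      apply LinearMap.ext
      intro z
      simp
    rw [this, map_zero]
  rw [h0, add_zero]

end D1TAux

theorem d1t_proof (_hLBR : Stmt_LBR) : Stmt_D1T := by
  intro V _ _ _ H v lam0 hv hn d
  have hv0 : v ≠ 0 := by
    intro h
    rw [h] at hn
    simp at hn
  let φ : ((ℝ × ℝ) × d.G.c) →ₗ[ℝ] V :=
    ((LinearMap.toSpanSingleton ℝ V v).coprod (LinearMap.toSpanSingleton ℝ V (H.J v))).coprod
      d.G.c.subtype
  have hφ : ∀ z, φ z = z.1.1 • v + z.1.2 • H.J v + (z.2 : V) := by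
    intro z
    simp [φ, LinearMap.coprod_apply, LinearMap.toSpanSingleton_apply]
  have hm : v ∈ Submodule.span ℝ {v} := Submodule.mem_span_singleton_self v
  have hinj : Function.Injective φ := by
    rw [← LinearMap.ker_eq_bot, LinearMap.ker_eq_bot']
    intro z hz
    rw [hφ] at hz
    have h := d.G.uniq (z.1.1 • v) (Submodule.smul_mem _ _ hm) (z.1.2 • v)
      (Submodule.smul_mem _ _ hm) z.2 (by rw [map_smul]; exact hz)
    have h1 := (smul_eq_zero.mp h.1).resolve_right hv0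
    have h2 := (smul_eq_zero.mp h.2.1).resolve_right hv0
    exact Prod.ext (Prod.ext h1 h2) h.2.2
  have hsurj : Function.Surjective φ := by
    intro x
    obtain ⟨u, hu, w, hw, y, rfl⟩ := d.G.ex x
    rw [Submodule.mem_span_singleton] at hu hw
    obtain ⟨a, rfl⟩ := hu
    obtain ⟨b, rfl⟩ := hw
    exact ⟨((a, b), y), by rw [hφ, map_smul]⟩
  let Φ : ((ℝ × ℝ) × d.G.c) ≃ₗ[ℝ] V := LinearEquiv.ofBijective φ ⟨hinj, hsurj⟩
  have hΦ : ∀ z, Φ z = z.1.1 • v + z.1.2 • H.J v + (z.2 : V) := hφ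
  let X : (ℝ × ℝ) →ₗ[ℝ] (ℝ × ℝ) := LinearMap.prodMap (lam0 (H.J v) • LinearMap.id) 0
  let f : d.G.c →ₗ[ℝ] (ℝ × ℝ) :=
    LinearMap.prod ((2 : ℝ) • (lam0 ∘ₗ H.J ∘ₗ d.G.c.subtype)) (lam0 ∘ₗ d.G.c.subtype)
  have hf : ∀ y : d.G.c, f y = (2 * lam0 (H.J (y : V)), lam0 (y : V)) := fun y => rfl
  have hXa : ∀ z : ℝ × ℝ, X z = (lam0 (H.J v) * z.1, 0) := fun z => rfl
  have hT : ∀ z, (Φ.symm.conj (H.br (H.J v))) z = (X z.1 + f z.2, d.D z.2) := by
    intro z
    apply Φ.injective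
    rw [LinearEquiv.conj_apply_apply, LinearEquiv.apply_symm_apply, LinearEquiv.symm_symm,
      hΦ, hΦ, hf, hXa]
    simp only [map_add, map_smul, hv, H.skew, d.brv, Prod.fst_add, Prod.snd_add,
      smul_zero, zero_add]
    module
  have htr := D1TAux.trace_block X d.D f _ hT
  rw [LinearMap.trace_conj', H.unim] at htr
  have hX : LinearMap.trace ℝ (ℝ × ℝ) X = lam0 (H.J v) := by
    simp only [X, LinearMap.trace_prodMap', map_smul, LinearMap.trace_id, map_zero,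
      Module.finrank_self]
    simp
  rw [hX] at htr
  linarith

end Pool.Agent.STT
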