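import Pool.Agent.STT.Stmts

/-!
# MP_e0fc50_gt (Streets-Tian), module D1X
-/

set_option autoImplicit false

namespace Pool.Agent.STT

namespace D1XAux

variable {V : Type} [AddCommGroup V] [Module ℝ V]

theorem key1 (H : HS V) (v : V) (lam0 : V →ₗ[ℝ] ℝ) (hv : ∀ x, H.br x v = lam0 x • v)
    (hn : H.Om v (H.J v) = 1) (G : DecG H (Submodule.span ℝ {v})) (y : G.c) :
    ∃ s : ℝ, ∃ y' : G.c, H.br (H.J v) (y : V) = s • v + lam0 (y : V) • H.J v + (y' : V) := by
  have hvm : v ∈ Submodule.span ℝ ({v} : Set V) := Submodule.mem_span_singleton_self v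
  obtain ⟨u, hu, w, hw, y', hy⟩ := G.ex (H.br (H.J v) (y : V))
  obtain ⟨s, rfl⟩ := Submodule.mem_span_singleton.mp hu
  obtain ⟨t, rfl⟩ := Submodule.mem_span_singleton.mp hw
  refine ⟨s, y', ?_⟩
  have hc := H.closed (H.J v) (y : V) v
  have h1 : H.br v (H.J v) = -(lam0 (H.J v) • v) := by rw [H.anti, hv]
  have h2 : H.Om v (y : V) = 0 := G.orth v hvm y
  have h3 : H.Om (y' : V) v = 0 := by rw [H.oanti, G.orth v hvm y', neg_zero]
  have h4 : H.Om (H.J v) v = -1 := by rw [H.oanti, hn]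
  rw [hy, hv, h1] at hc
  simp only [map_add, map_neg, map_smul, LinearMap.add_apply, LinearMap.neg_apply,
    LinearMap.smul_apply, smul_eq_mul, H.alt, h2, h3, h4, hn] at hc
  have ht : t = lam0 (y : V) := by linarith
  rw [hy, map_smul, ht]

theorem key2 (H : HS V) (v : V) (lam0 : V →ₗ[ℝ] ℝ) (hv : ∀ x, H.br x v = lam0 x • v)
    (hn : H.Om v (H.J v) = 1) (G : DecG H (Submodule.span ℝ {v})) (y : G.c) :
    H.br (H.J v) (y : V) - lam0 (y : V) • H.J v - (2 * lam0 (H.J (y : V))) • v ∈ G.c := by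
  have hvm : v ∈ Submodule.span ℝ ({v} : Set V) := Submodule.mem_span_singleton_self v
  have hv0 : v ≠ 0 := by
    rintro rfl
    simp at hn
  obtain ⟨s1, y1, h1⟩ := key1 H v lam0 hv hn G y
  obtain ⟨s2, y2, h2⟩ := key1 H v lam0 hv hn G (G.Hc.J y)
  rw [G.hJ] at h2
  have hnij := H.nij (y : V) v
  rw [H.anti (H.J (y : V)) (H.J v), H.anti (y : V) (H.J v), h1, h2, hv, hv] at hnij
  simp only [map_add, map_neg, map_smul, H.JJ] at hnij
  have hz : (s2 + 2 * lam0 (y : V)) • v + H.J ((2 * lam0 (H.J (y : V)) - s1) • v)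
      + ((y2 - G.Hc.J y1 : G.c) : V) = 0 := by
    rw [Submodule.coe_sub, G.hJ, map_smul]
    have e := sub_eq_zero.mpr hnij
    rw [← neg_eq_zero, ← e]
    module
  obtain ⟨-, hw, -⟩ := G.uniq _ (Submodule.smul_mem _ _ hvm) _ (Submodule.smul_mem _ _ hvm) _ hz
  have hs : 2 * lam0 (H.J (y : V)) - s1 = 0 := (smul_eq_zero.mp hw).resolve_right hv0
  have hs1 : 2 * lam0 (H.J (y : V)) = s1 := by linarith
  have : H.br (H.J v) (y : V) - lam0 (y : V) • H.J v - (2 * lam0 (H.J (y : V))) • v = (y1 : V) := by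
    rw [h1, hs1]
    module
  rw [this]
  exact y1.2

end D1XAux

theorem d1x_proof (_ : Stmt_LBR) : Stmt_D1X := by
  intro V _ _ _ H v lam0 hv hn G
  let f : V →ₗ[ℝ] V := H.br (H.J v) - lam0.smulRight (H.J v)
    - ((2 : ℝ) • (lam0 ∘ₗ H.J)).smulRight v
  have hf : ∀ y : V, f y = H.br (H.J v) y - lam0 y • H.J v - (2 * lam0 (H.J y)) • v := by
    intro y
    simp [f]
  refine ⟨(f ∘ₗ G.c.subtype).codRestrict G.c (fun y => ?_), fun y => ?_⟩
  · rw [LinearMap.comp_apply, Submodule.coe_subtype, hf]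
    exact D1XAux.key2 H v lam0 hv hn G y
  · rw [LinearMap.codRestrict_apply, LinearMap.comp_apply, Submodule.coe_subtype, hf]
    abel

end Pool.Agent.STT
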