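import Pool.Agent.STT.Stmts

set_option autoImplicit false

namespace Pool.Agent.STT

namespace D2E1Aux

variable {V : Type} [AddCommGroup V] [Module ℝ V]

/-- `a + J a` -/
def NN (H : HS V) (a : Submodule ℝ V) : Submodule ℝ V := a ⊔ a.map H.J

theorem memA {H : HS V} {a : Submodule ℝ V} {u : V} (h : u ∈ a) : u ∈ NN H a :=
  (le_sup_left : a ≤ _) h

theorem memJ {H : HS V} {a : Submodule ℝ V} {u : V} (h : u ∈ a) : H.J u ∈ NN H a :=
  (le_sup_right : a.map H.J ≤ _) (Submodule.mem_map_of_mem h)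

theorem cN {H : HS V} {a : Submodule ℝ V} (G : DecG H a) (y : G.c) (h : (y : V) ∈ NN H a) :
    y = 0 := by
  obtain ⟨u, hu, w, hw, he⟩ := Submodule.mem_sup.mp h
  obtain ⟨w', hw', rfl⟩ := Submodule.mem_map.mp hw
  have := (G.uniq (-u) (a.neg_mem hu) (-w') (a.neg_mem hw') y (by
    rw [← he, map_neg]; abel)).2.2
  exact this

end D2E1Aux

open D2E1Aux in
theorem d2e1_proof (hPRE : Stmt_PRE) (hPBR : Stmt_PBR) : Stmt_D2E1 := by
  intro V _ _ _ H P d x y
  have hpre := hPRE V H P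
  have np : ∀ y : d.G.c, ∃ r ∈ P.pl, H.br (H.J d.p) (y : V)
      = H.J (P.nu (y : V) • d.p - P.mu (y : V) • d.q) + r + ((d.Dp y : d.G.c) : V) := by
    intro y
    exact ⟨_, P.pl.sub_mem (P.pl.add_mem (d.G.idl _ _ d.pm) (P.pl.smul_mem _ d.pm))
      (P.pl.smul_mem _ d.qm), d.brp y⟩
  have nq : ∀ y : d.G.c, ∃ r ∈ P.pl, H.br (H.J d.q) (y : V)
      = H.J (P.nu (y : V) • d.q + P.mu (y : V) • d.p) + r + ((d.Dq y : d.G.c) : V) := by
    intro y
    exact ⟨_, P.pl.add_mem (P.pl.add_mem (d.G.idl _ _ d.qm) (P.pl.smul_mem _ d.qm))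
      (P.pl.smul_mem _ d.pm), d.brq y⟩
  have idl2 : ∀ u ∈ P.pl, ∀ x, H.br u x ∈ P.pl := by
    intro u hu x
    rw [H.toLA.anti]
    exact P.pl.neg_mem (d.G.idl x u hu)
  set N := NN H P.pl
  obtain ⟨rpx, mpx, hpx⟩ := np x
  obtain ⟨rpy, mpy, hpy⟩ := np y
  obtain ⟨rqx, mqx, hqx⟩ := nq x
  obtain ⟨rqy, mqy, hqy⟩ := nq y
  obtain ⟨rpz, mpz, hpz⟩ := np (d.G.Hc.br x y)
  obtain ⟨rqz, mqz, hqz⟩ := nq (d.G.Hc.br x y)
  have hz := d.G.hbr x y
  have e1 := d.G.hbr (d.Dp x) y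
  have e2 := d.G.hbr x (d.Dp y)
  have e3 := d.G.hbr (d.Dq x) y
  have e4 := d.G.hbr x (d.Dq y)
  have t0 := d.G.tha x y
  have jp := H.jac (H.J d.p) (x : V) (y : V)
  have jq := H.jac (H.J d.q) (x : V) (y : V)
  have tp0 : H.br (H.J d.p) (d.G.th x y) = 0 := ((hpre d.p d.pm).2.2.2.2 _ t0).2.1
  have tq0 : H.br (H.J d.q) (d.G.th x y) = 0 := ((hpre d.q d.qm).2.2.2.2 _ t0).2.1
  have hxp : H.br (x : V) (H.J d.p) = - H.br (H.J d.p) (x : V) := H.toLA.anti _ _
  have hxq : H.br (x : V) (H.J d.q) = - H.br (H.J d.q) (x : V) := H.toLA.anti _ _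
  have mp := memJ (H := H) d.pm
  have mq := memJ (H := H) d.qm
  constructor
  · rw [hz, map_add, tp0, zero_add, hpz, hpx, hpy] at jp
    simp only [map_add, map_sub, map_smul, LinearMap.add_apply, LinearMap.sub_apply,
      LinearMap.smul_apply, hpy, hqy, e1, e2, hxp, hxq, hpx, hqx] at jp
    apply sub_eq_zero.mp
    apply cN d.G
    have key : ((d.Dp (d.G.Hc.br x y) - (P.nu (x : V) • d.Dp y - P.mu (x : V) • d.Dq y
        - (P.nu (y : V) • d.Dp x - P.mu (y : V) • d.Dq x) + d.G.Hc.br (d.Dp x) y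
        + d.G.Hc.br x (d.Dp y)) : d.G.c) : V)
        = - (P.nu ((d.G.Hc.br x y : d.G.c) : V) • H.J d.p
            - P.mu ((d.G.Hc.br x y : d.G.c) : V) • H.J d.q + rpz)
          + (P.nu (x : V) • (P.nu (y : V) • H.J d.p - P.mu (y : V) • H.J d.q + rpy)
            - P.mu (x : V) • (P.nu (y : V) • H.J d.q + P.mu (y : V) • H.J d.p + rqy)
            + H.br rpx (y : V) + d.G.th (d.Dp x) y)
          + (- (P.nu (y : V) • (P.nu (x : V) • H.J d.p - P.mu (x : V) • H.J d.q + rpx))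
            + P.mu (y : V) • (P.nu (x : V) • H.J d.q + P.mu (x : V) • H.J d.p + rqx)
            + H.br (x : V) rpy + d.G.th x (d.Dp y)) := by
      simp only [Submodule.coe_add, Submodule.coe_sub, Submodule.coe_smul]
      linear_combination (norm := module) jp
    rw [key]
    have m1 := memA (H := H) mpz
    have m2 := memA (H := H) mpy
    have m3 := memA (H := H) mqy
    have m4 := memA (H := H) (idl2 _ mpx (y : V))
    have m5 := memA (H := H) (d.G.tha (d.Dp x) y)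
    have m6 := memA (H := H) mpx
    have m7 := memA (H := H) mqx
    have m8 := memA (H := H) (d.G.idl (x : V) _ mpy)
    have m9 := memA (H := H) (d.G.tha x (d.Dp y))
    refine N.add_mem (N.add_mem (N.neg_mem (N.add_mem (N.sub_mem (N.smul_mem _ mp)
      (N.smul_mem _ mq)) m1)) (N.add_mem (N.add_mem (N.sub_mem (N.smul_mem _ (N.add_mem
      (N.sub_mem (N.smul_mem _ mp) (N.smul_mem _ mq)) m2)) (N.smul_mem _ (N.add_mem (N.add_mem
      (N.smul_mem _ mq) (N.smul_mem _ mp)) m3))) m4) m5)) (N.add_mem (N.add_mem (N.add_mem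
      (N.neg_mem (N.smul_mem _ (N.add_mem (N.sub_mem (N.smul_mem _ mp) (N.smul_mem _ mq)) m6)))
      (N.smul_mem _ (N.add_mem (N.add_mem (N.smul_mem _ mq) (N.smul_mem _ mp)) m7))) m8) m9)
  · rw [hz, map_add, tq0, zero_add, hqz, hqx, hqy] at jq
    simp only [map_add, map_sub, map_smul, LinearMap.add_apply, LinearMap.sub_apply,
      LinearMap.smul_apply, hpy, hqy, e3, e4, hxp, hxq, hpx, hqx] at jq
    apply sub_eq_zero.mp
    apply cN d.G
    have key : ((d.Dq (d.G.Hc.br x y) - (P.nu (x : V) • d.Dq y + P.mu (x : V) • d.Dp y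
        - (P.nu (y : V) • d.Dq x + P.mu (y : V) • d.Dp x) + d.G.Hc.br (d.Dq x) y
        + d.G.Hc.br x (d.Dq y)) : d.G.c) : V)
        = - (P.nu ((d.G.Hc.br x y : d.G.c) : V) • H.J d.q
            + P.mu ((d.G.Hc.br x y : d.G.c) : V) • H.J d.p + rqz)
          + (P.nu (x : V) • (P.nu (y : V) • H.J d.q + P.mu (y : V) • H.J d.p + rqy)
            + P.mu (x : V) • (P.nu (y : V) • H.J d.p - P.mu (y : V) • H.J d.q + rpy)
            + H.br rqx (y : V) + d.G.th (d.Dq x) y)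
          + (- (P.nu (y : V) • (P.nu (x : V) • H.J d.q + P.mu (x : V) • H.J d.p + rqx))
            + - (P.mu (y : V) • (P.nu (x : V) • H.J d.p - P.mu (x : V) • H.J d.q + rpx))
            + H.br (x : V) rqy + d.G.th x (d.Dq y)) := by
      simp only [Submodule.coe_add, Submodule.coe_sub, Submodule.coe_smul]
      linear_combination (norm := module) jq
    rw [key]
    have m1 := memA (H := H) mqz
    have m2 := memA (H := H) mpy
    have m3 := memA (H := H) mqy
    have m4 := memA (H := H) (idl2 _ mqx (y : V))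
    have m5 := memA (H := H) (d.G.tha (d.Dq x) y)
    have m6 := memA (H := H) mpx
    have m7 := memA (H := H) mqx
    have m8 := memA (H := H) (d.G.idl (x : V) _ mqy)
    have m9 := memA (H := H) (d.G.tha x (d.Dq y))
    refine N.add_mem (N.add_mem (N.neg_mem (N.add_mem (N.add_mem (N.smul_mem _ mq)
      (N.smul_mem _ mp)) m1)) (N.add_mem (N.add_mem (N.add_mem (N.smul_mem _ (N.add_mem
      (N.add_mem (N.smul_mem _ mq) (N.smul_mem _ mp)) m3)) (N.smul_mem _ (N.add_mem (N.sub_mem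
      (N.smul_mem _ mp) (N.smul_mem _ mq)) m2))) m4) m5)) (N.add_mem (N.add_mem (N.add_mem
      (N.neg_mem (N.smul_mem _ (N.add_mem (N.add_mem (N.smul_mem _ mq) (N.smul_mem _ mp)) m7)))
      (N.neg_mem (N.smul_mem _ (N.add_mem (N.sub_mem (N.smul_mem _ mp) (N.smul_mem _ mq)) m6))))
      m8) m9)

end Pool.Agent.STT
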