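import Pool.Agent.STT.Stmts
import Mathlib

set_option autoImplicit false

namespace Pool.Agent.STT

private theorem d2e2_aux {V : Type} [AddCommGroup V] [Module ℝ V] (H : HS V) (a : Submodule ℝ V)
    (G : DecG H a) (w t t' u u' : V) (e e' x y : G.c)
    (hx : H.br w (x : V) = H.J t + u + (e : V)) (hy : H.br w (y : V) = H.J t' + u' + (e' : V))
    (hu : u ∈ a) (hu' : u' ∈ a) :
    G.Hc.Om e y + G.Hc.Om x e' - H.Om (y : V) (H.J t) + H.Om (x : V) (H.J t')
      + H.Om (G.th x y) w + H.Om ((G.Hc.br x y : G.c) : V) w = 0 := by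
  have h := H.closed w (x : V) (y : V)
  rw [H.anti (y : V) w, hx, hy, G.hbr] at h
  simp only [map_add, map_neg, LinearMap.add_apply, LinearMap.neg_apply] at h
  have o1 : H.Om (H.J t) (y : V) = - H.Om (y : V) (H.J t) := H.oanti _ _
  have o2 : H.Om (H.J t') (x : V) = - H.Om (x : V) (H.J t') := H.oanti _ _
  have o3 : H.Om (e' : V) (x : V) = - H.Om (x : V) (e' : V) := H.oanti _ _
  rw [o1, o2, o3, G.orth u hu y, G.orth u' hu' x] at h
  rw [G.hOm, G.hOm]
  linarith

theorem d2e2_proof : Stmt_D2E2 := by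
  intro V _ _ _ H P d x y
  constructor
  · have h := d2e2_aux H P.pl d.G (H.J d.p) _ _ _ _ _ _ x y (d.brp x) (d.brp y)
      (Submodule.sub_mem _ (Submodule.add_mem _ (d.G.idl _ _ d.pm) (Submodule.smul_mem _ _ d.pm))
        (Submodule.smul_mem _ _ d.qm))
      (Submodule.sub_mem _ (Submodule.add_mem _ (d.G.idl _ _ d.pm) (Submodule.smul_mem _ _ d.pm))
        (Submodule.smul_mem _ _ d.qm))
    simp only [map_sub, map_smul, smul_eq_mul] at h
    linarith
  · have h := d2e2_aux H P.pl d.G (H.J d.q) _ _ _ _ _ _ x y (d.brq x) (d.brq y)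
      (Submodule.add_mem _ (Submodule.add_mem _ (d.G.idl _ _ d.qm) (Submodule.smul_mem _ _ d.qm))
        (Submodule.smul_mem _ _ d.pm))
      (Submodule.add_mem _ (Submodule.add_mem _ (d.G.idl _ _ d.qm) (Submodule.smul_mem _ _ d.qm))
        (Submodule.smul_mem _ _ d.pm))
    simp only [map_add, map_smul, smul_eq_mul] at h
    linarith

end Pool.Agent.STT
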