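import Pool.Agent.STT.Stmts

/-!
# MP_e0fc50_gt (Streets-Tian): module D2E3
-/

set_option autoImplicit false

namespace Pool.Agent.STT

theorem d2e3_proof (_hPRE : Stmt_PRE) (_hPBR : Stmt_PBR) (hD2A : Stmt_D2A) : Stmt_D2E3 := by
  intro V _ _ _ H P d x y
  obtain ⟨Pp, hPp⟩ : ∃ Pp : V → V, ∀ y, Pp y = H.br (H.J y) d.p + P.nu (H.J y) • d.p
      - P.mu (H.J y) • d.q := ⟨_, fun _ => rfl⟩
  obtain ⟨Pq, hPq⟩ : ∃ Pq : V → V, ∀ y, Pq y = H.br (H.J y) d.q + P.nu (H.J y) • d.q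
      + P.mu (H.J y) • d.p := ⟨_, fun _ => rfl⟩
  have hmp : ∀ y, Pp y ∈ P.pl := by
    intro y
    rw [hPp]
    exact Submodule.sub_mem _ (Submodule.add_mem _ (d.G.idl _ _ d.pm)
      (Submodule.smul_mem _ _ d.pm)) (Submodule.smul_mem _ _ d.qm)
  have hmq : ∀ y, Pq y ∈ P.pl := by
    intro y
    rw [hPq]
    exact Submodule.add_mem _ (Submodule.add_mem _ (d.G.idl _ _ d.qm)
      (Submodule.smul_mem _ _ d.qm)) (Submodule.smul_mem _ _ d.pm)
  obtain ⟨h1, h2⟩ := hD2A V H P d Pp Pq hPp hPq x y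
  have e1 := congrArg (fun w => H.Om w (H.J d.p)) h1
  have e2 := congrArg (fun w => H.Om w (H.J d.q)) h2
  simp only [map_add, map_sub, map_smul, LinearMap.add_apply, LinearMap.sub_apply,
    LinearMap.smul_apply, smul_eq_mul] at e1 e2
  rw [d.adp _ _ (hmp _), d.adp _ _ (hmp _)] at e1
  rw [d.adq _ _ (hmq _), d.adq _ _ (hmq _)] at e2
  have a1 : ∀ y, H.Om (Pp y) (H.J d.p) = 2 * P.nu (H.J y) * H.Om d.p (H.J d.p)
      - P.mu (H.J y) * (H.Om d.p (H.J d.q) + H.Om d.q (H.J d.p)) := by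
    intro y
    rw [hPp]
    simp only [map_add, map_sub, map_smul, LinearMap.add_apply, LinearMap.sub_apply,
      LinearMap.smul_apply, smul_eq_mul, d.adp _ _ d.pm]
    ring
  have a4 : ∀ y, H.Om (Pq y) (H.J d.q) = 2 * P.nu (H.J y) * H.Om d.q (H.J d.q)
      + P.mu (H.J y) * (H.Om d.q (H.J d.p) + H.Om d.p (H.J d.q)) := by
    intro y
    rw [hPq]
    simp only [map_add, map_smul, LinearMap.add_apply,
      LinearMap.smul_apply, smul_eq_mul, d.adq _ _ d.qm]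
    ring
  rw [a1, a1, a1] at e1
  rw [a4, a4, a4] at e2
  linarith

end Pool.Agent.STT
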