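import Pool.Agent.STT.Stmts

/-!
# MP_e0fc50_gt (Streets-Tian), module D2J
-/

set_option autoImplicit false

namespace Pool.Agent.STT

theorem d2j_proof : Stmt_D2J := by
  intro V _ _ _ H P d
  refine ⟨fun y => ?_, fun y => ?_⟩
  · have h1 := d.brp y
    have h2 := d.brp (d.G.Hc.J y)
    rw [d.G.hJ] at h2
    have hnij := H.nij (y : V) d.p
    rw [H.anti (H.J (y : V)) (H.J d.p), H.anti (y : V) (H.J d.p), h1, h2] at hnij
    have e := sub_eq_zero.mpr hnij
    simp only [map_add, map_sub, map_neg, map_smul, H.JJ, LinearMap.neg_apply] at e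
    have hz : (0 : V) + H.J 0
        + ((d.Dp (d.G.Hc.J y) - d.G.Hc.J (d.Dp y) : d.G.c) : V) = 0 := by
      rw [Submodule.coe_sub, d.G.hJ, map_zero]
      linear_combination (norm := module) (-1 : ℝ) • e
    obtain ⟨-, -, h⟩ := d.G.uniq _ (Submodule.zero_mem _) _ (Submodule.zero_mem _) _ hz
    exact sub_eq_zero.mp h
  · have h1 := d.brq y
    have h2 := d.brq (d.G.Hc.J y)
    rw [d.G.hJ] at h2
    have hnij := H.nij (y : V) d.q
    rw [H.anti (H.J (y : V)) (H.J d.q), H.anti (y : V) (H.J d.q), h1, h2] at hnij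
    have e := sub_eq_zero.mpr hnij
    simp only [map_add, map_neg, map_smul, H.JJ, LinearMap.neg_apply] at e
    have hz : (0 : V) + H.J 0
        + ((d.Dq (d.G.Hc.J y) - d.G.Hc.J (d.Dq y) : d.G.c) : V) = 0 := by
      rw [Submodule.coe_sub, d.G.hJ, map_zero]
      linear_combination (norm := module) (-1 : ℝ) • e
    obtain ⟨-, -, h⟩ := d.G.uniq _ (Submodule.zero_mem _) _ (Submodule.zero_mem _) _ hz
    exact sub_eq_zero.mp h

end Pool.Agent.STT
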