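import Pool.Agent.STT.Stmts

/-!
# Squad STT, module D2M: the two derivations of a pair commute
-/

set_option autoImplicit false

namespace Pool.Agent.STT

theorem d2m_proof (hPRE : Stmt_PRE) : Stmt_D2M := by
  intro V _ _ _ H P d x
  -- `[Jp, y] = b + J a + Dp y` with `a, b` in the plane
  have hp : ∀ y : d.G.c, ∃ a ∈ P.pl, ∃ b ∈ P.pl,
      H.br (H.J d.p) (y : V) = b + H.J a + ((d.Dp y : d.G.c) : V) := by
    intro y
    refine ⟨P.nu (y : V) • d.p - P.mu (y : V) • d.q,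
      P.pl.sub_mem (P.pl.smul_mem _ d.pm) (P.pl.smul_mem _ d.qm),
      H.br (H.J (y : V)) d.p + P.nu (H.J (y : V)) • d.p - P.mu (H.J (y : V)) • d.q,
      P.pl.sub_mem (P.pl.add_mem (d.G.idl _ _ d.pm) (P.pl.smul_mem _ d.pm))
        (P.pl.smul_mem _ d.qm), ?_⟩
    rw [d.brp y]
    abel
  have hq : ∀ y : d.G.c, ∃ a ∈ P.pl, ∃ b ∈ P.pl,
      H.br (H.J d.q) (y : V) = b + H.J a + ((d.Dq y : d.G.c) : V) := by
    intro y
    refine ⟨P.nu (y : V) • d.q + P.mu (y : V) • d.p,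
      P.pl.add_mem (P.pl.smul_mem _ d.qm) (P.pl.smul_mem _ d.pm),
      H.br (H.J (y : V)) d.q + P.nu (H.J (y : V)) • d.q + P.mu (H.J (y : V)) • d.p,
      P.pl.add_mem (P.pl.add_mem (d.G.idl _ _ d.qm) (P.pl.smul_mem _ d.qm))
        (P.pl.smul_mem _ d.pm), ?_⟩
    rw [d.brq y]
    abel
  -- the plane and its `J`-image are killed by `[Jw, .]`
  have hk : ∀ w ∈ P.pl, ∀ a ∈ P.pl, ∀ b ∈ P.pl, ∀ z : V,
      H.br (H.J w) (b + H.J a + z) = H.br (H.J w) z := by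
    intro w hw a ha b hb z
    rw [map_add, map_add, ((hPRE V H P w hw).2.2.2.2 b hb).2.1,
      ((hPRE V H P w hw).2.2.2.2 a ha).2.2, add_zero, zero_add]
  obtain ⟨a1, ha1, b1, hb1, h1⟩ := hq x
  obtain ⟨a2, ha2, b2, hb2, h2⟩ := hp (d.Dq x)
  obtain ⟨a3, ha3, b3, hb3, h3⟩ := hp x
  obtain ⟨a4, ha4, b4, hb4, h4⟩ := hq (d.Dp x)
  have hj := H.jac (H.J d.p) (H.J d.q) (x : V)
  rw [((hPRE V H P d.p d.pm).2.2.2.2 d.q d.qm).2.2, map_zero, LinearMap.zero_apply, zero_add,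
    h1, h3, hk d.p d.pm a1 ha1 b1 hb1, hk d.q d.qm a3 ha3 b3 hb3, h2, h4] at hj
  have h5 := d.G.uniq (b2 - b4) (P.pl.sub_mem hb2 hb4) (a2 - a4) (P.pl.sub_mem ha2 ha4)
    (d.Dp (d.Dq x) - d.Dq (d.Dp x)) (by
      rw [map_sub, Submodule.coe_sub]
      have h6 : b2 - b4 + (H.J a2 - H.J a4)
          + (((d.Dp (d.Dq x) : d.G.c) : V) - ((d.Dq (d.Dp x) : d.G.c) : V))
          = (b2 + H.J a2 + ((d.Dp (d.Dq x) : d.G.c) : V))
            - (b4 + H.J a4 + ((d.Dq (d.Dp x) : d.G.c) : V)) := by abel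
      rw [h6, hj, sub_self])
  exact sub_eq_zero.mp h5.2.2

end Pool.Agent.STT
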