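import Pool.Agent.STT.Stmts

set_option autoImplicit false

namespace Pool.Agent.STT

namespace D2TAux

variable {V : Type} [AddCommGroup V] [Module ℝ V]

/-- the projection onto `c` -/
theorem exists_proj {H : HS V} {a : Submodule ℝ V} (G : DecG H a) :
    ∃ π : V →ₗ[ℝ] G.c, (∀ u ∈ a, ∀ w ∈ a, ∀ y : G.c, π (u + H.J w + (y : V)) = y) ∧
      ∀ x, ∃ u ∈ a, ∃ w ∈ a, x = u + H.J w + (π x : V) := by
  choose u hu w hw y hy using G.ex
  have huniq : ∀ u1 ∈ a, ∀ w1 ∈ a, ∀ y1 : G.c, ∀ u2 ∈ a, ∀ w2 ∈ a, ∀ y2 : G.c,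
      u1 + H.J w1 + (y1 : V) = u2 + H.J w2 + (y2 : V) → y1 = y2 := by
    intro u1 hu1 w1 hw1 y1 u2 hu2 w2 hw2 y2 h
    have h1 : (u1 - u2) + H.J (w1 - w2) + ((y1 - y2 : G.c) : V) = 0 := by
      rw [map_sub, Submodule.coe_sub]
      rw [← sub_eq_zero] at h
      rw [← h]
      abel
    have h2 := (G.uniq _ (a.sub_mem hu1 hu2) _ (a.sub_mem hw1 hw2) _ h1).2.2
    exact sub_eq_zero.mp h2
  refine ⟨{ toFun := y, map_add' := ?_, map_smul' := ?_ }, ?_, ?_⟩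
  · intro x1 x2
    apply huniq _ (hu (x1 + x2)) _ (hw (x1 + x2)) _ _ (a.add_mem (hu x1) (hu x2)) _
      (a.add_mem (hw x1) (hw x2))
    rw [← hy (x1 + x2), map_add, Submodule.coe_add]
    nth_rewrite 1 [hy x1, hy x2]
    abel
  · intro r x
    simp only [RingHom.id_apply]
    apply huniq _ (hu (r • x)) _ (hw (r • x)) _ _ (a.smul_mem r (hu x)) _
      (a.smul_mem r (hw x))
    rw [← hy (r • x), map_smul, Submodule.coe_smul]
    nth_rewrite 1 [hy x]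
    rw [smul_add, smul_add]
  · intro u1 hu1 w1 hw1 y1
    exact huniq _ (hu _) _ (hw _) _ _ hu1 _ hw1 _ (hy _).symm
  · intro x
    exact ⟨u x, hu x, w x, hw x, hy x⟩

/-- an endomorphism vanishing on `a + J a` has the trace of its `c`-block -/
theorem trace_block [FiniteDimensional ℝ V] {H : HS V} {a : Submodule ℝ V} (G : DecG H a)
    (T : V →ₗ[ℝ] V) (h1 : ∀ u ∈ a, T u = 0) (h2 : ∀ u ∈ a, T (H.J u) = 0)
    (D : G.c →ₗ[ℝ] G.c)
    (hD : ∀ y : G.c, ∃ u ∈ a, ∃ w ∈ a, T (y : V) = u + H.J w + ((D y : G.c) : V)) :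
    LinearMap.trace ℝ V T = LinearMap.trace ℝ G.c D := by
  obtain ⟨π, hπ, hex⟩ := exists_proj G
  have e1 : T = (T ∘ₗ G.c.subtype) ∘ₗ π := by
    ext x
    obtain ⟨u, hu, w, hw, hx⟩ := hex x
    simp only [LinearMap.comp_apply, Submodule.subtype_apply]
    conv_lhs => rw [hx]
    rw [map_add, map_add, h1 u hu, h2 w hw, add_zero, zero_add]
  have e2 : D = π ∘ₗ (T ∘ₗ G.c.subtype) := by
    ext y
    obtain ⟨u, hu, w, hw, hx⟩ := hD y
    simp only [LinearMap.comp_apply, Submodule.subtype_apply]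
    rw [hx, hπ u hu w hw]
  conv_lhs => rw [e1]
  rw [LinearMap.trace_comp_comm', ← e2]

end D2TAux

open D2TAux in
theorem d2t_proof (hPRE : Stmt_PRE) : Stmt_D2T := by
  intro V _ _ _ H P d
  have hP := hPRE V H P
  have hp1 : P.pl ≤ P.pl := le_refl _
  constructor
  · rw [← trace_block d.G (H.br (H.J d.p)) (fun u hu => ((hP d.p d.pm).2.2.2.2 u hu).2.1)
      (fun u hu => ((hP d.p d.pm).2.2.2.2 u hu).2.2) d.Dp (fun y => ?_)]
    · exact H.unim _
    · have hm : d.Dp y = d.Dp y := rfl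
      refine ⟨H.br (H.J (y : V)) d.p + P.nu (H.J (y : V)) • d.p - P.mu (H.J (y : V)) • d.q, ?_,
        P.nu (y : V) • d.p - P.mu (y : V) • d.q, ?_, ?_⟩
      · exact P.pl.sub_mem (P.pl.add_mem (d.G.idl _ _ d.pm) (P.pl.smul_mem _ d.pm))
          (P.pl.smul_mem _ d.qm)
      · exact P.pl.sub_mem (P.pl.smul_mem _ d.pm) (P.pl.smul_mem _ d.qm)
      · rw [d.brp]
        abel
  · rw [← trace_block d.G (H.br (H.J d.q)) (fun u hu => ((hP d.q d.qm).2.2.2.2 u hu).2.1)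
      (fun u hu => ((hP d.q d.qm).2.2.2.2 u hu).2.2) d.Dq (fun y => ?_)]
    · exact H.unim _
    · refine ⟨H.br (H.J (y : V)) d.q + P.nu (H.J (y : V)) • d.q + P.mu (H.J (y : V)) • d.p, ?_,
        P.nu (y : V) • d.q + P.mu (y : V) • d.p, ?_, ?_⟩
      · exact P.pl.add_mem (P.pl.add_mem (d.G.idl _ _ d.qm) (P.pl.smul_mem _ d.qm))
          (P.pl.smul_mem _ d.pm)
      · exact P.pl.add_mem (P.pl.smul_mem _ d.qm) (P.pl.smul_mem _ d.pm)
      · rw [d.brq]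
        abel

end Pool.Agent.STT
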