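import Pool.Agent.STT.Stmts

/-!
# MP_e0fc50_gt (Streets-Tian), module D2X
-/

set_option autoImplicit false

namespace Pool.Agent.STT

namespace D2XAux

variable {V : Type} [AddCommGroup V] [Module ℝ V]

theorem key1 (h : Stmt_PRE) (H : HS V) (P : Pair H) (G : DecG H P.pl) (p q : V) (hp : p ∈ P.pl)
    (hq : q ∈ P.pl) (adp : ∀ x : V, ∀ w ∈ P.pl, H.Om (H.br x w) (H.J p)
      = P.nu x * H.Om w (H.J p) - P.mu x * H.Om w (H.J q)) (y : G.c) :
    ∃ s ∈ P.pl, ∃ y' : G.c, H.br (H.J p) (y : V)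
      = s + H.J (P.nu (y : V) • p - P.mu (y : V) • q) + (y' : V) := by
  obtain ⟨s, hs, t, ht, y', hy⟩ := G.ex (H.br (H.J p) (y : V))
  refine ⟨s, hs, y', ?_⟩
  have hr : P.nu (y : V) • p - P.mu (y : V) • q ∈ P.pl :=
    Submodule.sub_mem _ (Submodule.smul_mem _ _ hp) (Submodule.smul_mem _ _ hq)
  have hall : ∀ w ∈ P.pl, H.Om w (H.J t) = H.Om w (H.J (P.nu (y : V) • p - P.mu (y : V) • q)) := by
    intro w hw
    have hc := H.closed w (H.J p) (y : V)
    have h0 : H.br w (H.J p) = 0 := by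
      rw [H.anti, ((h V H P p hp).2.2.2.2 w hw).2.1, neg_zero]
    have h3 : H.Om (y' : V) w = 0 := by rw [H.oanti, G.orth w hw y', neg_zero]
    have h4 : H.Om s w = 0 := G.iso s hs w hw
    rw [h0, hy, adp (y : V) w hw] at hc
    simp only [map_add, LinearMap.add_apply, h3, h4, map_zero, LinearMap.zero_apply] at hc
    rw [H.oanti (H.J t) w] at hc
    simp only [map_sub, map_smul, smul_eq_mul]
    linarith
  have ht2 : t - (P.nu (y : V) • p - P.mu (y : V) • q) = 0 := by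
    by_contra hne
    have h1 := H.tame _ hne
    have h2 := hall _ (Submodule.sub_mem _ ht hr)
    rw [map_sub H.J, map_sub (H.Om _), h2, sub_self] at h1
    exact lt_irrefl _ h1
  rw [hy, sub_eq_zero.mp ht2]

theorem key2 (h : Stmt_PRE) (H : HS V) (P : Pair H) (G : DecG H P.pl) (p q : V) (hp : p ∈ P.pl)
    (hq : q ∈ P.pl) (adp : ∀ x : V, ∀ w ∈ P.pl, H.Om (H.br x w) (H.J p)
      = P.nu x * H.Om w (H.J p) - P.mu x * H.Om w (H.J q)) (y : G.c) :
    H.br (H.J p) (y : V) - H.J (P.nu (y : V) • p - P.mu (y : V) • q)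
      - (H.br (H.J (y : V)) p + P.nu (H.J (y : V)) • p - P.mu (H.J (y : V)) • q) ∈ G.c := by
  obtain ⟨s1, hs1, y1, h1⟩ := key1 h H P G p q hp hq adp y
  obtain ⟨s2, hs2, y2, h2⟩ := key1 h H P G p q hp hq adp (G.Hc.J y)
  rw [G.hJ] at h2
  have hr : ∀ z : V, P.nu z • p - P.mu z • q ∈ P.pl := fun z =>
    Submodule.sub_mem _ (Submodule.smul_mem _ _ hp) (Submodule.smul_mem _ _ hq)
  have hb : ∀ z : V, H.br z p ∈ P.pl := fun z => G.idl z p hp
  have hnij := H.nij (y : V) p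
  rw [H.anti (H.J (y : V)) (H.J p), H.anti (y : V) (H.J p), h1, h2] at hnij
  have hz : (s2 + H.br (y : V) p + (P.nu (y : V) • p - P.mu (y : V) • q))
      + H.J (H.br (H.J (y : V)) p + (P.nu (H.J (y : V)) • p - P.mu (H.J (y : V)) • q) - s1)
      + ((y2 - G.Hc.J y1 : G.c) : V) = 0 := by
    rw [Submodule.coe_sub, G.hJ]
    have e := sub_eq_zero.mpr hnij
    rw [← neg_eq_zero, ← e]
    simp only [map_add, map_sub, map_neg, map_smul, H.JJ]
    module
  obtain ⟨-, hw, -⟩ := G.uniq _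
    (Submodule.add_mem _ (Submodule.add_mem _ hs2 (hb _)) (hr _)) _
    (Submodule.sub_mem _ (Submodule.add_mem _ (hb _) (hr _)) hs1) _ hz
  have hs : s1 = H.br (H.J (y : V)) p + (P.nu (H.J (y : V)) • p - P.mu (H.J (y : V)) • q) :=
    (sub_eq_zero.mp hw).symm
  have : H.br (H.J p) (y : V) - H.J (P.nu (y : V) • p - P.mu (y : V) • q)
      - (H.br (H.J (y : V)) p + P.nu (H.J (y : V)) • p - P.mu (H.J (y : V)) • q) = (y1 : V) := by
    rw [h1, hs]
    abel
  rw [this]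
  exact y1.2

end D2XAux

theorem d2x_proof (h : Stmt_PRE) : Stmt_D2X := by
  intro V _ _ _ H P G p q hp hq adp
  let f : V →ₗ[ℝ] V := H.br (H.J p) - H.J ∘ₗ (P.nu.smulRight p - P.mu.smulRight q)
    - ((H.br.flip p) ∘ₗ H.J + (P.nu ∘ₗ H.J).smulRight p - (P.mu ∘ₗ H.J).smulRight q)
  have hf : ∀ y : V, f y = H.br (H.J p) y - H.J (P.nu y • p - P.mu y • q)
      - (H.br (H.J y) p + P.nu (H.J y) • p - P.mu (H.J y) • q) := by
    intro y
    rfl
  refine ⟨(f ∘ₗ G.c.subtype).codRestrict G.c (fun y => ?_), fun y => ?_⟩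
  · rw [LinearMap.comp_apply, Submodule.coe_subtype, hf]
    exact D2XAux.key2 h H P G p q hp hq adp y
  · rw [LinearMap.codRestrict_apply, LinearMap.comp_apply, Submodule.coe_subtype, hf]
    abel

end Pool.Agent.STT
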