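import Pool.Agent.STT.Stmts

set_option autoImplicit false

namespace Pool.Agent.STT

theorem deg_proof (hDGP : Stmt_DGP) (hDGJ : Stmt_DGJ) (hDGU : Stmt_DGU) (hDGS : Stmt_DGS) :
    Stmt_DEG := by
  intro V _ _ _ H a hid hiso
  obtain ⟨⟨p⟩, hfr⟩ := hDGP V H a hiso
  obtain ⟨hJc, hJ⟩ := hDGJ V H a hid hiso p
  -- facts
  have hsp : ∀ x ∈ cc H a, ∀ y ∈ cc H a,
      H.br x y = p.pa (H.br x y) + p.pc (H.br x y) := by
    intro x hx y hy
    have h1 := p.sum (H.br x y)
    rw [(hJ x hx y hy).1, map_zero, add_zero] at h1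
    exact h1
  have hid' : ∀ x, ∀ u ∈ a, H.br u x ∈ a := by
    intro x u hu
    rw [H.anti]
    exact a.neg_mem (hid x u hu)
  have hpcr : ∀ x, ∀ y ∈ cc H a, ∀ z ∈ cc H a,
      p.pc (H.br x (p.pc (H.br y z))) = p.pc (H.br x (H.br y z)) := by
    intro x y hy z hz
    conv_rhs => rw [hsp y hy z hz, map_add, map_add, (p.ha _ (hid x _ (p.pa_m _))).2.2, zero_add]
  have hpcl : ∀ x, ∀ y ∈ cc H a, ∀ z ∈ cc H a,
      p.pc (H.br (p.pc (H.br y z)) x) = p.pc (H.br (H.br y z) x) := by
    intro x y hy z hz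
    conv_rhs => rw [hsp y hy z hz, map_add, LinearMap.add_apply, map_add,
      (p.ha _ (hid' x _ (p.pa_m _))).2.2, zero_add]
  have horth : ∀ u ∈ a, ∀ y ∈ cc H a, H.Om u y = 0 := fun u hu y hy => (hy u hu).1
  have horth' : ∀ u ∈ a, ∀ y ∈ cc H a, H.Om y u = 0 := fun u hu y hy => by
    rw [H.oanti, horth u hu y hy, neg_zero]
  let pcc : V →ₗ[ℝ] cc H a := p.pc.codRestrict (cc H a) p.pc_m
  have hpcc : ∀ x, ((pcc x : cc H a) : V) = p.pc x := fun x => rfl
  let br : cc H a →ₗ[ℝ] cc H a →ₗ[ℝ] cc H a :=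
    (H.br.compl₁₂ (cc H a).subtype (cc H a).subtype).compr₂ pcc
  have hbr : ∀ x y : cc H a, ((br x y : cc H a) : V) = p.pc (H.br (x : V) (y : V)) :=
    fun x y => rfl
  let th : cc H a →ₗ[ℝ] cc H a →ₗ[ℝ] V :=
    (H.br.compl₁₂ (cc H a).subtype (cc H a).subtype).compr₂ p.pa
  have hth : ∀ x y : cc H a, th x y = p.pa (H.br (x : V) (y : V)) := fun x y => rfl
  let om : cc H a →ₗ[ℝ] cc H a →ₗ[ℝ] ℝ := H.Om.compl₁₂ (cc H a).subtype (cc H a).subtype
  have hom : ∀ x y : cc H a, om x y = H.Om (x : V) (y : V) := fun x y => rfl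
  let J : cc H a →ₗ[ℝ] cc H a := H.J.restrict hJc
  have hJJ : ∀ x : cc H a, ((J x : cc H a) : V) = H.J (x : V) := fun x => rfl
  have hompc : ∀ x y z : cc H a, H.Om (p.pc (H.br (x : V) (y : V))) (z : V)
      = H.Om (H.br (x : V) (y : V)) (z : V) := by
    intro x y z
    conv_rhs => rw [hsp x x.2 y y.2, map_add, LinearMap.add_apply,
      horth _ (p.pa_m _) z z.2, zero_add]
  let L : LA (cc H a) :=
    { br := br
      skew := by
        intro x
        apply Subtype.ext
        rw [hbr, H.skew, map_zero]; rfl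
      jac := by
        intro x y z
        apply Subtype.ext
        rw [Submodule.coe_add, hbr, hbr, hbr, hbr, hbr, hbr, hpcr _ _ y.2 _ z.2,
          hpcr _ _ x.2 _ z.2, hpcl _ _ x.2 _ y.2, H.jac, map_add] }
  let Hc : HS (cc H a) :=
    { toLA := L
      J := J
      JJ := by
        intro x
        apply Subtype.ext
        rw [hJJ, hJJ, H.JJ]; rfl
      nij := by
        intro x y
        apply Subtype.ext
        have h1 := (hJ x x.2 y y.2).2.2.2
        change ((br (J x) (J y) : cc H a) : V) - ((br x y : cc H a) : V)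
          = H.J (((br (J x) y : cc H a) : V) + ((br x (J y) : cc H a) : V))
        rw [hbr, hbr, hbr, hbr, hJJ, hJJ, ← map_add, h1]
      Om := om
      alt := by intro x; rw [hom, H.alt]
      closed := by
        intro x y z
        change H.Om (p.pc (H.br (x : V) (y : V))) (z : V)
          + H.Om (p.pc (H.br (y : V) (z : V))) (x : V)
          + H.Om (p.pc (H.br (z : V) (x : V))) (y : V) = 0
        rw [hompc, hompc, hompc, H.closed]
      tame := by
        intro x hx
        change 0 < H.Om (x : V) (H.J (x : V))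
        exact H.tame _ (fun h => hx (Subtype.ext h))
      unim := by
        intro x
        have h1 := hDGU V H a hid hiso p x x.2
        have h2 : p.pc ∘ₗ H.br (x : V) ∘ₗ p.pc
            = (cc H a).subtype ∘ₗ (br x ∘ₗ pcc) := by
          ext y
          rfl
        have h3 : br x ∘ₗ pcc ∘ₗ (cc H a).subtype = br x := by
          ext y
          have h4 : pcc (y : V) = y := Subtype.ext ((p.hc _ y.2).2.2)
          simp [h4]
        rw [h2, LinearMap.trace_comp_comm', LinearMap.comp_assoc, h3] at h1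
        exact h1 }
  refine ⟨{ c := cc H a, Hc := Hc, th := th, solv := ?_, iso := hiso, idl := hid, fr := hfr,
            ex := ?_, uniq := ?_, hJ := fun y => rfl, hOm := fun x y => rfl,
            orth := fun u hu y => horth u hu y y.2, hbr := fun x y => hsp x x.2 y y.2,
            tha := fun x y => p.pa_m _, thalt := ?_, thJ := ?_ }⟩
  · exact hDGS V H a hid hiso p L (fun x y => rfl)
  · intro x
    exact ⟨p.pa x, p.pa_m x, p.pj x, p.pj_m x, ⟨p.pc x, p.pc_m x⟩, p.sum x⟩
  · intro u hu w hw y h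
    have h1 := congrArg p.pa h
    have h2 := congrArg p.pj h
    have h3 := congrArg p.pc h
    simp only [map_add, map_zero, (p.ha u hu).1, (p.ha u hu).2.1, (p.ha u hu).2.2,
      (p.hj w hw).1, (p.hj w hw).2.1, (p.hj w hw).2.2, (p.hc _ y.2).1, (p.hc _ y.2).2.1,
      (p.hc _ y.2).2.2, add_zero, zero_add] at h1 h2 h3
    exact ⟨h1, h2, Subtype.ext h3⟩
  · intro x
    rw [hth, H.skew, map_zero]
  · intro x y
    exact (hJ x x.2 y y.2).2.1

end Pool.Agent.STT
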