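import Pool.Agent.STT.Stmts

set_option autoImplicit false

/-!
# MP_e0fc50_gt (Streets-Tian), squad STT: module DGJ
-/

namespace Pool.Agent.STT

namespace DGJAux

variable {V : Type} [AddCommGroup V] [Module ℝ V]

theorem mem_cc {H : HS V} {a : Submodule ℝ V} {y : V} :
    y ∈ cc H a ↔ ∀ u ∈ a, H.Om u y = 0 ∧ H.Om u (H.J y) = 0 := Iff.rfl

theorem J_mem {H : HS V} {a : Submodule ℝ V} {y : V} (hy : y ∈ cc H a) : H.J y ∈ cc H a := by
  intro u hu
  refine ⟨(hy u hu).2, ?_⟩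
  rw [H.JJ, map_neg, (hy u hu).1, neg_zero]

theorem Om_br {H : HS V} {a : Submodule ℝ V} (ha : ∀ x, ∀ u ∈ a, H.br x u ∈ a)
    {x y : V} (hx : x ∈ cc H a) (hy : y ∈ cc H a) {v : V} (hv : v ∈ a) :
    H.Om v (H.br x y) = 0 := by
  have h := H.closed x y v
  have h1 := (hx _ (ha y v hv)).1
  have h2 : H.br v x ∈ a := by
    rw [H.anti]
    exact a.neg_mem (ha x v hv)
  have h3 := (hy _ h2).1
  rw [h1, h3, add_zero, add_zero] at h
  rw [H.oanti, h, neg_zero]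

theorem pj_zero {H : HS V} {a : Submodule ℝ V} (hi : ∀ u ∈ a, ∀ w ∈ a, H.Om u w = 0)
    (p : DP H a) {z : V} (hz : ∀ v ∈ a, H.Om v z = 0) : p.pj z = 0 := by
  by_contra h0
  have h := hz _ (p.pj_m z)
  rw [p.sum z] at h
  have h1 := hi _ (p.pj_m z) _ (p.pa_m z)
  have h2 := (p.pc_m z _ (p.pj_m z)).1
  have h3 := H.tame _ h0
  have h4 : H.Om (p.pj z) (p.pa z + H.J (p.pj z) + p.pc z) = 0 := by
    rw [← p.sum z]; exact hz _ (p.pj_m z)
  rw [map_add, map_add, h1, h2, zero_add, add_zero] at h4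
  exact h3.ne' h4

end DGJAux

open DGJAux in
theorem dgj_proof : Stmt_DGJ := by
  intro V _ _ _ H a ha hi p
  refine ⟨fun y hy => J_mem hy, ?_⟩
  intro x hx y hy
  have hJx := J_mem hx
  have hJy := J_mem hy
  have hr : H.br (H.J x) y + H.br x (H.J y) ∈ cc H a := by
    intro u hu
    refine ⟨?_, ?_⟩
    · rw [map_add, Om_br ha hJx hy hu, Om_br ha hx hJy hu, add_zero]
    · rw [← H.nij, map_sub, Om_br ha hJx hJy hu, Om_br ha hx hy hu, sub_zero]
  obtain ⟨h1, h2, h3⟩ := p.hc _ hr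
  obtain ⟨h4, h5, h6⟩ := p.hc _ (J_mem hr)
  rw [← H.nij, map_sub, sub_eq_zero] at h4
  refine ⟨pj_zero hi p fun v hv => Om_br ha hx hy hv, h4, h1, ?_⟩
  rw [h3, ← map_sub, ← H.nij] at *
  exact h6

end Pool.Agent.STT
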