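import Pool.Agent.STT.Stmts
import Mathlib

set_option autoImplicit false

namespace Pool.Agent.STT

namespace DGPAux

section
variable {V : Type} [AddCommGroup V] [Module ℝ V]

/-- `x ↦ (v ↦ Om v x)` on `a` -/
noncomputable def AL (H : HS V) (a : Submodule ℝ V) : V →ₗ[ℝ] Module.Dual ℝ a :=
  (a.subtype.dualMap) ∘ₗ H.Om.flip

theorem AL_apply (H : HS V) (a : Submodule ℝ V) (x : V) (v : a) : AL H a x v = H.Om (v : V) x := rfl

noncomputable def PH (H : HS V) (a : Submodule ℝ V) : a →ₗ[ℝ] Module.Dual ℝ a :=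
  (AL H a) ∘ₗ H.J ∘ₗ a.subtype

theorem PH_apply (H : HS V) (a : Submodule ℝ V) (w : a) : PH H a w = AL H a (H.J (w : V)) := rfl

theorem PH_inj (H : HS V) (a : Submodule ℝ V) : Function.Injective (PH H a) := by
  rw [injective_iff_map_eq_zero]
  intro w hw
  by_contra hne
  have h1 : PH H a w w = 0 := by rw [hw]; rfl
  rw [PH_apply, AL_apply] at h1
  have h2 := H.tame (w : V) (fun h => hne (Subtype.ext h))
  linarith

end

section
variable {V : Type} [AddCommGroup V] [Module ℝ V] [FiniteDimensional ℝ V]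

noncomputable def EE (H : HS V) (a : Submodule ℝ V) : a ≃ₗ[ℝ] Module.Dual ℝ a :=
  LinearMap.linearEquivOfInjective (PH H a) (PH_inj H a) (Subspace.dual_finrank_eq).symm

theorem EE_apply (H : HS V) (a : Submodule ℝ V) (w : a) : EE H a w = AL H a (H.J (w : V)) := rfl

theorem EE_symm (H : HS V) (a : Submodule ℝ V) (w : a) : (EE H a).symm (AL H a (H.J (w : V))) = w := by
  rw [← EE_apply, LinearEquiv.symm_apply_apply]

theorem EE_symm' (H : HS V) (a : Submodule ℝ V) (f : Module.Dual ℝ a) (v : a) :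
    H.Om (v : V) (H.J (((EE H a).symm f : a) : V)) = f v := by
  have h : EE H a ((EE H a).symm f) = f := LinearEquiv.apply_symm_apply _ _
  rw [EE_apply] at h
  rw [← AL_apply, h]

theorem AL_zero (H : HS V) (a : Submodule ℝ V) (hi : ∀ u ∈ a, ∀ w ∈ a, H.Om u w = 0) (w : V)
    (hw : w ∈ a) : AL H a w = 0 := by
  ext v
  rw [AL_apply]
  exact hi v v.2 w hw

theorem cc_iff (H : HS V) (a : Submodule ℝ V) (y : V) :
    y ∈ cc H a ↔ AL H a (H.J y) = 0 ∧ AL H a y = 0 := by
  constructor
  · intro h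
    constructor
    · ext v; exact (h v v.2).2
    · ext v; exact (h v v.2).1
  · rintro ⟨h1, h2⟩ u hu
    constructor
    · have := LinearMap.congr_fun h2 ⟨u, hu⟩
      exact this
    · have := LinearMap.congr_fun h1 ⟨u, hu⟩
      exact this

noncomputable def qa (H : HS V) (a : Submodule ℝ V) : V →ₗ[ℝ] a :=
  ((EE H a).symm : Module.Dual ℝ a →ₗ[ℝ] a) ∘ₗ (AL H a) ∘ₗ H.J

noncomputable def qj (H : HS V) (a : Submodule ℝ V) : V →ₗ[ℝ] a :=
  ((EE H a).symm : Module.Dual ℝ a →ₗ[ℝ] a) ∘ₗ (AL H a)

theorem qa_apply (H : HS V) (a : Submodule ℝ V) (x : V) :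
    qa H a x = (EE H a).symm (AL H a (H.J x)) := rfl

theorem qj_apply (H : HS V) (a : Submodule ℝ V) (x : V) :
    qj H a x = (EE H a).symm (AL H a x) := rfl

noncomputable def mk (H : HS V) (a : Submodule ℝ V) (hi : ∀ u ∈ a, ∀ w ∈ a, H.Om u w = 0) :
    DP H a where
  pa := a.subtype ∘ₗ qa H a
  pj := a.subtype ∘ₗ qj H a
  pc := LinearMap.id - a.subtype ∘ₗ qa H a - H.J ∘ₗ a.subtype ∘ₗ qj H a
  pa_m := fun x => (qa H a x).2
  pj_m := fun x => (qj H a x).2
  pc_m := by
    intro x u hu
    have e1 : H.Om u (H.J ((qj H a x : a) : V)) = H.Om u x :=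
      EE_symm' H a (AL H a x) ⟨u, hu⟩
    have e2 : H.Om u (H.J ((qa H a x : a) : V)) = H.Om u (H.J x) :=
      EE_symm' H a (AL H a (H.J x)) ⟨u, hu⟩
    have e3 : H.Om u ((qa H a x : a) : V) = 0 := hi u hu _ (qa H a x).2
    have e4 : H.Om u ((qj H a x : a) : V) = 0 := hi u hu _ (qj H a x).2
    constructor
    · simp only [LinearMap.sub_apply, LinearMap.id_apply, LinearMap.comp_apply,
        Submodule.subtype_apply, map_sub]
      rw [e1, e3]; ring
    · simp only [LinearMap.sub_apply, LinearMap.id_apply, LinearMap.comp_apply,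
        Submodule.subtype_apply, map_sub, H.JJ, map_neg]
      rw [e2, e4]; ring
  sum := by
    intro x
    simp only [LinearMap.sub_apply, LinearMap.id_apply, LinearMap.comp_apply,
        Submodule.subtype_apply]
    abel
  ha := by
    intro u hu
    have e1 : qa H a u = ⟨u, hu⟩ := EE_symm H a ⟨u, hu⟩
    have e2 : qj H a u = 0 := by
      rw [qj_apply, AL_zero H a hi u hu, map_zero]
    refine ⟨?_, ?_, ?_⟩
    · simp only [LinearMap.comp_apply, Submodule.subtype_apply, e1]
    · simp only [LinearMap.comp_apply, Submodule.subtype_apply, e2, Submodule.coe_zero]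
    · simp only [LinearMap.sub_apply, LinearMap.id_apply, LinearMap.comp_apply,
        Submodule.subtype_apply, e1, e2, Submodule.coe_zero, map_zero]
      abel
  hj := by
    intro u hu
    have e1 : qj H a (H.J u) = ⟨u, hu⟩ := EE_symm H a ⟨u, hu⟩
    have e2 : qa H a (H.J u) = 0 := by
      rw [qa_apply, H.JJ, map_neg, AL_zero H a hi u hu, neg_zero, map_zero]
    refine ⟨?_, ?_, ?_⟩
    · simp only [LinearMap.comp_apply, Submodule.subtype_apply, e2, Submodule.coe_zero]
    · simp only [LinearMap.comp_apply, Submodule.subtype_apply, e1]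
    · simp only [LinearMap.sub_apply, LinearMap.id_apply, LinearMap.comp_apply,
        Submodule.subtype_apply, e1, e2, Submodule.coe_zero]
      abel
  hc := by
    intro y hy
    have h := (cc_iff H a y).1 hy
    have e1 : qa H a y = 0 := by rw [qa_apply, h.1, map_zero]
    have e2 : qj H a y = 0 := by rw [qj_apply, h.2, map_zero]
    refine ⟨?_, ?_, ?_⟩
    · simp only [LinearMap.comp_apply, Submodule.subtype_apply, e1, Submodule.coe_zero]
    · simp only [LinearMap.comp_apply, Submodule.subtype_apply, e2, Submodule.coe_zero]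
    · simp only [LinearMap.sub_apply, LinearMap.id_apply, LinearMap.comp_apply,
        Submodule.subtype_apply, e1, e2, Submodule.coe_zero, map_zero]
      abel

theorem fr (H : HS V) (a : Submodule ℝ V) (hi : ∀ u ∈ a, ∀ w ∈ a, H.Om u w = 0) :
    Module.finrank ℝ (cc H a) + 2 * Module.finrank ℝ a = Module.finrank ℝ V := by
  have hker : LinearMap.ker ((qa H a).prod (qj H a)) = cc H a := by
    ext y
    have hp : ((qa H a).prod (qj H a)) y = (qa H a y, qj H a y) := rfl
    rw [LinearMap.mem_ker, hp, Prod.mk_eq_zero, cc_iff, qa_apply,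
      qj_apply, LinearEquiv.map_eq_zero_iff, LinearEquiv.map_eq_zero_iff]
  have hrange : LinearMap.range ((qa H a).prod (qj H a)) = ⊤ := by
    rw [LinearMap.range_eq_top]
    rintro ⟨u, w⟩
    refine ⟨(u : V) + H.J (w : V), ?_⟩
    have a1 : qa H a (u : V) = u := EE_symm H a u
    have a2 : qj H a (u : V) = 0 := by
      rw [qj_apply, AL_zero H a hi u u.2, map_zero]
    have a3 : qj H a (H.J (w : V)) = w := EE_symm H a w
    have a4 : qa H a (H.J (w : V)) = 0 := by
      rw [qa_apply, H.JJ, map_neg, AL_zero H a hi w w.2, neg_zero, map_zero]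
    have hp : ((qa H a).prod (qj H a)) ((u : V) + H.J (w : V))
        = (qa H a ((u : V) + H.J (w : V)), qj H a ((u : V) + H.J (w : V))) := rfl
    rw [hp, map_add, map_add, a1, a2, a3, a4, add_zero, zero_add]
  have h := LinearMap.finrank_range_add_finrank_ker ((qa H a).prod (qj H a))
  rw [hker, hrange, finrank_top, Module.finrank_prod] at h
  omega

end

end DGPAux

theorem dgp_proof : Stmt_DGP := by
  intro V _ _ _ H a hi
  exact ⟨⟨DGPAux.mk H a hi⟩, DGPAux.fr H a hi⟩

end Pool.Agent.STT
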