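import Pool.Agent.STT.Stmts

set_option autoImplicit false

/-!
# MP_e0fc50_gt (Streets-Tian), squad STT: module DGS
-/

namespace Pool.Agent.STT

namespace DGSAux

variable {V : Type} [AddCommGroup V] [Module ℝ V]

theorem lift [FiniteDimensional ℝ V] (hDGJ : Stmt_DGJ) {H : HS V} {a : Submodule ℝ V}
    (ha : ∀ x, ∀ u ∈ a, H.br x u ∈ a)
    (hi : ∀ u ∈ a, ∀ w ∈ a, H.Om u w = 0) (p : DP H a) (L : LA (cc H a))
    (hL : ∀ x y : cc H a, ((L.br x y : cc H a) : V) = p.pc (H.br (x : V) (y : V))) (n : ℕ) :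
    ∀ y ∈ L.der n, ∃ u ∈ a, (y : V) + u ∈ H.toLA.der n := by
  induction n with
  | zero => exact fun y _ => ⟨0, a.zero_mem, Submodule.mem_top⟩
  | succ n ih =>
    intro y hy
    induction hy using Submodule.span_induction with
    | mem z hz =>
      obtain ⟨x, hx, y, hy, rfl⟩ := hz
      obtain ⟨u, hu, hxu⟩ := ih x hx
      obtain ⟨w, hw, hyw⟩ := ih y hy
      have h1 : H.br u (y : V) ∈ a := by
        rw [H.anti]; exact a.neg_mem (ha _ _ hu)
      refine ⟨p.pa (H.br (x : V) (y : V)) + H.br (x : V) w + (H.br u (y : V) + H.br u w),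
        a.add_mem (a.add_mem (p.pa_m _) (ha _ _ hw)) (a.add_mem h1 (ha _ _ hw)), ?_⟩
      refine Submodule.subset_span ⟨_, hxu, _, hyw, ?_⟩
      have h2 := p.sum (H.br (x : V) (y : V))
      have h3 := ((hDGJ V H a ha hi p).2 x x.2 y y.2).1
      rw [h3, map_zero, add_zero] at h2
      rw [hL, map_add, map_add, LinearMap.add_apply, LinearMap.add_apply]
      nth_rewrite 1 [h2]
      abel
    | zero => exact ⟨0, a.zero_mem, by simp⟩
    | add x y _ _ hx hy =>
      obtain ⟨u, hu, hxu⟩ := hx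
      obtain ⟨w, hw, hyw⟩ := hy
      refine ⟨u + w, a.add_mem hu hw, ?_⟩
      have := Submodule.add_mem _ hxu hyw
      rw [Submodule.coe_add]
      rw [show (x : V) + (y : V) + (u + w) = (x : V) + u + ((y : V) + w) by abel]
      exact this
    | smul t x _ hx =>
      obtain ⟨u, hu, hxu⟩ := hx
      refine ⟨t • u, a.smul_mem t hu, ?_⟩
      rw [Submodule.coe_smul, ← smul_add]
      exact Submodule.smul_mem _ t hxu

end DGSAux

open DGSAux in
theorem dgs_proof (hDGJ : Stmt_DGJ) : Stmt_DGS := by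
  intro V _ _ _ H a ha hi p L hL hsol
  obtain ⟨n, hn⟩ := hsol
  refine ⟨n, ?_⟩
  rw [Submodule.eq_bot_iff]
  intro y hy
  obtain ⟨u, hu, hyu⟩ := lift hDGJ ha hi p L hL n y hy
  rw [hn, Submodule.mem_bot] at hyu
  have h1 : (y : V) ∈ a := by
    rw [eq_neg_of_add_eq_zero_left hyu]
    exact a.neg_mem hu
  by_contra h0
  have h2 : (y : V) ≠ 0 := fun h => h0 (Subtype.ext h)
  exact (H.tame _ h2).ne' (y.2 _ h1).2

end Pool.Agent.STT
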