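import Pool.Agent.STT.Stmts

/-!
# Squad STT, module DGU
-/

set_option autoImplicit false

namespace Pool.Agent.STT

namespace DGUAux

/-- for a form with `b w w ≠ 0` the adjoint relation gives equal traces up to sign -/
theorem trace_neg_adj {W : Type} [AddCommGroup W] [Module ℝ W] [FiniteDimensional ℝ W]
    (b : W →ₗ[ℝ] W →ₗ[ℝ] ℝ) (hb : ∀ w, w ≠ 0 → 0 < b w w) (X Y : W →ₗ[ℝ] W)
    (h : ∀ w u, b (X w) u = - b w (Y u)) :
    LinearMap.trace ℝ W X + LinearMap.trace ℝ W Y = 0 := by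
  have hinj : Function.Injective b := by
    rw [← LinearMap.ker_eq_bot, LinearMap.ker_eq_bot']
    intro w hw
    by_contra hne
    have h1 := hb w hne
    rw [hw] at h1
    simp at h1
  have hfin : Module.finrank ℝ W = Module.finrank ℝ (Module.Dual ℝ W) :=
    (Subspace.dual_finrank_eq).symm
  let e : W ≃ₗ[ℝ] Module.Dual ℝ W := LinearEquiv.ofInjectiveOfFinrankEq b hinj hfin
  have he : ∀ w u, e w u = b w u := by
    intro w u
    rfl
  let Z : Module.Dual ℝ W →ₗ[ℝ] Module.Dual ℝ W := Module.Dual.transpose (R := ℝ) Y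
  have hZ : ∀ f u, Z f u = f (Y u) := fun f u => rfl
  have hconj : e.conj X + Z = 0 := by
    ext f u
    rw [LinearMap.add_apply, LinearMap.add_apply, LinearEquiv.conj_apply_apply, he, h, hZ]
    have h2 : e (e.symm f) = f := e.apply_symm_apply f
    rw [← he, h2]
    simp
  have h3 : LinearMap.trace ℝ (Module.Dual ℝ W) (e.conj X) = LinearMap.trace ℝ W X :=
    LinearMap.trace_conj' X e
  have h6 : LinearMap.trace ℝ (Module.Dual ℝ W) Z = LinearMap.trace ℝ W Y :=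
    LinearMap.trace_transpose' Y
  have h7 : LinearMap.trace ℝ (Module.Dual ℝ W) (e.conj X + Z) = 0 := by
    rw [hconj, LinearMap.map_zero]
  rw [LinearMap.map_add, h3, h6] at h7
  exact h7

end DGUAux

open DGUAux in
theorem dgu_proof : Stmt_DGU := by
  intro V _ _ _ H a hid hiso p x hx
  have hT : ∀ u ∈ a, H.br x u ∈ a := fun u hu => hid x u hu
  -- traces of the three blocks
  let T : V →ₗ[ℝ] V := H.br x
  have hsum : T = T ∘ₗ p.pa + T ∘ₗ (H.J ∘ₗ p.pj) + T ∘ₗ p.pc := by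
    ext z
    simp only [LinearMap.add_apply, LinearMap.comp_apply]
    rw [← map_add, ← map_add, ← p.sum z]
  have htr : LinearMap.trace ℝ V (T ∘ₗ p.pa) + LinearMap.trace ℝ V (T ∘ₗ (H.J ∘ₗ p.pj))
      + LinearMap.trace ℝ V (T ∘ₗ p.pc) = 0 := by
    rw [← map_add, ← map_add, ← hsum]
    exact H.unim x
  have hpc : p.pc ∘ₗ p.pc = p.pc := by
    ext z
    exact (p.hc _ (p.pc_m z)).2.2
  have hJc : ∀ z ∈ cc H a, H.J z ∈ cc H a := by
    intro z hz u hu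
    refine ⟨(hz u hu).2, ?_⟩
    rw [H.JJ, map_neg, (hz u hu).1, neg_zero]
  have hpjJ : ∀ z, p.pj (H.J z) = p.pa z := by
    intro z
    conv_lhs => rw [p.sum z]
    rw [map_add, map_add, map_add, map_add, H.JJ, map_neg]
    rw [(p.hj _ (p.pa_m z)).2.1, (p.ha _ (p.pj_m z)).2.1, (p.hc _ (hJc _ (p.pc_m z))).2.1]
    simp
  have t3 : LinearMap.trace ℝ V (p.pc ∘ₗ T ∘ₗ p.pc) = LinearMap.trace ℝ V (T ∘ₗ p.pc) := by
    rw [LinearMap.trace_comp_comm', LinearMap.comp_assoc, hpc]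
  -- the block of `J a`
  have hJp : (H.J ∘ₗ p.pj) ∘ₗ (H.J ∘ₗ p.pj) = H.J ∘ₗ p.pj := by
    ext z
    simp only [LinearMap.comp_apply]
    rw [hpjJ, (p.ha _ (p.pj_m z)).1]
  let ι : a →ₗ[ℝ] V := a.subtype
  let π : V →ₗ[ℝ] a := p.pa.codRestrict a p.pa_m
  let ρ : V →ₗ[ℝ] a := p.pj.codRestrict a p.pj_m
  have t1 : LinearMap.trace ℝ V (T ∘ₗ p.pa) = LinearMap.trace ℝ a (π ∘ₗ (T ∘ₗ ι)) := by
    have h1 : T ∘ₗ p.pa = (T ∘ₗ ι) ∘ₗ π := by
      ext z; rfl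
    rw [h1, LinearMap.trace_comp_comm']
  have t2 : LinearMap.trace ℝ V (T ∘ₗ (H.J ∘ₗ p.pj))
      = LinearMap.trace ℝ a (ρ ∘ₗ (T ∘ₗ (H.J ∘ₗ ι))) := by
    have h1 : T ∘ₗ (H.J ∘ₗ p.pj) = (T ∘ₗ (H.J ∘ₗ ι)) ∘ₗ ρ := by
      ext z; rfl
    rw [h1, LinearMap.trace_comp_comm']
  let b : a →ₗ[ℝ] a →ₗ[ℝ] ℝ := (H.Om.compl₁₂ ι (H.J ∘ₗ ι))
  have hb : ∀ w u : a, b w u = H.Om (w : V) (H.J (u : V)) := fun w u => rfl
  have key := trace_neg_adj b (by
    intro w hw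
    rw [hb]
    exact H.tame (w : V) (fun h => hw (Subtype.ext h))) (π ∘ₗ (T ∘ₗ ι)) (ρ ∘ₗ (T ∘ₗ (H.J ∘ₗ ι))) (by
    intro w u
    rw [hb, hb]
    have hX : (((π ∘ₗ (T ∘ₗ ι)) w : a) : V) = H.br x (w : V) := by
      show p.pa (H.br x (w : V)) = _
      exact (p.ha _ (hT _ w.2)).1
    have hY : (((ρ ∘ₗ (T ∘ₗ (H.J ∘ₗ ι))) u : a) : V) = p.pj (H.br x (H.J (u : V))) := rfl
    rw [hX, hY]
    have hcl := H.closed x (w : V) (H.J (u : V))
    have m1 : H.Om (H.br (w : V) (H.J (u : V))) x = 0 := by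
      rw [H.toLA.anti, map_neg, LinearMap.neg_apply]
      rw [(hx _ (hid (H.J (u : V)) (w : V) w.2)).1, neg_zero]
    have m2 : H.Om (H.br (H.J (u : V)) x) (w : V) = H.Om (w : V) (H.br x (H.J (u : V))) := by
      rw [H.toLA.anti (H.J (u : V)) x, map_neg, LinearMap.neg_apply, H.oanti, neg_neg]
    have m3 : H.Om (w : V) (H.br x (H.J (u : V)))
        = H.Om (w : V) (H.J (p.pj (H.br x (H.J (u : V))))) := by
      conv_lhs => rw [p.sum (H.br x (H.J (u : V)))]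
      rw [map_add, map_add, hiso _ w.2 _ (p.pa_m _), (p.pc_m (H.br x (H.J (u : V))) _ w.2).1]
      ring
    rw [m1, m2, m3] at hcl
    linarith)
  show LinearMap.trace ℝ V (p.pc ∘ₗ T ∘ₗ p.pc) = 0
  rw [t3]
  rw [t1, t2] at htr
  linarith

end Pool.Agent.STT
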