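import Mathlib

/-!
# MP_e0fc50_gt (Streets-Tian): definitions for squad STT

Real Lie algebras with a complex structure `J` and a closed 2-form `Om` taming `J`.
-/

set_option autoImplicit false

namespace Pool.Agent.STT

/-- a real Lie algebra, the bracket as a bilinear map -/
structure LA (V : Type) [AddCommGroup V] [Module ℝ V] where
  br : V →ₗ[ℝ] V →ₗ[ℝ] V
  skew : ∀ x, br x x = 0
  jac : ∀ x y z, br x (br y z) = br (br x y) z + br y (br x z)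

section
variable {V : Type} [AddCommGroup V] [Module ℝ V]

/-- the derived series -/
def LA.der (L : LA V) : ℕ → Submodule ℝ V
  | 0 => ⊤
  | n + 1 => Submodule.span ℝ {z | ∃ x ∈ L.der n, ∃ y ∈ L.der n, L.br x y = z}

def LA.Solv (L : LA V) : Prop := ∃ n, L.der n = ⊥

theorem LA.anti (L : LA V) (x y : V) : L.br x y = - L.br y x := by
  have h := L.skew (x + y)
  simp only [map_add, LinearMap.add_apply, L.skew, zero_add, add_zero] at h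
  exact eq_neg_of_add_eq_zero_left (by rw [add_comm]; exact h)

end

/-- unimodular Hermitian-symplectic Lie algebra: complex structure `J`, closed 2-form `Om` taming `J` -/
structure HS (V : Type) [AddCommGroup V] [Module ℝ V] extends LA V where
  J : V →ₗ[ℝ] V
  JJ : ∀ x, J (J x) = -x
  nij : ∀ x y, br (J x) (J y) - br x y = J (br (J x) y + br x (J y))
  Om : V →ₗ[ℝ] V →ₗ[ℝ] ℝ
  alt : ∀ x, Om x x = 0
  closed : ∀ x y z, Om (br x y) z + Om (br y z) x + Om (br z x) y = 0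
  tame : ∀ x, x ≠ 0 → 0 < Om x (J x)
  unim : ∀ x, LinearMap.trace ℝ V (br x) = 0

section
variable {V : Type} [AddCommGroup V] [Module ℝ V]

theorem HS.oanti (H : HS V) (x y : V) : H.Om x y = - H.Om y x := by
  have h := H.alt (x + y)
  simp only [map_add, LinearMap.add_apply, H.alt, zero_add, add_zero] at h
  linarith

theorem HS.jinj (H : HS V) {x : V} (h : H.J x = 0) : x = 0 := by
  have := H.JJ x
  rw [h, map_zero] at this
  exact neg_eq_zero.mp this.symm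

/-- twice the metric `h(x,y) = (Om(x,Jy) + Om(y,Jx))/2` -/
noncomputable def HS.g (H : HS V) : V →ₗ[ℝ] V →ₗ[ℝ] ℝ := H.Om.compl₂ H.J + (H.Om.compl₂ H.J).flip

theorem HS.g_apply (H : HS V) (x y : V) : H.g x y = H.Om x (H.J y) + H.Om y (H.J x) := rfl

theorem HS.g_symm (H : HS V) (x y : V) : H.g x y = H.g y x := by
  rw [H.g_apply, H.g_apply]; ring

theorem HS.g_pos (H : HS V) (x : V) (h : x ≠ 0) : 0 < H.g x x := by
  rw [H.g_apply]; have := H.tame x h; linarith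

theorem HS.g_J (H : HS V) (x y : V) : H.g (H.J x) (H.J y) = H.g x y := by
  rw [H.g_apply, H.g_apply, H.JJ, H.JJ, map_neg, map_neg, H.oanti (H.J x) y, H.oanti (H.J y) x]; ring

/-- flat Kaehler form of a Lie algebra with complex structure -/
def IsK (L : LA V) (J : V →ₗ[ℝ] V) : Prop :=
  ∃ A S : Submodule ℝ V, IsCompl A S ∧ (∀ x ∈ A, J x ∈ A) ∧ (∀ x ∈ S, J x ∈ S) ∧
    (∀ x ∈ A, ∀ y ∈ A, L.br x y = 0) ∧ (∀ x ∈ S, ∀ y ∈ S, L.br x y = 0) ∧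
    (∀ s ∈ S, ∀ x ∈ A, L.br s x ∈ A) ∧ (∀ s ∈ S, ∀ x ∈ A, L.br s (J x) = J (L.br s x)) ∧
    (∀ x ∈ A, (∀ s ∈ S, L.br s x = 0) → x = 0)

/-- symmetric positive definite bilinear form -/
structure PD {W : Type} [AddCommGroup W] [Module ℝ W] (b : W →ₗ[ℝ] W →ₗ[ℝ] ℝ) : Prop where
  symm : ∀ x y, b x y = b y x
  pos : ∀ x, x ≠ 0 → 0 < b x x

/-- normal form of `IsK` : `PA` the projection onto `A` along `S`, `E x y = [x_S, y_A]`,
`ip` the inner product equal to `g/2` on `A` and on `S`, with `A` orthogonal to `S` -/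
structure KF (H : HS V) where
  PA : V →ₗ[ℝ] V
  E : V →ₗ[ℝ] V →ₗ[ℝ] V
  ip : V →ₗ[ℝ] V →ₗ[ℝ] ℝ
  pp : ∀ x, PA (PA x) = PA x
  pJ : ∀ x, PA (H.J x) = H.J (PA x)
  breq : ∀ x y, H.br x y = E x y - E y x
  EPl : ∀ x y, E (PA x) y = 0
  EPr : ∀ x y, E x (PA y) = E x y
  PE : ∀ x y, PA (E x y) = E x y
  EJ : ∀ x y, E x (H.J y) = H.J (E x y)
  Ec : ∀ x y z, E x (E y z) = E y (E x z)
  ipd : PD ip
  ipJ : ∀ x y, ip (H.J x) (H.J y) = ip x y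
  ipE : ∀ x y z, ip (E x y) z = - ip y (E x z)
  ipP : ∀ x y, ip (PA x) y = ip x (PA y)
  ipA : ∀ x y, PA x = x → PA y = y → 2 * ip x y = H.g x y
  ipS : ∀ x y, PA x = 0 → PA y = 0 → 2 * ip x y = H.g x y
  ker : ∀ y, (∀ x, E x y = 0) → PA y = 0

/-- data on the reduction `c` of a one-dimensional ideal `<v>` with `Om v (J v) = 1`:
`[y,v] = lam y v`, `[Jv,v] = ell v`, `[x,y] = th x y v + [x,y]_c`, `tau y = Om y (J v)`,
`[Jv,y] = lam y Jv + 2 lam (Jy) v + D y` -/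
structure Red1 (H : HS V) where
  lam : V →ₗ[ℝ] ℝ
  ell : ℝ
  D : V →ₗ[ℝ] V
  th : V →ₗ[ℝ] V →ₗ[ℝ] ℝ
  tau : V →ₗ[ℝ] ℝ
  lbr : ∀ x y, lam (H.br x y) = 0
  DJ : ∀ y, D (H.J y) = H.J (D y)
  thalt : ∀ x, th x x = 0
  thJ : ∀ x y, th (H.J x) (H.J y) = th x y
  thc : ∀ x y z, lam x * th y z + lam y * th z x + lam z * th x y
    + th x (H.br y z) + th y (H.br z x) + th z (H.br x y) = 0
  e1 : ∀ x y, D (H.br x y) = lam x • D y - lam y • D x + H.br (D x) y + H.br x (D y)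
  e2 : ∀ x y, H.Om (D x) y + H.Om x (D y) - lam x * tau y + lam y * tau x + th x y
    + tau (H.br x y) = 0
  e3 : ∀ x y, th (D x) y + th x (D y) = ell * th x y + 2 * lam (H.J (H.br x y))
    - 4 * lam x * lam (H.J y) + 4 * lam (H.J x) * lam y
  tr : ell + LinearMap.trace ℝ V D = 0
  pos : ∀ b, 0 < 1 + tau (H.J b) + H.Om b (H.J b)

/-- data on the reduction `c` of a two-dimensional isotropic ideal with complex weight `nu + i mu`;
`p, q = R^* p` a basis of the ideal, `tp x y = Om (th x y) (J p)`, `ap y = Om y (J p)`,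
`Tp = Om p (J p)`, and the same for `q` -/
structure Red2 (H : HS V) where
  nu : V →ₗ[ℝ] ℝ
  mu : V →ₗ[ℝ] ℝ
  Dp : V →ₗ[ℝ] V
  Dq : V →ₗ[ℝ] V
  tp : V →ₗ[ℝ] V →ₗ[ℝ] ℝ
  tq : V →ₗ[ℝ] V →ₗ[ℝ] ℝ
  ap : V →ₗ[ℝ] ℝ
  aq : V →ₗ[ℝ] ℝ
  Tp : ℝ
  Tq : ℝ
  mu0 : mu ≠ 0
  Tp0 : 0 < Tp
  Tq0 : 0 < Tq
  nubr : ∀ x y, nu (H.br x y) = 0
  mubr : ∀ x y, mu (H.br x y) = 0
  DpJ : ∀ y, Dp (H.J y) = H.J (Dp y)
  DqJ : ∀ y, Dq (H.J y) = H.J (Dq y)
  tpalt : ∀ x, tp x x = 0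
  tqalt : ∀ x, tq x x = 0
  tpJ : ∀ x y, tp (H.J x) (H.J y) = tp x y
  tqJ : ∀ x y, tq (H.J x) (H.J y) = tq x y
  e1p : ∀ x y, Dp (H.br x y) = nu x • Dp y - mu x • Dq y - (nu y • Dp x - mu y • Dq x)
    + H.br (Dp x) y + H.br x (Dp y)
  e1q : ∀ x y, Dq (H.br x y) = nu x • Dq y + mu x • Dp y - (nu y • Dq x + mu y • Dp x)
    + H.br (Dq x) y + H.br x (Dq y)
  e2p : ∀ x y, H.Om (Dp x) y + H.Om x (Dp y) - (nu x * ap y - mu x * aq y)
    + (nu y * ap x - mu y * aq x) + tp x y + ap (H.br x y) = 0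
  e2q : ∀ x y, H.Om (Dq x) y + H.Om x (Dq y) - (nu x * aq y + mu x * ap y)
    + (nu y * aq x + mu y * ap x) + tq x y + aq (H.br x y) = 0
  e3 : ∀ x y, tp (Dp x) y + tp x (Dp y) + (tq (Dq x) y + tq x (Dq y))
    = (Tp + Tq) * (2 * nu (H.J (H.br x y)) - 4 * nu x * nu (H.J y) + 4 * nu (H.J x) * nu y)
  comm : ∀ x, Dp (Dq x) = Dq (Dp x)
  trp : LinearMap.trace ℝ V Dp = 0
  trq : LinearMap.trace ℝ V Dq = 0
  posp : ∀ b, 0 < Tp + ap (H.J b) + H.Om b (H.J b)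
  posq : ∀ b, 0 < Tq + aq (H.J b) + H.Om b (H.J b)

/-- the subspace `c = a^perp ∩ J a^perp` -/
def cc (H : HS V) (a : Submodule ℝ V) : Submodule ℝ V where
  carrier := {y | ∀ u ∈ a, H.Om u y = 0 ∧ H.Om u (H.J y) = 0}
  zero_mem' := by intro u _; simp
  add_mem' := by
    intro x y hx hy u hu
    have h1 := hx u hu
    have h2 := hy u hu
    simp [map_add, h1.1, h1.2, h2.1, h2.2]
  smul_mem' := by
    intro t x hx u hu
    have h1 := hx u hu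
    simp [h1.1, h1.2]

/-- the projections of the decomposition `V = a + J a + c` -/
structure DP (H : HS V) (a : Submodule ℝ V) where
  pa : V →ₗ[ℝ] V
  pj : V →ₗ[ℝ] V
  pc : V →ₗ[ℝ] V
  pa_m : ∀ x, pa x ∈ a
  pj_m : ∀ x, pj x ∈ a
  pc_m : ∀ x, pc x ∈ cc H a
  sum : ∀ x, x = pa x + H.J (pj x) + pc x
  ha : ∀ u ∈ a, pa u = u ∧ pj u = 0 ∧ pc u = 0
  hj : ∀ u ∈ a, pa (H.J u) = 0 ∧ pj (H.J u) = u ∧ pc (H.J u) = 0
  hc : ∀ y ∈ cc H a, pa y = 0 ∧ pj y = 0 ∧ pc y = y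

/-- reduction with respect to an isotropic abelian ideal `a`: `V = a + J a + c` -/
structure DecG (H : HS V) (a : Submodule ℝ V) where
  c : Submodule ℝ V
  Hc : HS c
  th : c →ₗ[ℝ] c →ₗ[ℝ] V
  solv : H.toLA.Solv → Hc.toLA.Solv
  iso : ∀ u ∈ a, ∀ w ∈ a, H.Om u w = 0
  idl : ∀ x, ∀ u ∈ a, H.br x u ∈ a
  fr : Module.finrank ℝ c + 2 * Module.finrank ℝ a = Module.finrank ℝ V
  ex : ∀ x : V, ∃ u ∈ a, ∃ w ∈ a, ∃ y : c, x = u + H.J w + (y : V)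
  uniq : ∀ u ∈ a, ∀ w ∈ a, ∀ y : c, u + H.J w + (y : V) = 0 → u = 0 ∧ w = 0 ∧ y = 0
  hJ : ∀ y : c, ((Hc.J y : c) : V) = H.J (y : V)
  hOm : ∀ x y : c, Hc.Om x y = H.Om (x : V) (y : V)
  orth : ∀ u ∈ a, ∀ y : c, H.Om u (y : V) = 0
  hbr : ∀ x y : c, H.br (x : V) (y : V) = th x y + ((Hc.br x y : c) : V)
  tha : ∀ x y : c, th x y ∈ a
  thalt : ∀ x, th x x = 0
  thJ : ∀ x y, th (Hc.J x) (Hc.J y) = th x y

/-- weight data of a two-dimensional ideal of complex type -/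
structure Pair (H : HS V) where
  u1 : V
  u2 : V
  nu : V →ₗ[ℝ] ℝ
  mu : V →ₗ[ℝ] ℝ
  ind : LinearIndependent ℝ ![u1, u2]
  mu0 : mu ≠ 0
  h1 : ∀ x, H.br x u1 = nu x • u1 - mu x • u2
  h2 : ∀ x, H.br x u2 = nu x • u2 + mu x • u1

/-- the plane of a pair -/
def Pair.pl {H : HS V} (P : Pair H) : Submodule ℝ V := Submodule.span ℝ {P.u1, P.u2}

/-- decomposition for a line `<v>` -/
structure Dec1 (H : HS V) (v : V) (lam0 : V →ₗ[ℝ] ℝ) where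
  G : DecG H (Submodule.span ℝ {v})
  D : G.c →ₗ[ℝ] G.c
  brv : ∀ y : G.c, H.br (H.J v) (y : V) = lam0 (y : V) • H.J v + (2 * lam0 (H.J (y : V))) • v
    + ((D y : G.c) : V)

/-- decomposition for a pair -/
structure Dec2 (H : HS V) (P : Pair H) where
  G : DecG H P.pl
  p : V
  q : V
  pm : p ∈ P.pl
  qm : q ∈ P.pl
  sp : Submodule.span ℝ {p, q} = P.pl
  Dp : G.c →ₗ[ℝ] G.c
  Dq : G.c →ₗ[ℝ] G.c
  adp : ∀ x : V, ∀ w ∈ P.pl, H.Om (H.br x w) (H.J p)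
    = P.nu x * H.Om w (H.J p) - P.mu x * H.Om w (H.J q)
  adq : ∀ x : V, ∀ w ∈ P.pl, H.Om (H.br x w) (H.J q)
    = P.nu x * H.Om w (H.J q) + P.mu x * H.Om w (H.J p)
  brp : ∀ y : G.c, H.br (H.J p) (y : V) = H.J (P.nu (y : V) • p - P.mu (y : V) • q)
    + (H.br (H.J (y : V)) p + P.nu (H.J (y : V)) • p - P.mu (H.J (y : V)) • q) + ((Dp y : G.c) : V)
  brq : ∀ y : G.c, H.br (H.J q) (y : V) = H.J (P.nu (y : V) • q + P.mu (y : V) • p)
    + (H.br (H.J (y : V)) q + P.nu (H.J (y : V)) • q + P.mu (H.J (y : V)) • p) + ((Dq y : G.c) : V)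

/-- a good ideal: `J`-invariant abelian ideal on which the algebra acts complex linearly, through an
abelian quotient -/
structure Good (H : HS V) (V0 : Submodule ℝ V) : Prop where
  j : ∀ x ∈ V0, H.J x ∈ V0
  i : ∀ x, ∀ u ∈ V0, H.br x u ∈ V0
  ab : ∀ u ∈ V0, ∀ w ∈ V0, H.br u w = 0
  jl : ∀ x, ∀ u ∈ V0, H.br x (H.J u) = H.J (H.br x u)
  tr : ∀ x y, ∀ u ∈ V0, H.br (H.br x y) u = 0

/-- the family of symplectic rotation ideals used when there is no isotropic minimal ideal -/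
structure QA (H : HS V) (A : Submodule ℝ V) : Prop where
  i : ∀ x, ∀ u ∈ A, H.br x u ∈ A
  ab : ∀ u ∈ A, ∀ w ∈ A, H.br u w = 0
  nd : ∀ u ∈ A, (∀ w ∈ A, H.Om u w = 0) → u = 0
  k : ∃ k : V →ₗ[ℝ] V →ₗ[ℝ] ℝ, (∀ x y, k x y = k y x) ∧ (∀ u ∈ A, u ≠ 0 → 0 < k u u) ∧
    (∀ x, ∀ u ∈ A, ∀ w ∈ A, k (H.br x u) w = - k u (H.br x w))
  co : ∀ x y, ∀ u ∈ A, H.br x (H.br y u) = H.br y (H.br x u)

/-- no one-dimensional ideal -/
def NoLine (H : HS V) : Prop := ∀ (v : V) (lam : V →ₗ[ℝ] ℝ), (∀ x, H.br x v = lam x • v) → v = 0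

/-- no isotropic ideal of complex type -/
def NoIso (H : HS V) : Prop := ∀ P : Pair H, H.Om P.u1 P.u2 ≠ 0

/-- induction hypothesis for subspaces of `V` -/
def IH (V : Type) [AddCommGroup V] [Module ℝ V] : Prop :=
  ∀ (W : Submodule ℝ V) (HW : HS W), Module.finrank ℝ W < Module.finrank ℝ V →
    HW.toLA.Solv → IsK HW.toLA HW.J

end

end Pool.Agent.STT
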