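import Pool.Agent.STT.Stmts

set_option autoImplicit false

namespace Pool.Agent.STT

theorem f1a_proof (hSPN : Stmt_SPN) (hINV : Stmt_INV) (hSYL : Stmt_SYL) : Stmt_F1A := by
  intro V _ _ _ H K R hlam
  have hE0 : ∀ x s, K.PA s = 0 → K.E x s = 0 := fun x s hs => by rw [← K.EPr, hs, map_zero]
  have hbrS : ∀ s y, K.PA s = 0 → H.br s y = K.E s y := fun s y hs => by
    rw [K.breq, hE0 y s hs, sub_zero]
  have hEbr : ∀ x y, K.E x y = H.br (x - K.PA x) (K.PA y) := by
    intro x y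
    rw [hbrS _ _ (by rw [map_sub, K.pp, sub_self]), K.EPr, map_sub, LinearMap.sub_apply, K.EPl,
      sub_zero]
  have hlA : ∀ y, R.lam (K.PA y) = 0 := by
    intro y
    have h := hSPN V H K (LinearMap.ker R.lam) (fun x z => by
      rw [LinearMap.mem_ker, hEbr]; exact R.lbr _ _) y
    exact h
  obtain ⟨x, hx⟩ : ∃ x, R.lam x ≠ 0 := by
    by_contra h
    push Not at h
    exact hlam (LinearMap.ext h)
  obtain ⟨x0, hx0⟩ : ∃ x0, x0 = x - K.PA x := ⟨_, rfl⟩
  have hS : K.PA x0 = 0 := by rw [hx0, map_sub, K.pp, sub_self]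
  have hl0 : R.lam x0 ≠ 0 := by rw [hx0, map_sub, hlA, sub_zero]; exact hx
  obtain ⟨T, hT⟩ := hINV V K.ip K.ipd (K.E x0) (R.lam x0) hl0 (K.ipE x0) (R.D x0)
  have key : R.D - (H.br.flip T + R.lam.smulRight T) = 0 := by
    refine hSYL V V K.ip K.ip K.ipd K.ipd (K.E x0) (K.E x0) (R.lam x0) _ hl0 (K.ipE x0) (K.ipE x0) ?_
    intro y
    simp only [LinearMap.sub_apply, LinearMap.add_apply, LinearMap.flip_apply,
      LinearMap.smulRight_apply]
    rw [← hbrS x0 y hS, ← hbrS x0 _ hS, R.e1, R.lbr, ← hT, ← hbrS x0 T hS]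
    have hj := H.jac x0 y T
    have ha := H.anti (H.br x0 T) y
    have hb := H.anti T y
    simp only [map_add, map_sub, map_smul, LinearMap.add_apply, LinearMap.smul_apply, smul_add,
      smul_sub, zero_smul, add_zero, hj, ha, hb, smul_neg]
    rw [smul_comm (R.lam x0) (R.lam y) T]
    abel
  refine ⟨-T, ?_⟩
  intro y
  have h1 := LinearMap.congr_fun key y
  simp only [LinearMap.sub_apply, LinearMap.add_apply, LinearMap.flip_apply,
      LinearMap.smulRight_apply, LinearMap.zero_apply] at h1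
  rw [sub_eq_zero] at h1
  rw [h1, H.anti y T]
  simp only [map_neg, LinearMap.neg_apply, smul_neg, sub_neg_eq_add]

end Pool.Agent.STT
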