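import Pool.Agent.STT.Stmts
import Mathlib.Tactic

set_option autoImplicit false

namespace Pool.Agent.STT

theorem f1b_proof (hSKL : Stmt_SKL) : Stmt_F1B := by
  intro V _ _ _ H K R _ b hb y hy
  have hJskew : ∀ x z, K.ip (H.J x) z = - K.ip x (H.J z) := by
    intro x z
    have h := K.ipJ x (H.J z)
    rw [H.JJ, map_neg] at h
    linarith
  have hE0 : ∀ x z, K.PA z = 0 → K.E x z = 0 := by
    intro x z hz
    rw [← K.EPr x z, hz, map_zero]
  have hyJ : K.PA (H.J y) = 0 := by rw [K.pJ, hy, map_zero]
  have b1 : H.br b y = - K.E y b := by rw [K.breq, hE0 b y hy, zero_sub]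
  have b2 : H.br b (H.J y) = - K.E (H.J y) b := by rw [K.breq, hE0 b (H.J y) hyJ, zero_sub]
  have hD := R.DJ y
  rw [hb, hb, b1, b2, map_sub, map_neg, map_smul] at hD
  have key : K.E (H.J y) b = H.J (K.E y b) + R.lam y • H.J b - R.lam (H.J y) • b := by
    have h2 : K.E (H.J y) b = - (-(K.E (H.J y) b) - R.lam (H.J y) • b) - R.lam (H.J y) • b := by
      module
    rw [h2, hD]
    module
  have := hSKL V K.ip K.ipd (K.E y + R.lam (H.J y) • H.J) (K.E (H.J y) - R.lam y • H.J) H.J
    (by
      intro x z
      simp only [LinearMap.add_apply, LinearMap.smul_apply, map_add, map_smul, smul_eq_mul]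
      rw [K.ipE, hJskew]; ring)
    (by
      intro x z
      simp only [LinearMap.sub_apply, LinearMap.smul_apply, map_sub, map_smul, smul_eq_mul]
      rw [K.ipE, hJskew]; ring)
    hJskew H.JJ
    (by
      intro x
      simp only [LinearMap.sub_apply, LinearMap.add_apply, LinearMap.smul_apply, map_sub, map_add,
        map_smul, K.EJ]
      rw [K.Ec y (H.J y) x]
      module)
    (by
      intro x
      simp only [LinearMap.add_apply, LinearMap.smul_apply, map_add, map_smul, K.EJ])
    (by
      intro x
      simp only [LinearMap.sub_apply, LinearMap.smul_apply, map_sub, map_smul, K.EJ])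
    b
    (by
      simp only [LinearMap.sub_apply, LinearMap.add_apply, LinearMap.smul_apply, map_add, map_smul]
      rw [key, H.JJ]
      module)
  have h1 := this.1
  simp only [LinearMap.add_apply, LinearMap.smul_apply] at h1
  exact eq_neg_of_add_eq_zero_left h1

end Pool.Agent.STT
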