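import Pool.Agent.STT.Stmts

set_option autoImplicit false

/-!
# MP_e0fc50_gt (Streets-Tian), squad STT: module F1C
-/

namespace Pool.Agent.STT

namespace F1CAux

variable {V : Type} [AddCommGroup V] [Module ℝ V] [FiniteDimensional ℝ V]

/-- `E x y` is a bracket. -/
theorem E_eq_br {H : HS V} (K : KF H) (x y : V) : K.E x y = H.br (x - K.PA x) (K.PA y) := by
  rw [K.breq, K.EPl, sub_zero, K.EPr, map_sub, LinearMap.sub_apply, K.EPl, sub_zero]

/-- A functional vanishing on brackets vanishes on `A`. -/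
theorem fun_PA (hSPN : Stmt_SPN) {H : HS V} (K : KF H) (f : V →ₗ[ℝ] ℝ)
    (hf : ∀ x y, f (H.br x y) = 0) (y : V) : f (K.PA y) = 0 := by
  have h := hSPN V H K (LinearMap.ker f) (fun x z => by
    rw [LinearMap.mem_ker, E_eq_br]; exact hf _ _) y
  exact h

/-- Normalised element of `S`. -/
theorem exists_s {H : HS V} (K : KF H) (f : V →ₗ[ℝ] ℝ) (hf : ∀ y, f (K.PA y) = 0)
    (hf0 : f ≠ 0) : ∃ s, K.PA s = 0 ∧ f s = 1 ∧ f (H.J s) = 0 := by
  obtain ⟨x, hx⟩ : ∃ x, f x ≠ 0 := by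
    by_contra h
    push Not at h
    exact hf0 (LinearMap.ext h)
  have h0 : K.PA (x - K.PA x) = 0 := by rw [map_sub, K.pp, sub_self]
  have h1 : f (x - K.PA x) ≠ 0 := by rw [map_sub, hf, sub_zero]; exact hx
  have h2 : K.PA (H.J (x - K.PA x)) = 0 := by rw [K.pJ, h0, map_zero]
  obtain ⟨s0, hs0⟩ : ∃ s0, s0 = x - K.PA x := ⟨_, rfl⟩
  rw [← hs0] at h0 h1 h2
  have hpos : 0 < f s0 ^ 2 + f (H.J s0) ^ 2 := by positivity
  refine ⟨(f s0 ^ 2 + f (H.J s0) ^ 2)⁻¹ • (f s0 • s0 + f (H.J s0) • H.J s0), ?_, ?_, ?_⟩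
  · simp only [map_smul, map_add, h0, h2, smul_zero, add_zero]
  · simp only [map_smul, map_add, smul_eq_mul]
    field_simp
  · simp only [map_smul, map_add, smul_eq_mul, H.JJ, map_neg]
    ring

end F1CAux

open F1CAux in
theorem f1c_proof (hSPN : Stmt_SPN) : Stmt_F1C := by
  intro V _ _ _ H K R hlam b hD hE
  have hlA := fun_PA hSPN K R.lam R.lbr
  obtain ⟨s, hs, hs1, hs2⟩ := exists_s K R.lam hlA hlam
  have hEs : ∀ x, K.E x s = 0 := fun x => by rw [← K.EPr, hs, map_zero]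
  have hJs : K.PA (H.J s) = 0 := by rw [K.pJ, hs, map_zero]
  have hEJs : ∀ x, K.E x (H.J s) = 0 := fun x => by rw [← K.EPr, hJs, map_zero]
  have hJJ : R.lam (H.J (H.J s)) = -1 := by rw [H.JJ, map_neg, hs1]
  have h1 : K.E (H.J s) b = H.J b := by
    rw [hE _ hJs, hJJ, neg_smul, one_smul, neg_neg]
  have h2 : K.PA (H.J b) = H.J b := by rw [← h1, K.PE]
  have h3 : K.PA b = b := by
    have : H.J (K.PA b - b) = 0 := by rw [map_sub, ← K.pJ, h2, sub_self]
    exact sub_eq_zero.mp (H.jinj this)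
  have hlb : R.lam b = 0 := by rw [← h3, hlA]
  have hEsb : K.E s b = 0 := by rw [hE _ hs, hs2, zero_smul, neg_zero]
  -- the trace
  have hell : R.ell = 0 := by
    have h4 : R.D = H.br b - R.lam.smulRight b := by
      ext y
      rw [hD, LinearMap.sub_apply, LinearMap.smulRight_apply]
    have h5 : LinearMap.trace ℝ V R.D = 0 := by
      rw [h4, map_sub, H.unim, zero_sub, LinearMap.trace_smulRight, hlb, neg_zero]
    have := R.tr
    rw [h5, add_zero] at this
    exact this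
  have hDs : R.D s = -b := by
    rw [hD, hs1, one_smul, K.breq, hEs, hEsb]
    simp
  have hDJs : R.D (H.J s) = -(H.J b) := by rw [R.DJ, hDs, map_neg]
  have hbr0 : H.br s (H.J s) = 0 := by rw [K.breq, hEJs, hEs, sub_zero]
  have hanti : ∀ x y, R.th x y = - R.th y x := by
    intro x y
    have h := R.thalt (x + y)
    simp only [map_add, LinearMap.add_apply, R.thalt, zero_add, add_zero] at h
    linarith
  have h6 := R.e3 s (H.J s)
  rw [hDs, hDJs, hell, hbr0, hs1, hs2, hJJ] at h6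
  simp only [map_zero, map_neg, LinearMap.neg_apply] at h6
  have h7 : R.th s (H.J b) = R.th b (H.J s) := by
    rw [← R.thJ s (H.J b), H.JJ, map_neg, hanti (H.J s) b, neg_neg]
  have h8 : R.th b (H.J s) = -2 := by rw [h7] at h6; linarith
  have hDb : R.D b = 0 := by rw [hD, H.skew, hlb, zero_smul, sub_zero]
  have hbrb : H.br b (H.J s) = -(H.J b) := by rw [K.breq, hEJs, h1, zero_sub]
  have h9 := R.e2 b (H.J s)
  rw [hDb, hDJs, hlb, hs2, h8, hbrb] at h9
  simp only [map_zero, map_neg, LinearMap.zero_apply] at h9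
  have h10 := R.pos b
  linarith

end Pool.Agent.STT
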