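import Pool.Agent.STT.Stmts

/-!
# MP_e0fc50_gt (Streets-Tian): module G2A
-/

set_option autoImplicit false

namespace Pool.Agent.STT

namespace G2AAux

variable {V : Type} [AddCommGroup V] [Module ℝ V]

/-- the sum of two copies of a form -/
noncomputable def dbl (b : V →ₗ[ℝ] V →ₗ[ℝ] ℝ) : (V × V) →ₗ[ℝ] (V × V) →ₗ[ℝ] ℝ :=
  LinearMap.mk₂ ℝ (fun a a' => b a.1 a'.1 + b a.2 a'.2)
    (by intro x y z; simp only [Prod.fst_add, Prod.snd_add, map_add, LinearMap.add_apply]; ring)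
    (by intro t x y; simp only [Prod.smul_fst, Prod.smul_snd, map_smul, LinearMap.smul_apply,
          smul_eq_mul]; ring)
    (by intro x y z; simp only [Prod.fst_add, Prod.snd_add, map_add]; ring)
    (by intro t x y; simp only [Prod.smul_fst, Prod.smul_snd, map_smul, smul_eq_mul]; ring)

theorem dbl_apply (b : V →ₗ[ℝ] V →ₗ[ℝ] ℝ) (a a' : V × V) :
    dbl b a a' = b a.1 a'.1 + b a.2 a'.2 := rfl

theorem dbl_pd {b : V →ₗ[ℝ] V →ₗ[ℝ] ℝ} (h : PD b) : PD (dbl b) where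
  symm := by
    intro x y
    rw [dbl_apply, dbl_apply, h.symm x.1 y.1, h.symm x.2 y.2]
  pos := by
    intro x hx
    rw [dbl_apply]
    have n1 : ∀ z : V, 0 ≤ b z z := by
      intro z
      by_cases hz : z = 0
      · rw [hz]; simp
      · exact le_of_lt (h.pos z hz)
    by_cases h1 : x.1 = 0
    · have h2 : x.2 ≠ 0 := by
        intro h2
        exact hx (Prod.ext h1 h2)
      have := h.pos x.2 h2
      have := n1 x.1
      linarith
    · have := h.pos x.1 h1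
      have := n1 x.2
      linarith

/-- the twisted double of an operator -/
noncomputable def twi (E : V →ₗ[ℝ] V) (m : ℝ) : (V × V) →ₗ[ℝ] (V × V) :=
  (E ∘ₗ LinearMap.fst ℝ V V - m • LinearMap.snd ℝ V V).prod
    (E ∘ₗ LinearMap.snd ℝ V V + m • LinearMap.fst ℝ V V)

theorem twi_apply (E : V →ₗ[ℝ] V) (m : ℝ) (a : V × V) :
    twi E m a = (E a.1 - m • a.2, E a.2 + m • a.1) := rfl

theorem twi_skew {b : V →ₗ[ℝ] V →ₗ[ℝ] ℝ} (E : V →ₗ[ℝ] V) (m : ℝ)
    (h : ∀ x y, b (E x) y = - b x (E y)) (x y : V × V) :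
    dbl b (twi E m x) y = - dbl b x (twi E m y) := by
  rw [dbl_apply, dbl_apply, twi_apply, twi_apply]
  simp only [map_sub, map_add, map_smul, LinearMap.sub_apply, LinearMap.add_apply,
    LinearMap.smul_apply, smul_eq_mul, h]
  ring

variable {H : HS V}

theorem E_eq (K : KF H) (x y : V) : H.br (x - K.PA x) (K.PA y) = K.E x y := by
  rw [K.breq, map_sub, LinearMap.sub_apply, K.EPr, K.EPl, K.EPl, sub_zero, sub_zero]

theorem PA0 (K : KF H) (x : V) : K.PA (x - K.PA x) = 0 := by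
  rw [map_sub, K.pp, sub_self]

theorem br0 (K : KF H) {x : V} (h : K.PA x = 0) (y : V) : H.br x y = K.E x y := by
  have h1 : K.E y x = 0 := by rw [← K.EPr y x, h, map_zero]
  rw [K.breq, h1, sub_zero]

end G2AAux

open G2AAux

theorem g2a_proof (hSPN : Stmt_SPN) (hINV : Stmt_INV) (hSYL : Stmt_SYL) : Stmt_G2A := by
  intro V _ _ _ H K R hnu
  have nA : ∀ y, R.nu (K.PA y) = 0 := by
    intro y
    have := hSPN V H K (LinearMap.ker R.nu) (by
      intro x y
      rw [LinearMap.mem_ker, ← E_eq K x y]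
      exact R.nubr _ _) y
    exact LinearMap.mem_ker.mp this
  obtain ⟨x, hx⟩ : ∃ x, R.nu x ≠ 0 := by
    by_contra hcon
    apply hnu
    ext x
    by_contra h
    exact hcon ⟨x, h⟩
  obtain ⟨x0, hP, hn⟩ : ∃ x0, K.PA x0 = 0 ∧ R.nu x0 ≠ 0 := by
    refine ⟨x - K.PA x, PA0 K x, ?_⟩
    rw [map_sub, nA, sub_zero]
    exact hx
  have hbr : ∀ y, H.br x0 y = K.E x0 y := fun y => br0 K hP y
  have hE : ∀ x y, K.ip (K.E x0 x) y = - K.ip x (K.E x0 y) := fun x y => K.ipE x0 x y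
  obtain ⟨z, hz⟩ := hINV (V × V) (dbl K.ip) (dbl_pd K.ipd) (twi (K.E x0) (R.mu x0)) (R.nu x0) hn
    (twi_skew (K.E x0) (R.mu x0) hE) (R.Dp x0, R.Dq x0)
  have hz1 : R.nu x0 • z.1 + (K.E x0 z.1 - R.mu x0 • z.2) = R.Dp x0 := by
    have := congrArg Prod.fst hz
    rw [twi_apply] at this
    exact this
  have hz2 : R.nu x0 • z.2 + (K.E x0 z.2 + R.mu x0 • z.1) = R.Dq x0 := by
    have := congrArg Prod.snd hz
    rw [twi_apply] at this
    exact this
  obtain ⟨bp, hbp⟩ : ∃ bp, bp = -z.1 := ⟨_, rfl⟩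
  obtain ⟨bq, hbq⟩ : ∃ bq, bq = -z.2 := ⟨_, rfl⟩
  obtain ⟨Fp, hFp⟩ : ∃ Fp : V →ₗ[ℝ] V, ∀ y, Fp y = R.Dp y - (H.br bp y - R.nu y • bp + R.mu y • bq) :=
    ⟨R.Dp - (H.br bp - R.nu.smulRight bp + R.mu.smulRight bq), fun y => rfl⟩
  obtain ⟨Fq, hFq⟩ : ∃ Fq : V →ₗ[ℝ] V, ∀ y, Fq y = R.Dq y - (H.br bq y - R.nu y • bq - R.mu y • bp) :=
    ⟨R.Dq - (H.br bq - R.nu.smulRight bq - R.mu.smulRight bp), fun y => rfl⟩
  have p0 : Fp x0 = 0 := by
    rw [hFp, ← hz1, H.anti bp x0, hbr, hbp, hbq, map_neg]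
    module
  have q0 : Fq x0 = 0 := by
    rw [hFq, ← hz2, H.anti bq x0, hbr, hbp, hbq, map_neg]
    module
  have ep : ∀ y, Fp (K.E x0 y) = R.nu x0 • Fp y + (K.E x0 (Fp y) - R.mu x0 • Fq y) := by
    intro y
    have h1 := R.e1p x0 y
    have h2 := H.jac bp x0 y
    have h3 : R.Dp x0 = H.br bp x0 - R.nu x0 • bp + R.mu x0 • bq := by
      rw [hFp] at p0
      exact sub_eq_zero.mp p0
    have h4 : R.Dq x0 = H.br bq x0 - R.nu x0 • bq - R.mu x0 • bp := by
      rw [hFq] at q0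
      exact sub_eq_zero.mp q0
    rw [← hbr, ← hbr, hFp (H.br x0 y), R.nubr, R.mubr, h1, h2, h3, h4, hFp y, hFq y, H.anti bp x0,
      H.anti bq x0]
    simp only [map_sub, map_add, map_neg, map_smul, LinearMap.sub_apply, LinearMap.add_apply,
      LinearMap.neg_apply, LinearMap.smul_apply]
    module
  have eq : ∀ y, Fq (K.E x0 y) = R.nu x0 • Fq y + (K.E x0 (Fq y) + R.mu x0 • Fp y) := by
    intro y
    have h1 := R.e1q x0 y
    have h2 := H.jac bq x0 y
    have h3 : R.Dp x0 = H.br bp x0 - R.nu x0 • bp + R.mu x0 • bq := by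
      rw [hFp] at p0
      exact sub_eq_zero.mp p0
    have h4 : R.Dq x0 = H.br bq x0 - R.nu x0 • bq - R.mu x0 • bp := by
      rw [hFq] at q0
      exact sub_eq_zero.mp q0
    rw [← hbr, ← hbr, hFq (H.br x0 y), R.nubr, R.mubr, h1, h2, h3, h4, hFp y, hFq y, H.anti bp x0,
      H.anti bq x0]
    simp only [map_sub, map_add, map_neg, map_smul, LinearMap.sub_apply, LinearMap.add_apply,
      LinearMap.neg_apply, LinearMap.smul_apply]
    module
  have hT := hSYL V (V × V) K.ip (dbl K.ip) K.ipd (dbl_pd K.ipd) (K.E x0)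
    (twi (K.E x0) (R.mu x0)) (R.nu x0) (Fp.prod Fq) hn hE (twi_skew (K.E x0) (R.mu x0) hE) (by
      intro y
      rw [twi_apply]
      exact Prod.ext (ep y) (eq y))
  have hT1 : ∀ y, Fp y = 0 := fun y => congrArg Prod.fst (LinearMap.congr_fun hT y)
  have hT2 : ∀ y, Fq y = 0 := fun y => congrArg Prod.snd (LinearMap.congr_fun hT y)
  refine ⟨bp, bq, fun y => ?_, fun y => ?_⟩
  · have := hT1 y
    rw [hFp] at this
    rw [sub_eq_zero.mp this]
    module
  · have := hT2 y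
    rw [hFq] at this
    rw [sub_eq_zero.mp this]
    module

end Pool.Agent.STT
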