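import Pool.Agent.STT.Stmts

/-!
# Squad STT, module G2B
-/

set_option autoImplicit false

namespace Pool.Agent.STT

namespace G2BAux

variable {V : Type} [AddCommGroup V] [Module ℝ V]

/-- the operator `(w1,w2) ↦ (E w1 - m w2 + n J w1, E w2 + m w1 + n J w2)` -/
def G (E J : V →ₗ[ℝ] V) (m n : ℝ) : V × V →ₗ[ℝ] V × V :=
  LinearMap.prod
    (E ∘ₗ LinearMap.fst ℝ V V - m • LinearMap.snd ℝ V V + n • (J ∘ₗ LinearMap.fst ℝ V V))
    (E ∘ₗ LinearMap.snd ℝ V V + m • LinearMap.fst ℝ V V + n • (J ∘ₗ LinearMap.snd ℝ V V))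

theorem G_apply (E J : V →ₗ[ℝ] V) (m n : ℝ) (z : V × V) :
    G E J m n z = (E z.1 - m • z.2 + n • J z.1, E z.2 + m • z.1 + n • J z.2) := rfl

/-- the product form -/
def B (b : V →ₗ[ℝ] V →ₗ[ℝ] ℝ) : V × V →ₗ[ℝ] V × V →ₗ[ℝ] ℝ :=
  b.compl₁₂ (LinearMap.fst ℝ V V) (LinearMap.fst ℝ V V)
    + b.compl₁₂ (LinearMap.snd ℝ V V) (LinearMap.snd ℝ V V)

theorem B_apply (b : V →ₗ[ℝ] V →ₗ[ℝ] ℝ) (z w : V × V) :
    B b z w = b z.1 w.1 + b z.2 w.2 := rfl

theorem B_pd {b : V →ₗ[ℝ] V →ₗ[ℝ] ℝ} (hb : PD b) : PD (B b) where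
  symm := by
    intro x y
    rw [B_apply, B_apply, hb.symm, hb.symm x.2]
  pos := by
    intro x hx
    rw [B_apply]
    by_cases h1 : x.1 = 0
    · have h2 : x.2 ≠ 0 := fun h2 => hx (Prod.ext h1 h2)
      rw [h1]
      simpa using hb.pos _ h2
    · have := hb.pos _ h1
      by_cases h2 : x.2 = 0
      · rw [h2]
        simpa using this
      · have := hb.pos _ h2
        linarith

theorem G_skew {b : V →ₗ[ℝ] V →ₗ[ℝ] ℝ} {E J : V →ₗ[ℝ] V}
    (hE : ∀ x y, b (E x) y = - b x (E y)) (hJ : ∀ x y, b (J x) y = - b x (J y)) (m n : ℝ)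
    (z w : V × V) : B b (G E J m n z) w = - B b z (G E J m n w) := by
  rw [B_apply, B_apply, G_apply, G_apply]
  simp only [map_add, map_sub, LinearMap.add_apply, LinearMap.sub_apply, map_smul,
    LinearMap.smul_apply, smul_eq_mul, hE, hJ]
  ring

theorem G_comm {E E' J : V →ₗ[ℝ] V} (hEE : ∀ x, E (E' x) = E' (E x))
    (hEJ : ∀ x, E (J x) = J (E x)) (hEJ' : ∀ x, E' (J x) = J (E' x)) (m n m' n' : ℝ)
    (z : V × V) : G E J m n (G E' J m' n' z) = G E' J m' n' (G E J m n z) := by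
  simp only [G_apply, map_add, map_sub, map_smul, hEE, hEJ, hEJ', Prod.mk.injEq]
  constructor <;> module

theorem G_J {E J : V →ₗ[ℝ] V} (hEJ : ∀ x, E (J x) = J (E x)) (m n : ℝ)
    (z : V × V) : G E J m n (LinearMap.prodMap J J z) = LinearMap.prodMap J J (G E J m n z) := by
  simp only [G_apply, LinearMap.prodMap_apply, map_add, map_sub, map_smul, hEJ]

end G2BAux

open G2BAux in
theorem g2b_proof (hSKL : Stmt_SKL) : Stmt_G2B := by
  intro V _ _ _ H K R _ bp bq hp hq y hy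
  have hJs : ∀ x z, K.ip (H.J x) z = - K.ip x (H.J z) := by
    intro x z
    have h := K.ipJ x (H.J z)
    rw [H.JJ, map_neg] at h
    linarith
  have hS : ∀ s, K.PA s = 0 → ∀ b, H.br b s = - K.E s b := by
    intro s hs b
    rw [K.breq, ← K.EPr b s, hs, map_zero, zero_sub]
  have hJy : K.PA (H.J y) = 0 := by rw [K.pJ, hy, map_zero]
  have e1 := R.DpJ y
  have e2 := R.DqJ y
  rw [hp, hp, hS _ hJy, hS _ hy] at e1
  rw [hq, hq, hS _ hJy, hS _ hy] at e2
  have key := hSKL (V × V) (B K.ip) (B_pd K.ipd) (G (K.E y) H.J (R.mu y) (R.nu (H.J y)))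
    (G (K.E (H.J y)) H.J (R.mu (H.J y)) (- R.nu y)) (LinearMap.prodMap H.J H.J)
    (G_skew (K.ipE y) hJs _ _) (G_skew (K.ipE (H.J y)) hJs _ _)
    (by
      intro x z
      rw [B_apply, B_apply]
      simp only [LinearMap.prodMap_apply, hJs]
      ring)
    (by
      intro x
      simp only [LinearMap.prodMap_apply, H.JJ]
      rfl)
    (G_comm (K.Ec y (H.J y)) (K.EJ y) (K.EJ (H.J y)) _ _ _ _)
    (G_J (K.EJ y) _ _) (G_J (K.EJ (H.J y)) _ _) (bp, bq)
    (by
      simp only [G_apply, LinearMap.prodMap_apply, map_add, map_sub, map_smul, H.JJ, Prod.mk.injEq]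
      simp only [map_add, map_sub, map_smul, map_neg] at e1 e2
      constructor
      · linear_combination (norm := module) -e1
      · linear_combination (norm := module) -e2)
  have h1 := congrArg Prod.fst key.1
  have h2 := congrArg Prod.snd key.1
  rw [G_apply] at h1 h2
  simp only [Prod.fst_zero, Prod.snd_zero] at h1 h2
  constructor
  · linear_combination (norm := module) h1
  · linear_combination (norm := module) h2

end Pool.Agent.STT
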