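import Pool.Agent.STT.Stmts

set_option autoImplicit false

/-!
# MP_e0fc50_gt (Streets-Tian), squad STT: module G2D
-/

namespace Pool.Agent.STT

namespace G2DAux

variable {V : Type} [AddCommGroup V] [Module ℝ V] [FiniteDimensional ℝ V]

/-- `E x y` is a bracket. -/
theorem E_eq_br {H : HS V} (K : KF H) (x y : V) : K.E x y = H.br (x - K.PA x) (K.PA y) := by
  rw [K.breq, K.EPl, sub_zero, K.EPr, map_sub, LinearMap.sub_apply, K.EPl, sub_zero]

/-- A functional vanishing on brackets vanishes on `A`. -/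
theorem fun_PA (hSPN : Stmt_SPN) {H : HS V} (K : KF H) (f : V →ₗ[ℝ] ℝ)
    (hf : ∀ x y, f (H.br x y) = 0) (y : V) : f (K.PA y) = 0 := by
  have h := hSPN V H K (LinearMap.ker f) (fun x z => by
    rw [LinearMap.mem_ker, E_eq_br]; exact hf _ _) y
  exact h

/-- Normalised element of `S`. -/
theorem exists_s {H : HS V} (K : KF H) (f : V →ₗ[ℝ] ℝ) (hf : ∀ y, f (K.PA y) = 0)
    (hf0 : f ≠ 0) : ∃ s, K.PA s = 0 ∧ f s = 1 ∧ f (H.J s) = 0 := by
  obtain ⟨x, hx⟩ : ∃ x, f x ≠ 0 := by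
    by_contra h
    push Not at h
    exact hf0 (LinearMap.ext h)
  have h0 : K.PA (x - K.PA x) = 0 := by rw [map_sub, K.pp, sub_self]
  have h1 : f (x - K.PA x) ≠ 0 := by rw [map_sub, hf, sub_zero]; exact hx
  have h2 : K.PA (H.J (x - K.PA x)) = 0 := by rw [K.pJ, h0, map_zero]
  obtain ⟨s0, hs0⟩ : ∃ s0, s0 = x - K.PA x := ⟨_, rfl⟩
  rw [← hs0] at h0 h1 h2
  have hpos : 0 < f s0 ^ 2 + f (H.J s0) ^ 2 := by positivity
  refine ⟨(f s0 ^ 2 + f (H.J s0) ^ 2)⁻¹ • (f s0 • s0 + f (H.J s0) • H.J s0), ?_, ?_, ?_⟩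
  · simp only [map_smul, map_add, h0, h2, smul_zero, add_zero]
  · simp only [map_smul, map_add, smul_eq_mul]
    field_simp
  · simp only [map_smul, map_add, smul_eq_mul, H.JJ, map_neg]
    ring

/-- symmetry of `x ↦ t s (J x)` for a `J`-invariant alternating form. -/
theorem t_swap (H : HS V) (t : V →ₗ[ℝ] V →ₗ[ℝ] ℝ) (ha : ∀ x, t x x = 0)
    (hJ : ∀ x y, t (H.J x) (H.J y) = t x y) (s b : V) : t s (H.J b) = t b (H.J s) := by
  have hanti : ∀ x y, t x y = - t y x := by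
    intro x y
    have h := ha (x + y)
    simp only [map_add, LinearMap.add_apply, ha, zero_add, add_zero] at h
    linarith
  rw [← hJ s (H.J b), H.JJ, map_neg, hanti (H.J s) b, neg_neg]

end G2DAux

open G2DAux in
theorem g2d_proof (hSPN : Stmt_SPN) : Stmt_G2D := by
  intro V _ _ _ H K R hnu bp bq hDp hDq hE hnp hnq hmp hmq
  have hnA := fun_PA hSPN K R.nu R.nubr
  obtain ⟨s, hs, hs1, hs2⟩ := exists_s K R.nu hnA hnu
  have hEs : ∀ x, K.E x s = 0 := fun x => by rw [← K.EPr, hs, map_zero]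
  have hJs : K.PA (H.J s) = 0 := by rw [K.pJ, hs, map_zero]
  have hEJs : ∀ x, K.E x (H.J s) = 0 := fun x => by rw [← K.EPr, hJs, map_zero]
  have hJJ : R.nu (H.J (H.J s)) = -1 := by rw [H.JJ, map_neg, hs1]
  have h1 : K.E (H.J s) bp = R.mu (H.J s) • bq + H.J bp := by
    rw [(hE _ hJs).1, hJJ, neg_smul, one_smul, sub_neg_eq_add]
  have h2 : K.E (H.J s) bq = -(R.mu (H.J s) • bp) + H.J bq := by
    rw [(hE _ hJs).2, hJJ, neg_smul, one_smul, sub_neg_eq_add]
  have h3 : K.E s bp = R.mu s • bq := by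
    rw [(hE _ hs).1, hs2, zero_smul, sub_zero]
  have h4 : K.E s bq = -(R.mu s • bp) := by
    rw [(hE _ hs).2, hs2, zero_smul, sub_zero]
  have hDps : R.Dp s = -bp := by
    rw [hDp, hs1, one_smul, K.breq, hEs, h3]
    abel
  have hDqs : R.Dq s = -bq := by
    rw [hDq, hs1, one_smul, K.breq, hEs, h4]
    abel
  have hDpJs : R.Dp (H.J s) = -(H.J bp) := by rw [R.DpJ, hDps, map_neg]
  have hDqJs : R.Dq (H.J s) = -(H.J bq) := by rw [R.DqJ, hDqs, map_neg]
  have hbr0 : H.br s (H.J s) = 0 := by rw [K.breq, hEJs, hEs, sub_zero]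
  have h6 := R.e3 s (H.J s)
  rw [hDps, hDqs, hDpJs, hDqJs, hbr0, hs1, hs2, hJJ] at h6
  simp only [map_zero, map_neg, LinearMap.neg_apply] at h6
  rw [t_swap H R.tp R.tpalt R.tpJ s bp, t_swap H R.tq R.tqalt R.tqJ s bq] at h6
  have hDpbp : R.Dp bp = 0 := by rw [hDp, H.skew, hnp, hmp]; simp
  have hDqbq : R.Dq bq = 0 := by rw [hDq, H.skew, hnq, hmq]; simp
  have hbrp : H.br bp (H.J s) = -(R.mu (H.J s) • bq + H.J bp) := by
    rw [K.breq, hEJs, h1, zero_sub]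
  have hbrq : H.br bq (H.J s) = -(-(R.mu (H.J s) • bp) + H.J bq) := by
    rw [K.breq, hEJs, h2, zero_sub]
  have h9 := R.e2p bp (H.J s)
  rw [hDpbp, hDpJs, hnp, hmp, hs2, hbrp] at h9
  simp only [map_zero, map_neg, map_add, map_smul, smul_eq_mul, LinearMap.zero_apply] at h9
  have h10 := R.e2q bq (H.J s)
  rw [hDqbq, hDqJs, hnq, hmq, hs2, hbrq] at h10
  simp only [map_zero, map_neg, map_add, map_smul, smul_eq_mul, LinearMap.zero_apply] at h10
  have h11 := R.posp bp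
  have h12 := R.posq bq
  have h13 := R.Tp0
  have h14 := R.Tq0
  nlinarith

end Pool.Agent.STT
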