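import Pool.Agent.STT.Stmts

set_option autoImplicit false

namespace Pool.Agent.STT

theorem gv2_proof (hPBR : Stmt_PBR) (hPRE : Stmt_PRE) (hSPN : Stmt_SPN) : Stmt_GV2 := by
  intro V _ _ _ H P d K hnu hDp hDq
  have hP := hPRE V H P
  obtain ⟨-, hmubr, -⟩ := hPBR V H P
  -- an element of `c` with `mu = 1`
  have hnz : ∃ y0 : d.G.c, P.mu (y0 : V) = 1 := by
    obtain ⟨x, hx⟩ : ∃ x, P.mu x ≠ 0 := by
      by_contra h
      push Not at h
      exact P.mu0 (LinearMap.ext h)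
    obtain ⟨u, hu, w, hw, y, hy⟩ := d.G.ex x
    have h1 : P.mu (y : V) ≠ 0 := by
      rw [hy, map_add, map_add, (hP u hu).2.1, (hP w hw).2.2.2.1, zero_add, zero_add] at hx
      exact hx
    refine ⟨(P.mu (y : V))⁻¹ • y, ?_⟩
    rw [Submodule.coe_smul, map_smul, smul_eq_mul, inv_mul_cancel₀ h1]
  obtain ⟨y0, hy0⟩ := hnz
  obtain ⟨A, hA⟩ : ∃ A : V →ₗ[ℝ] V, A = H.br (y0 : V) := ⟨_, rfl⟩
  have hb1 : ∀ x, H.br x P.u1 = -(P.mu x • P.u2) := by
    intro x
    rw [P.h1, hnu, LinearMap.zero_apply, zero_smul, zero_sub]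
  have hb2 : ∀ x, H.br x P.u2 = P.mu x • P.u1 := by
    intro x
    rw [P.h2, hnu, LinearMap.zero_apply, zero_smul, zero_add]
  have hbr : ∀ x, ∀ w ∈ P.pl, H.br x w = P.mu x • A w := by
    intro x w hw
    obtain ⟨s, t, rfl⟩ := Submodule.mem_span_pair.mp hw
    rw [hA]
    simp only [map_add, map_smul, hb1, hb2, hy0, one_smul, smul_add, smul_neg]
    rw [smul_comm s (P.mu x), smul_comm t (P.mu x)]
  have hAm : ∀ w ∈ P.pl, A w ∈ P.pl := by
    intro w hw
    rw [hA]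
    exact d.G.idl _ w hw
  have hAA : ∀ w ∈ P.pl, A (A w) = -w := by
    intro w hw
    obtain ⟨s, t, rfl⟩ := Submodule.mem_span_pair.mp hw
    rw [hA]
    simp only [map_add, map_smul, map_neg, hb1, hb2, hy0, one_smul, smul_neg, neg_add_rev]
    abel
  -- formulas for the action on `J p`, `J q`
  have fp : ∀ y : d.G.c, H.br (y : V) (H.J d.p)
      = P.mu (y : V) • H.J d.q - P.mu (H.J (y : V)) • (A d.p - d.q) := by
    intro y
    rw [H.anti, d.brp, hnu, hDp, hbr _ _ d.pm]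
    simp only [LinearMap.zero_apply, zero_smul, zero_sub, map_neg, map_smul, add_zero,
      Submodule.coe_zero, smul_sub]
    abel
  have fq : ∀ y : d.G.c, H.br (y : V) (H.J d.q)
      = -(P.mu (y : V) • H.J d.p) - P.mu (H.J (y : V)) • (A d.q + d.p) := by
    intro y
    rw [H.anti, d.brq, hnu, hDq, hbr _ _ d.qm]
    simp only [LinearMap.zero_apply, zero_smul, zero_add, map_smul, add_zero,
      Submodule.coe_zero, smul_add]
    abel
  -- `mu` and `mu ∘ J` vanish on brackets of `c`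
  have hmuc : ∀ x y : d.G.c, P.mu ((d.G.Hc.br x y : d.G.c) : V) = 0 := by
    intro x y
    have h1 := hmubr (x : V) (y : V)
    rw [d.G.hbr, map_add, (hP _ (d.G.tha x y)).2.1, zero_add] at h1
    exact h1
  have hE0 : ∀ x s, K.PA s = 0 → K.E x s = 0 := fun x s hs => by rw [← K.EPr, hs, map_zero]
  have hEbr : ∀ x y, K.E x y = d.G.Hc.br (x - K.PA x) (K.PA y) := by
    intro x y
    rw [K.breq, hE0 _ (x - K.PA x) (by rw [map_sub, K.pp, sub_self]), sub_zero, K.EPr, map_sub,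
      LinearMap.sub_apply, K.EPl, sub_zero]
  have hmuA : ∀ y, P.mu ((K.PA y : d.G.c) : V) = 0 := by
    intro y
    have h := hSPN d.G.c d.G.Hc K (LinearMap.ker (P.mu ∘ₗ d.G.c.subtype)) (fun x z => by
      rw [LinearMap.mem_ker, hEbr]
      exact hmuc _ _) y
    exact h
  have hPbr : ∀ x y : d.G.c, K.PA (d.G.Hc.br x y) = d.G.Hc.br x y := by
    intro x y
    rw [K.breq, map_sub, K.PE, K.PE]
  have hmuJ : ∀ x y : d.G.c, P.mu (H.J ((d.G.Hc.br x y : d.G.c) : V)) = 0 := by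
    intro x y
    rw [← d.G.hJ, ← hPbr, ← K.pJ]
    exact hmuA _
  -- Jacobi
  have hjac : ∀ x y : d.G.c, H.br (x : V) (H.br (y : V) (H.J d.p))
      = H.br (y : V) (H.br (x : V) (H.J d.p)) := by
    intro x y
    rw [H.jac, d.G.hbr, map_add, LinearMap.add_apply, fp, hmuc, hmuJ, H.anti (d.G.th x y),
      ((hP d.p d.pm).2.2.2.2 _ (d.G.tha x y)).2.1]
    simp
  have hexp : ∀ x y : d.G.c, H.br (x : V) (H.br (y : V) (H.J d.p))
      = -((P.mu (x : V) * P.mu (y : V)) • H.J d.p)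
        + (P.mu (x : V) * P.mu (H.J (y : V)) - P.mu (y : V) * P.mu (H.J (x : V)))
          • (A d.q + d.p) := by
    intro x y
    rw [fp y, map_sub, map_smul, map_smul, fq, hbr _ _ (P.pl.sub_mem (hAm _ d.pm) d.qm), map_sub,
      hAA _ d.pm]
    module
  have hkey : A d.q + d.p = 0 := by
    have h1 := hjac y0 (d.G.Hc.J y0)
    rw [hexp, hexp] at h1
    rw [d.G.hJ, H.JJ, map_neg, hy0] at h1
    have h2 : (1 + P.mu (H.J (y0 : V)) ^ 2) • (A d.q + d.p) = 0 := by
      have h3 : (2 : ℝ) • ((1 + P.mu (H.J (y0 : V)) ^ 2) • (A d.q + d.p)) = 0 := by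
        rw [← sub_eq_zero] at h1
        rw [← neg_eq_zero, ← h1]
        module
      rcases smul_eq_zero.mp h3 with h | h
      · norm_num at h
      · exact h
    rcases smul_eq_zero.mp h2 with h | h
    · nlinarith [sq_nonneg (P.mu (H.J (y0 : V)))]
    · exact h
  have hAq : A d.q = -d.p := eq_neg_of_add_eq_zero_left hkey
  have hAp : A d.p = d.q := by
    have h1 := hAA _ d.qm
    rw [hAq, map_neg] at h1
    exact neg_inj.mp h1
  -- `J`-linearity
  have hJc : ∀ y : d.G.c, ∀ w ∈ P.pl, H.br (y : V) (H.J w) = H.J (H.br (y : V) w) := by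
    intro y w hw
    rw [← d.sp] at hw
    obtain ⟨s, t, rfl⟩ := Submodule.mem_span_pair.mp hw
    have e1 : H.br (y : V) (H.J d.p) = H.J (H.br (y : V) d.p) := by
      rw [fp, hbr _ _ d.pm, hAp, sub_self, smul_zero, sub_zero, map_smul]
    have e2 : H.br (y : V) (H.J d.q) = H.J (H.br (y : V) d.q) := by
      rw [fq, hbr _ _ d.qm, hkey, smul_zero, sub_zero, hAq, map_smul, map_neg, smul_neg]
    simp only [map_add, map_smul, e1, e2]
  have hJall : ∀ x, ∀ w ∈ P.pl, H.br x (H.J w) = H.J (H.br x w) := by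
    intro x w hw
    obtain ⟨u', hu', w', hw', y, rfl⟩ := d.G.ex x
    have a1 : H.br u' (H.J w) = 0 := by
      rw [H.anti, ((hP w hw).2.2.2.2 u' hu').2.1, neg_zero]
    have a2 := ((hP u' hu').2.2.2.2 w hw).1
    have a3 := ((hP w' hw').2.2.2.2 w hw).2.1
    have a4 := ((hP w' hw').2.2.2.2 w hw).2.2
    simp only [map_add, LinearMap.add_apply, a1, a2, a3, a4, hJc y w hw, map_zero]
  refine ⟨P.pl ⊔ P.pl.map H.J, ?_, ?_⟩
  · intro h
    have h1 : P.u1 ∈ P.pl ⊔ P.pl.map H.J :=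
      Submodule.mem_sup_left (Submodule.subset_span (by simp))
    rw [h, Submodule.mem_bot] at h1
    have h2 := P.ind.ne_zero 0
    simp only [Matrix.cons_val_zero] at h2
    exact h2 h1
  · have hmem : ∀ z, z ∈ P.pl ⊔ P.pl.map H.J ↔ ∃ u ∈ P.pl, ∃ w ∈ P.pl, z = u + H.J w := by
      intro z
      rw [Submodule.mem_sup]
      constructor
      · rintro ⟨u, hu, v, hv, rfl⟩
        obtain ⟨w, hw, rfl⟩ := Submodule.mem_map.mp hv
        exact ⟨u, hu, w, hw, rfl⟩
      · rintro ⟨u, hu, w, hw, rfl⟩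
        exact ⟨u, hu, H.J w, Submodule.mem_map_of_mem hw, rfl⟩
    refine ⟨?_, ?_, ?_, ?_, ?_⟩
    · intro x hx
      obtain ⟨u, hu, w, hw, rfl⟩ := (hmem x).mp hx
      rw [hmem]
      refine ⟨-w, P.pl.neg_mem hw, u, hu, ?_⟩
      rw [map_add, H.JJ]
      abel
    · intro x z hz
      obtain ⟨u, hu, w, hw, rfl⟩ := (hmem z).mp hz
      rw [hmem]
      refine ⟨H.br x u, d.G.idl x u hu, H.br x w, d.G.idl x w hw, ?_⟩
      rw [map_add, hJall x w hw]
    · intro z hz z' hz'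
      obtain ⟨u, hu, w, hw, rfl⟩ := (hmem z).mp hz
      obtain ⟨u', hu', w', hw', rfl⟩ := (hmem z').mp hz'
      have b1 := ((hP u hu).2.2.2.2 u' hu').1
      have b2 := ((hP w hw).2.2.2.2 u' hu').2.1
      have b3 := ((hP w hw).2.2.2.2 w' hw').2.2
      have b4 : H.br u (H.J w') = 0 := by
        rw [H.anti, ((hP w' hw').2.2.2.2 u hu).2.1, neg_zero]
      simp only [map_add, LinearMap.add_apply, b1, b2, b3, b4, add_zero]
    · intro x z hz
      obtain ⟨u, hu, w, hw, rfl⟩ := (hmem z).mp hz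
      rw [map_add, H.JJ, map_add, map_neg, hJall x u hu, map_add, hJall x w hw, map_add, H.JJ]
    · intro x y z hz
      obtain ⟨u, hu, w, hw, rfl⟩ := (hmem z).mp hz
      rw [map_add, hJall _ w hw, hbr _ u hu, hbr _ w hw, hmubr, zero_smul, zero_smul, map_zero,
        add_zero]

end Pool.Agent.STT
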