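import Pool.Agent.STT.Stmts

set_option autoImplicit false

namespace Pool.Agent.STT

theorem inv_proof : Stmt_INV := by
  intro W _ _ _ b hb M n hn hM w
  let L : W →ₗ[ℝ] W := n • LinearMap.id + M
  have hL : ∀ z, L z = n • z + M z := fun z => rfl
  have hinj : Function.Injective L := by
    rw [injective_iff_map_eq_zero]
    intro z hz
    by_contra hne
    have h1 : b z (M z) = 0 := by
      have := hM z z
      have h2 := hb.symm (M z) z
      linarith
    have h3 : b z (L z) = n * b z z := by
      rw [hL, map_add, map_smul, smul_eq_mul, h1, add_zero]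
    rw [hz, map_zero] at h3
    have h4 := hb.pos z hne
    rcases mul_eq_zero.mp h3.symm with h | h
    · exact hn h
    · linarith
  have hs : Function.Surjective L := LinearMap.injective_iff_surjective.mp hinj
  obtain ⟨z, hz⟩ := hs w
  exact ⟨z, by rw [← hL]; exact hz⟩

end Pool.Agent.STT
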