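import Pool.Agent.STT.Stmts

/-!
# Squad STT, module KAH: the Kaehler form of a flat Kaehler Lie algebra in normal form
-/

set_option autoImplicit false

namespace Pool.Agent.STT

theorem kah_proof : Stmt_KAH := by
  intro V _ _ _ H K
  have hsym : ∀ x y, K.ip x y = K.ip y x := K.ipd.symm
  have hom : ∀ x y, (K.ip ∘ₗ H.J) x y = K.ip (H.J x) y := fun x y => rfl
  have hJs : ∀ x y, K.ip (H.J x) y = - K.ip (H.J y) x := by
    intro x y
    have h := K.ipJ (H.J x) y
    rw [H.JJ, map_neg, LinearMap.neg_apply] at h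
    rw [← h, hsym x (H.J y)]
  have hT : ∀ x y z, K.ip (H.J (K.E x y)) z = K.ip (H.J (K.E x z)) y := by
    intro x y z
    rw [← K.EJ x y, K.ipE x (H.J y) z, hJs y (K.E x z), neg_neg]
  refine ⟨K.ip ∘ₗ H.J, ?_, ?_, ?_, ?_⟩
  · intro x
    rw [hom]
    have h := hJs x x
    linarith
  · intro x y z
    simp only [hom, K.breq, map_sub, LinearMap.sub_apply]
    rw [hT x y z, hT y z x, hT z x y]
    ring
  · intro x y
    rw [hom, hom, K.ipJ]
  · intro x hx
    rw [hom, K.ipJ]
    exact K.ipd.pos x hx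

end Pool.Agent.STT
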