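import Pool.Agent.STT.Stmts

set_option autoImplicit false

namespace Pool.Agent.STT

theorem kfx_proof : Stmt_KFX := by
  intro V _ _ _ H ⟨A, S, hc, hJA, hJS, hAA, hSS, hSA, hSJ, hker⟩
  obtain ⟨PA, hPm, hPA, hPS, hPr⟩ : ∃ PA : V →ₗ[ℝ] V, (∀ x, PA x ∈ A) ∧ (∀ x ∈ A, PA x = x) ∧
      (∀ x ∈ S, PA x = 0) ∧ (∀ x, x - PA x ∈ S) := by
    refine ⟨A.subtype ∘ₗ A.projectionOnto S hc, fun x => (A.projectionOnto S hc x).2,
      ?_, ?_, ?_⟩
    · intro x hx
      have := Submodule.projectionOnto_apply_left hc ⟨x, hx⟩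
      exact congrArg Subtype.val this
    · intro x hx
      have := Submodule.projectionOnto_apply_right hc ⟨x, hx⟩
      exact congrArg Subtype.val this
    · intro x
      have h1 := Submodule.projectionOnto_apply_eq_zero_iff hc
        (x := x - ((A.projectionOnto S hc x : A) : V))
      exact h1.mp (by rw [map_sub, Submodule.projectionOnto_apply_left, sub_self])
  have hPS0 : ∀ x, PA x = 0 → x ∈ S := by
    intro x hx
    have := hPr x
    rwa [hx, sub_zero] at this
  -- J commutes with PA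
  have hPJ : ∀ x, PA (H.J x) = H.J (PA x) := by
    intro x
    have h1 : H.J x = H.J (PA x) + H.J (x - PA x) := by rw [← map_add]; congr 1; abel
    rw [h1, map_add, hPA _ (hJA _ (hPm x)), hPS _ (hJS _ (hPr x)), add_zero]
  let E : V →ₗ[ℝ] V →ₗ[ℝ] V := H.br.compl₁₂ (LinearMap.id - PA) PA
  have hE : ∀ x y, E x y = H.br (x - PA x) (PA y) := fun x y => rfl
  have hEm : ∀ x y, E x y ∈ A := fun x y => hSA _ (hPr x) _ (hPm y)
  have hEJ : ∀ x y, E x (H.J y) = H.J (E x y) := by
    intro x y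
    rw [hE, hE, hPJ, hSJ _ (hPr x) _ (hPm y)]
  -- skewness on A
  have hsk : ∀ s ∈ S, ∀ a ∈ A, ∀ b ∈ A, H.g (H.br s a) b = - H.g a (H.br s b) := by
    have h0 : ∀ s ∈ S, ∀ a ∈ A, ∀ b ∈ A, H.Om (H.br s a) b + H.Om a (H.br s b) = 0 := by
      intro s hs a ha b hb
      have h1 := H.closed s a b
      rw [hAA a ha b hb, map_zero, LinearMap.zero_apply, add_zero, H.anti b s, map_neg,
        LinearMap.neg_apply] at h1
      rw [H.oanti a (H.br s b)]
      linarith
    intro s hs a ha b hb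
    have h1 := h0 s hs a ha (H.J b) (hJA b hb)
    have h2 := h0 s hs b hb (H.J a) (hJA a ha)
    rw [hSJ s hs b hb] at h1
    rw [hSJ s hs a ha] at h2
    rw [H.g_apply, H.g_apply]
    linarith
  let ip : V →ₗ[ℝ] V →ₗ[ℝ] ℝ := (1 / 2 : ℝ) • (H.g.compl₁₂ PA PA
    + H.g.compl₁₂ (LinearMap.id - PA) (LinearMap.id - PA))
  have hip : ∀ x y, ip x y = (H.g (PA x) (PA y) + H.g (x - PA x) (y - PA y)) / 2 := by
    intro x y
    change (1 / 2 : ℝ) • (H.g (PA x) (PA y) + H.g (x - PA x) (y - PA y)) = _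
    rw [smul_eq_mul]; ring
  have hpp : ∀ x, PA (PA x) = PA x := fun x => hPA _ (hPm x)
  refine ⟨{ PA := PA, E := E, ip := ip, pp := hpp, pJ := hPJ, breq := ?_, EPl := ?_, EPr := ?_,
            PE := ?_, EJ := hEJ, Ec := ?_, ipd := ⟨?_, ?_⟩, ipJ := ?_, ipE := ?_, ipP := ?_,
            ipA := ?_, ipS := ?_, ker := ?_ }⟩
  · intro x y
    rw [hE, hE]
    have hx : x = PA x + (x - PA x) := by abel
    have hy : y = PA y + (y - PA y) := by abel
    conv_lhs => rw [hx, hy]
    simp only [map_add, LinearMap.add_apply]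
    rw [hAA _ (hPm x) _ (hPm y), hSS _ (hPr x) _ (hPr y), H.anti (PA x) (y - PA y)]
    abel
  · intro x y
    rw [hE, hpp, sub_self, map_zero, LinearMap.zero_apply]
  · intro x y
    rw [hE, hE, hpp]
  · intro x y
    exact hPA _ (hEm x y)
  · intro x y z
    rw [hE x, hE y, hE y, hE x, hPA _ (hSA _ (hPr y) _ (hPm z)), hPA _ (hSA _ (hPr x) _ (hPm z)),
      H.jac, hSS _ (hPr x) _ (hPr y), map_zero, LinearMap.zero_apply, zero_add]
  · intro x y
    rw [hip, hip, H.g_symm (PA x), H.g_symm (x - PA x)]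
  · intro x hx
    rw [hip]
    by_cases h1 : PA x = 0
    · rw [h1, map_zero, sub_zero]
      have := H.g_pos x hx
      linarith
    · have h2 := H.g_pos _ h1
      have h3 : 0 ≤ H.g (x - PA x) (x - PA x) := by
        by_cases h4 : x - PA x = 0
        · rw [h4]; simp
        · exact (H.g_pos _ h4).le
      linarith
  · intro x y
    rw [hip, hip, hPJ, hPJ, ← map_sub, ← map_sub, H.g_J, H.g_J]
  · intro x y z
    rw [hip, hip, hPA _ (hEm x y), hPA _ (hEm x z), sub_self, sub_self, map_zero, map_zero,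
      LinearMap.zero_apply, add_zero, add_zero, hE, hE, hsk _ (hPr x) _ (hPm y) _ (hPm z)]
    ring
  · intro x y
    rw [hip, hip, hpp, hpp, sub_self, sub_self, map_zero, map_zero, LinearMap.zero_apply]
  · intro x y hx hy
    rw [hip, hx, hy, sub_self, sub_self, map_zero]
    ring
  · intro x y hx hy
    rw [hip, hx, hy, sub_zero, sub_zero, map_zero]
    ring
  · intro y hy
    apply hker _ (hPm y)
    intro s hs
    have := hy s
    rwa [hE, hPS s hs, sub_zero] at this

end Pool.Agent.STT
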