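import Pool.Agent.STT.Stmts

/-!
# Squad STT, module LBR: the weight of a line ideal vanishes on the line and on brackets
-/

set_option autoImplicit false

namespace Pool.Agent.STT

theorem lbr_proof : Stmt_LBR := by
  intro V _ _ H v lam0 hv h
  refine ⟨?_, ?_⟩
  · have h1 := h v
    rw [H.skew v] at h1
    rcases smul_eq_zero.mp h1.symm with h2 | h2
    · exact h2
    · exact absurd h2 hv
  · intro x y
    have h1 := H.jac x y v
    rw [h y, h x, h (H.br x y), map_smul, map_smul, h x, h y, smul_smul, smul_smul,
      mul_comm (lam0 x) (lam0 y)] at h1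
    have h2 : lam0 (H.br x y) • v = 0 := by
      have h3 : lam0 (H.br x y) • v + (lam0 y * lam0 x) • v = 0 + (lam0 y * lam0 x) • v := by
        rw [zero_add]; exact h1.symm
      exact add_right_cancel h3
    rcases smul_eq_zero.mp h2 with h3 | h3
    · exact h3
    · exact absurd h3 hv

end Pool.Agent.STT
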