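import Pool.Agent.STT.Stmts

/-!
# Squad STT, module N2B
-/

set_option autoImplicit false

namespace Pool.Agent.STT

theorem n2b_proof (n2a : Stmt_N2A) (spn : Stmt_SPN) : Stmt_N2B := by
  intro V _ _ _ H K R hnu s y hs hy
  -- `[s, z] = E s z`
  have hbs : ∀ z, H.br s z = K.E s z := by
    intro z
    have h : K.E z s = 0 := by rw [← K.EPr z s, hs, map_zero]
    rw [K.breq, h, sub_zero]
  -- `mu y = 0`
  have hE : ∀ x z, K.E x z ∈ LinearMap.ker R.mu := by
    intro x z
    have h1 : H.br (x - K.PA x) (K.PA z) = K.E x z := by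
      rw [K.breq, map_sub, LinearMap.sub_apply, K.EPl, K.EPl, K.EPr]
      simp
    rw [LinearMap.mem_ker, ← h1, R.mubr]
  have hmy : R.mu y = 0 := by
    have h := spn V H K (LinearMap.ker R.mu) hE y
    rw [hy] at h
    exact h
  -- brackets of elements of `A`
  have hAA : ∀ a, K.PA a = a → H.br a y = 0 := by
    intro a ha
    have h1 : K.E a y = 0 := by rw [← ha, K.EPl]
    have h2 : K.E y a = 0 := by rw [← hy, K.EPl]
    rw [K.breq, h1, h2, sub_zero]
  obtain ⟨-, -, hp, hq⟩ := n2a V H K R hnu s s hs hs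
  have e1 := R.e1p s y
  have e2 := R.e1q s y
  rw [hbs y, hbs (R.Dp y), hAA _ hp, hmy, hnu] at e1
  rw [hbs y, hbs (R.Dq y), hAA _ hq, hmy, hnu] at e2
  simp only [LinearMap.zero_apply, zero_smul, zero_sub, sub_zero, add_zero, zero_add] at e1 e2
  constructor
  · rw [e1]; abel
  · rw [e2]; abel

end Pool.Agent.STT
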