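import Pool.Agent.STT.Stmts

/-!
# MP_e0fc50_gt (Streets-Tian): module N2C
-/

set_option autoImplicit false

namespace Pool.Agent.STT

namespace N2CAux

variable {V : Type} [AddCommGroup V] [Module ℝ V] {H : HS V}

theorem E_eq (K : KF H) (x y : V) : H.br (x - K.PA x) (K.PA y) = K.E x y := by
  rw [K.breq, map_sub, LinearMap.sub_apply, K.EPr, K.EPl, K.EPl, sub_zero, sub_zero]

theorem EA (K : KF H) {y : V} (hy : K.PA y = y) (w : V) : K.E y w = 0 := by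
  rw [← hy, K.EPl]

/-- one complex linear map `D` with `[D y1, y2] + [y1, D y2] = 0` on `A` -/
theorem key (hSKL : Stmt_SKL) (K : KF H) (D : V →ₗ[ℝ] V) (hDJ : ∀ y, D (H.J y) = H.J (D y))
    (hD : ∀ y1 y2, K.PA y1 = y1 → K.PA y2 = y2 → H.br (D y1) y2 + H.br y1 (D y2) = 0)
    (y : V) (hy : K.PA y = y) (w : V) : K.E (D y) w = 0 ∧ K.E (H.J (D y)) w = 0 := by
  have hs : ∀ y1 y2, K.PA y1 = y1 → K.PA y2 = y2 → K.E (D y1) y2 = K.E (D y2) y1 := by
    intro y1 y2 h1 h2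
    have h := hD y1 y2 h1 h2
    rw [K.breq, K.breq, EA K h2, EA K h1, sub_zero, zero_sub] at h
    exact add_neg_eq_zero.mp h
  have hJy : K.PA (H.J y) = H.J y := by rw [K.pJ, hy]
  have hF : ∀ x, K.E (H.J (D y)) x = H.J (K.E (D y) x) := by
    intro x
    have hx : K.PA (K.PA x) = K.PA x := K.pp x
    rw [← K.EPr (H.J (D y)) x, ← hDJ, hs (H.J y) (K.PA x) hJy hx, K.EJ,
      ← hs y (K.PA x) hy hx, K.EPr]
  have hJs : ∀ x z, K.ip (H.J x) z = - K.ip x (H.J z) := by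
    intro x z
    rw [← K.ipJ (H.J x) z, H.JJ, map_neg, LinearMap.neg_apply]
  exact hSKL V K.ip K.ipd (K.E (D y)) (K.E (H.J (D y))) H.J (fun a b => K.ipE _ a b)
    (fun a b => K.ipE _ a b) hJs H.JJ (fun x => K.Ec _ _ x) (fun x => K.EJ _ x)
    (fun x => K.EJ _ x) w (hF w)

end N2CAux

open N2CAux

theorem n2c_proof (hSKL : Stmt_SKL) (hSPN : Stmt_SPN) : Stmt_N2C := by
  intro V _ _ _ H K R hnu y hy w
  have mA : ∀ y, K.PA y = y → R.mu y = 0 := by
    intro y hy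
    have := hSPN V H K (LinearMap.ker R.mu) (by
      intro x y
      rw [LinearMap.mem_ker, ← E_eq K x y]
      exact R.mubr _ _) y
    rw [hy] at this
    exact LinearMap.mem_ker.mp this
  have b0 : ∀ y1 y2, K.PA y1 = y1 → K.PA y2 = y2 → H.br y1 y2 = 0 := by
    intro y1 y2 h1 h2
    rw [K.breq, EA K h1, EA K h2, sub_zero]
  have hp : ∀ y1 y2, K.PA y1 = y1 → K.PA y2 = y2 → H.br (R.Dp y1) y2 + H.br y1 (R.Dp y2) = 0 := by
    intro y1 y2 h1 h2
    have h := R.e1p y1 y2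
    rw [b0 y1 y2 h1 h2, hnu, mA y1 h1, mA y2 h2, map_zero] at h
    simp only [LinearMap.zero_apply, zero_smul, sub_zero, zero_add] at h
    exact h.symm
  have hq : ∀ y1 y2, K.PA y1 = y1 → K.PA y2 = y2 → H.br (R.Dq y1) y2 + H.br y1 (R.Dq y2) = 0 := by
    intro y1 y2 h1 h2
    have h := R.e1q y1 y2
    rw [b0 y1 y2 h1 h2, hnu, mA y1 h1, mA y2 h2, map_zero] at h
    simp only [LinearMap.zero_apply, zero_smul, add_zero, sub_zero, zero_add] at h
    exact h.symm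
  obtain ⟨h1, h2⟩ := key hSKL K R.Dp R.DpJ hp y hy w
  obtain ⟨h3, h4⟩ := key hSKL K R.Dq R.DqJ hq y hy w
  exact ⟨h1, h2, h3, h4⟩

end Pool.Agent.STT
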