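import Pool.Agent.STT.Stmts

set_option autoImplicit false

namespace Pool.Agent.STT

theorem n2e_proof (hN2A : Stmt_N2A) (hSPN : Stmt_SPN) : Stmt_N2E := by
  intro V _ _ _ H K R hnu hA
  have hmuA : ∀ y, R.mu (K.PA y) = 0 := by
    intro y
    have := hSPN V H K (LinearMap.ker R.mu) (by
      intro x z
      rw [LinearMap.mem_ker]
      have h := R.mubr (x - K.PA x) (K.PA z)
      rw [K.breq, K.EPl, sub_zero, K.EPr, map_sub K.E x (K.PA x), LinearMap.sub_apply, K.EPl,
        sub_zero] at h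
      exact h) y
    exact LinearMap.mem_ker.mp this
  have key : ∀ t, K.PA t = 0 → R.Dp t = 0 ∧ R.Dq t = 0 := by
    intro t ht
    obtain ⟨h1, h2, h3, h4⟩ := hN2A V H K R hnu t t ht ht
    have hEa : ∀ a, K.PA a = a → H.br t a = K.E t a := by
      intro a ha
      rw [K.breq, ← ha, K.EPl, sub_zero]
    have ha1 : K.PA (H.J (R.Dp t)) = H.J (R.Dp t) := by rw [K.pJ, h3]
    have ha2 : K.PA (H.J (R.Dq t)) = H.J (R.Dq t) := by rw [K.pJ, h4]
    have hm1 : R.mu (H.J (R.Dp t)) = 0 := by rw [← ha1]; exact hmuA _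
    have hm2 : R.mu (H.J (R.Dq t)) = 0 := by rw [← ha2]; exact hmuA _
    have hnu0 : ∀ x, R.nu x = 0 := by intro x; rw [hnu]; rfl
    have e1 := R.e2p t (H.J (R.Dp t))
    have e2 := R.e2q t (H.J (R.Dq t))
    rw [hEa _ ha1, K.EJ, h1, (hA _ ha1).1, hm1, hnu0, hnu0] at e1
    rw [hEa _ ha2, K.EJ, h2, (hA _ ha2).2, hm2, hnu0, hnu0] at e2
    simp only [map_zero, map_smul, map_neg, smul_eq_mul] at e1 e2
    have e3 := R.e3 t (H.J t)
    rw [hnu0, hnu0, hnu0, hnu0, R.DpJ, R.DqJ] at e3
    have tpanti : ∀ x y, R.tp x y = - R.tp y x := by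
      intro x y
      have h := R.tpalt (x + y)
      simp only [map_add, LinearMap.add_apply, R.tpalt, zero_add, add_zero] at h
      linarith
    have tqanti : ∀ x y, R.tq x y = - R.tq y x := by
      intro x y
      have h := R.tqalt (x + y)
      simp only [map_add, LinearMap.add_apply, R.tqalt, zero_add, add_zero] at h
      linarith
    have f1 : R.tp (R.Dp t) (H.J t) = R.tp t (H.J (R.Dp t)) := by
      have h := R.tpJ (R.Dp t) (H.J t)
      rw [H.JJ, map_neg, tpanti (H.J (R.Dp t)) t, neg_neg] at h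
      exact h.symm
    have f2 : R.tq (R.Dq t) (H.J t) = R.tq t (H.J (R.Dq t)) := by
      have h := R.tqJ (R.Dq t) (H.J t)
      rw [H.JJ, map_neg, tqanti (H.J (R.Dq t)) t, neg_neg] at h
      exact h.symm
    have hsum : H.Om (R.Dp t) (H.J (R.Dp t)) + H.Om (R.Dq t) (H.J (R.Dq t)) = 0 := by
      rw [f1, f2] at e3
      linarith
    have hp : 0 ≤ H.Om (R.Dp t) (H.J (R.Dp t)) := by
      by_cases h : R.Dp t = 0
      · rw [h]; simp
      · exact (H.tame _ h).le
    have hq : 0 ≤ H.Om (R.Dq t) (H.J (R.Dq t)) := by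
      by_cases h : R.Dq t = 0
      · rw [h]; simp
      · exact (H.tame _ h).le
    constructor
    · by_contra h
      have := H.tame _ h
      linarith
    · by_contra h
      have := H.tame _ h
      linarith
  have hs : ∀ x, K.PA (x - K.PA x) = 0 := by
    intro x
    rw [map_sub, K.pp, sub_self]
  constructor
  · apply LinearMap.ext
    intro x
    have h1 := (hA (K.PA x) (K.pp x)).1
    have h2 := (key _ (hs x)).1
    rw [map_sub, h1, sub_zero] at h2
    simpa using h2
  · apply LinearMap.ext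
    intro x
    have h1 := (hA (K.PA x) (K.pp x)).2
    have h2 := (key _ (hs x)).2
    rw [map_sub, h1, sub_zero] at h2
    simpa using h2

end Pool.Agent.STT
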