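import Pool.Agent.STT.Stmts

set_option autoImplicit false

namespace Pool.Agent.STT

namespace NRMAux

open Finset

/-- an invariant subspace of a normal operator is invariant under the adjoint -/
theorem invAdj {E : Type} [NormedAddCommGroup E] [InnerProductSpace ℝ E] [FiniteDimensional ℝ E]
    (N N' : E →ₗ[ℝ] E) (h : ∀ x y, inner ℝ (N x) y = inner ℝ x (N' y))
    (hc : ∀ x, N (N' x) = N' (N x)) (W : Submodule ℝ E) (hW : ∀ w ∈ W, N w ∈ W) :
    ∀ w ∈ W, N' w ∈ W := by
  classical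
  let b := stdOrthonormalBasis ℝ W
  have ho : Orthonormal ℝ (fun i => ((b i : W) : E)) := by
    have h1 := b.orthonormal
    exact h1.comp_linearIsometry W.subtypeₗᵢ
  -- the projection
  let P : E → E := fun x => ∑ i, (inner ℝ ((b i : W) : E) x) • ((b i : W) : E)
  have hPW : ∀ x, P x ∈ W := fun x => Submodule.sum_mem _ fun i _ => W.smul_mem _ (b i).2
  have hb : ∀ i x, inner ℝ ((b i : W) : E) (P x) = inner ℝ ((b i : W) : E) x := by
    intro i x
    exact ho.inner_right_fintype _ i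
  have hPx : ∀ x, inner ℝ (P x) (P x) = ∑ i, (inner ℝ ((b i : W) : E) x) ^ 2 := by
    intro x
    have e1 : inner ℝ (P x) (P x) = ∑ i, (inner ℝ ((b i : W) : E) x) * inner ℝ ((b i : W) : E) (P x) := by
      show inner ℝ (∑ i, (inner ℝ ((b i : W) : E) x) • ((b i : W) : E)) (P x) = _
      rw [sum_inner]
      refine sum_congr rfl fun i _ => ?_
      rw [inner_smul_left]; rfl
    rw [e1]
    refine sum_congr rfl fun i _ => ?_
    rw [hb]; ring
  have hxP : ∀ x, inner ℝ x (P x) = ∑ i, (inner ℝ ((b i : W) : E) x) ^ 2 := by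
    intro x
    show inner ℝ x (∑ i, (inner ℝ ((b i : W) : E) x) • ((b i : W) : E)) = _
    rw [inner_sum]
    refine sum_congr rfl fun i _ => ?_
    rw [inner_smul_right, real_inner_comm]; ring
  have hdef : ∀ x, inner ℝ (x - P x) (x - P x)
      = inner ℝ x x - ∑ i, (inner ℝ ((b i : W) : E) x) ^ 2 := by
    intro x
    rw [inner_sub_left, inner_sub_right, inner_sub_right, hPx, real_inner_comm x (P x), hxP]
    ring
  -- elements of `W` are fixed
  have hfix : ∀ x ∈ W, P x = x := by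
    intro x hx
    have h1 := b.sum_repr (⟨x, hx⟩ : W)
    have h2 := congrArg (Subtype.val) h1
    simp only [Submodule.coe_sum, Submodule.coe_smul] at h2
    rw [← h2]
    show ∑ i, (inner ℝ ((b i : W) : E) _) • ((b i : W) : E) = _
    refine sum_congr rfl fun i _ => ?_
    rw [h2, b.repr_apply_apply]
    rfl
  have h' : ∀ x y, inner ℝ x (N y) = inner ℝ (N' x) y := by
    intro x y
    rw [real_inner_comm, h, real_inner_comm]
  have hnn : ∀ x, inner ℝ (N x) (N x) = inner ℝ (N' x) (N' x) := by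
    intro x
    rw [h, ← hc, h']
  have hsum : ∑ j, inner ℝ (N' ((b j : W) : E) - P (N' ((b j : W) : E)))
      (N' ((b j : W) : E) - P (N' ((b j : W) : E))) = 0 := by
    have e1 : ∀ j, inner ℝ (N ((b j : W) : E)) (N ((b j : W) : E))
        = ∑ i, (inner ℝ ((b i : W) : E) (N ((b j : W) : E))) ^ 2 := by
      intro j
      have h1 := hfix _ (hW _ (b j).2)
      have h2 := hxP (N ((b j : W) : E))
      rwa [h1] at h2
    have e2 : ∑ j, ∑ i, (inner ℝ ((b i : W) : E) (N ((b j : W) : E))) ^ 2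
        = ∑ j, ∑ i, (inner ℝ ((b i : W) : E) (N' ((b j : W) : E))) ^ 2 := by
      rw [sum_comm]
      refine sum_congr rfl fun i _ => sum_congr rfl fun j _ => ?_
      rw [h', real_inner_comm]
    simp only [hdef]
    rw [sum_sub_distrib, ← e2, ← sum_congr rfl fun j _ => (e1 j)]
    rw [← sum_sub_distrib]
    refine sum_eq_zero fun j _ => ?_
    rw [hnn]; ring
  have hzero : ∀ j, N' ((b j : W) : E) ∈ W := by
    intro j
    have h1 := (sum_eq_zero_iff_of_nonneg fun j _ => real_inner_self_nonneg).1 hsum j (mem_univ j)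
    have h2 : N' ((b j : W) : E) - P (N' ((b j : W) : E)) = 0 := inner_self_eq_zero.1 h1
    rw [sub_eq_zero.1 h2]
    exact hPW _
  intro w hw
  have h1 := hfix w hw
  rw [← h1]
  show N' (∑ i, (inner ℝ ((b i : W) : E) w) • ((b i : W) : E)) ∈ W
  rw [map_sum]
  refine Submodule.sum_mem _ fun i _ => ?_
  rw [map_smul]
  exact W.smul_mem _ (hzero i)

theorem invAdjB {E : Type} [AddCommGroup E] [Module ℝ E] [FiniteDimensional ℝ E]
    (B : E →ₗ[ℝ] E →ₗ[ℝ] ℝ) (hs : ∀ x y, B x y = B y x) (hp : ∀ x, x ≠ 0 → 0 < B x x)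
    (N N' : E →ₗ[ℝ] E) (h : ∀ x y, B (N x) y = B x (N' y))
    (hc : ∀ x, N (N' x) = N' (N x)) (W : Submodule ℝ E) (hW : ∀ w ∈ W, N w ∈ W) :
    ∀ w ∈ W, N' w ∈ W := by
  let c : InnerProductSpace.Core ℝ E :=
    { inner := fun x y => B x y
      conj_inner_symm := fun x y => hs y x
      re_inner_nonneg := fun x => by
        by_cases hx : x = 0
        · subst hx; simp
        · exact (hp x hx).le
      add_left := fun x y z => by simp
      smul_left := fun x y r => by simp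
      definite := fun x hx => by
        by_contra hne
        exact (hp x hne).ne' hx }
  letI : NormedAddCommGroup E := c.toNormedAddCommGroup
  letI : InnerProductSpace ℝ E := InnerProductSpace.ofCore c.toCore
  exact invAdj N N' h hc W hW

end NRMAux

theorem nrm_proof : Stmt_NRM := by
  intro V _ _ _ A A1 k X X' J hA1 hks hkp hX hX' hXk hX'k hXX' hJ hJJ h1 h2
  -- restrict everything to `A`
  let XA : A →ₗ[ℝ] A := X.restrict hX
  let XA' : A →ₗ[ℝ] A := X'.restrict hX'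
  let p1 : A × A →ₗ[ℝ] A := LinearMap.fst ℝ A A
  let p2 : A × A →ₗ[ℝ] A := LinearMap.snd ℝ A A
  let N : A × A →ₗ[ℝ] A × A := (XA ∘ₗ p1 + XA' ∘ₗ p2).prod (XA ∘ₗ p2 - XA' ∘ₗ p1)
  let N' : A × A →ₗ[ℝ] A × A := (XA' ∘ₗ p2 - XA ∘ₗ p1).prod (- (XA' ∘ₗ p1) - XA ∘ₗ p2)
  let kA : A →ₗ[ℝ] A →ₗ[ℝ] ℝ := (k.compl₂ A.subtype) ∘ₗ A.subtype
  let B : A × A →ₗ[ℝ] A × A →ₗ[ℝ] ℝ := (kA.compl₂ p1) ∘ₗ p1 + (kA.compl₂ p2) ∘ₗ p2
  have hB : ∀ x y, B x y = k (x.1 : V) (y.1 : V) + k (x.2 : V) (y.2 : V) := fun x y => rfl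
  have hN : ∀ x, N x = (XA x.1 + XA' x.2, XA x.2 - XA' x.1) := fun x => rfl
  have hN' : ∀ x, N' x = (XA' x.2 - XA x.1, - XA' x.1 - XA x.2) := fun x => rfl
  have hXc : ∀ u : A, ((XA u : A) : V) = X u := fun u => rfl
  have hXc' : ∀ u : A, ((XA' u : A) : V) = X' u := fun u => rfl
  have hcomm : ∀ u : A, XA (XA' u) = XA' (XA u) := fun u => Subtype.ext (hXX' u u.2)
  -- the subspace
  let W : Submodule ℝ (A × A) :=
    { carrier := {z | (z.1 : V) ∈ A1 ∧ (z.2 : V) = - J (z.1 : V)}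
      add_mem' := by
        rintro a b ⟨ha1, ha2⟩ ⟨hb1, hb2⟩
        refine ⟨A1.add_mem ha1 hb1, ?_⟩
        show ((a.2 : V) + (b.2 : V)) = - J ((a.1 : V) + (b.1 : V))
        rw [ha2, hb2, map_add]; abel
      zero_mem' := ⟨A1.zero_mem, by
        show ((0 : A) : V) = - J ((0 : A) : V)
        simp⟩
      smul_mem' := by
        rintro c a ⟨ha1, ha2⟩
        refine ⟨A1.smul_mem c ha1, ?_⟩
        show c • (a.2 : V) = - J (c • (a.1 : V))
        rw [ha2, map_smul, smul_neg] }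
  have hWm : ∀ z : A × A, z ∈ W ↔ ((z.1 : V) ∈ A1 ∧ (z.2 : V) = - J (z.1 : V)) := fun z => Iff.rfl
  have hbs : ∀ x y, B x y = B y x := by
    intro x y
    rw [hB, hB, hks, hks (x.2 : V)]
  have hbp : ∀ x, x ≠ 0 → 0 < B x x := by
    intro x hx
    rw [hB]
    have nn : ∀ u : A, 0 ≤ k (u : V) (u : V) := by
      intro u
      by_cases hu : (u : V) = 0
      · rw [hu]; simp
      · exact (hkp u u.2 hu).le
    by_cases hx1 : x.1 = 0
    · have hx2 : x.2 ≠ 0 := fun h => hx (Prod.ext hx1 h)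
      have : 0 < k (x.2 : V) (x.2 : V) := hkp _ x.2.2 (fun h => hx2 (Subtype.ext h))
      have := nn x.1
      linarith
    · have : 0 < k (x.1 : V) (x.1 : V) := hkp _ x.1.2 (fun h => hx1 (Subtype.ext h))
      have := nn x.2
      linarith
  have hadj : ∀ x y, B (N x) y = B x (N' y) := by
    intro x y
    rw [hB, hB, hN, hN']
    simp only [Submodule.coe_add, Submodule.coe_sub, Submodule.coe_neg, hXc, hXc', map_add, map_sub,
      map_neg, LinearMap.add_apply, LinearMap.sub_apply]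
    rw [hXk _ x.1.2 _ y.1.2, hX'k _ x.2.2 _ y.1.2, hXk _ x.2.2 _ y.2.2, hX'k _ x.1.2 _ y.2.2]
    ring
  have hNN : ∀ x, N (N' x) = N' (N x) := by
    intro x
    rw [hN, hN', hN', hN]
    simp only [map_add, map_sub, map_neg, hcomm]
    refine Prod.ext ?_ ?_ <;> simp only [] <;> abel
  have hWN : ∀ w ∈ W, N w ∈ W := by
    intro w hw
    obtain ⟨hw1, hw2⟩ := (hWm w).1 hw
    rw [hWm, hN]
    have a1 := h1 _ hw1
    have a2 := h2 _ hw1
    have a3 := hJ _ a1
    have a4 := hJJ _ a1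
    simp only [Submodule.coe_add, Submodule.coe_sub, hXc, hXc', hw2, map_neg]
    -- the first component is `X u - X' (J u)`
    have e1 : X (w.1 : V) + - X' (J (w.1 : V)) = - J (X' (w.1 : V) + X (J (w.1 : V))) := by
      rw [← a2]; abel
    constructor
    · rw [e1]; exact A1.neg_mem a3
    · rw [e1, map_neg, a4]; abel
  intro u hu
  have key := NRMAux.invAdjB B hbs hbp N N' hadj hNN W hWN
  let z : A × A := (⟨u, hA1 hu⟩, ⟨- J u, A.neg_mem (hA1 (hJ u hu))⟩)
  have hz : z ∈ W := (hWm z).2 ⟨hu, rfl⟩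
  have hz' := (hWm _).1 (key z hz)
  rw [hN'] at hz'
  obtain ⟨b1, b2⟩ := hz'
  have c1 : X' (- J u) - X u ∈ A1 := b1
  have c2 : - X' u - X (- J u) = - J (X' (- J u) - X u) := b2
  rw [map_neg] at c1 c2
  rw [map_neg] at c2
  have a1 := h1 u hu
  have a2 := h2 u hu
  have a3 := hJ _ a1
  -- `X u = -((−X'(Ju) − Xu) + (X'(Ju) − Xu)) / 2`
  have d1 : (2 : ℝ) • X u ∈ A1 := by
    have : (2 : ℝ) • X u = - (- X' (J u) - X u) - (X' (J u) - X u) := by
      rw [two_smul]; abel
    rw [this, a2]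
    exact A1.sub_mem (A1.neg_mem c1) a3
  have d2 : X u ∈ A1 := by
    have := A1.smul_mem (1 / 2 : ℝ) d1
    rwa [smul_smul, show (1 / 2 : ℝ) * 2 = 1 by norm_num, one_smul] at this
  refine ⟨d2, ?_⟩
  have a4 := hJJ _ a1
  have e1 : J (X' (J u) - X u) = - (X' u + X (J u)) := by rw [a2, a4]
  rw [map_sub] at e1
  have e2 : X' u - X (J u) = J (- X' (J u) - X u) := by
    have := congrArg Neg.neg c2
    rw [neg_neg] at this
    rw [← this]; abel
  rw [map_sub, map_neg] at e2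
  -- add
  have e3 : (2 : ℝ) • X (J u) = (2 : ℝ) • J (X u) := by
    have : (2 : ℝ) • X (J u) = - (- (X' u + X (J u))) - (X' u - X (J u)) := by
      rw [two_smul]; abel
    rw [this, ← e1, e2, two_smul]; abel
  have e4 := congrArg (fun v => (1 / 2 : ℝ) • v) e3
  simp only [smul_smul] at e4
  norm_num at e4
  exact e4

end Pool.Agent.STT
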