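import Pool.Agent.STT.Stmts

/-! # Module PQX: the basis `p, q = R^* p` of the plane of a pair -/

set_option autoImplicit false

namespace Pool.Agent.STT

theorem pqx_proof : Stmt_PQX := by
  intro V _ _ _ H P
  obtain ⟨h11, e11⟩ : ∃ r, r = H.Om P.u1 (H.J P.u1) := ⟨_, rfl⟩
  obtain ⟨h12, e12⟩ : ∃ r, r = H.Om P.u1 (H.J P.u2) := ⟨_, rfl⟩
  obtain ⟨h21, e21⟩ : ∃ r, r = H.Om P.u2 (H.J P.u1) := ⟨_, rfl⟩
  obtain ⟨h22, e22⟩ : ∃ r, r = H.Om P.u2 (H.J P.u2) := ⟨_, rfl⟩
  have hind := LinearIndependent.pair_iff.mp P.ind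
  have hval : ∀ s t : ℝ, H.Om (s • P.u1 + t • P.u2) (H.J (s • P.u1 + t • P.u2))
      = s * s * h11 + s * t * (h12 + h21) + t * t * h22 := by
    intro s t
    simp only [map_add, map_smul, LinearMap.add_apply, LinearMap.smul_apply, smul_eq_mul,
      ← e11, ← e12, ← e21, ← e22]
    ring
  have hpos : ∀ s t : ℝ, (s ≠ 0 ∨ t ≠ 0) →
      0 < s * s * h11 + s * t * (h12 + h21) + t * t * h22 := by
    intro s t hst
    rw [← hval s t]
    apply H.tame
    intro h0
    obtain ⟨h1, h2⟩ := hind s t h0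
    rcases hst with h | h
    · exact h h1
    · exact h h2
  have p11 : 0 < h11 := by
    have := hpos 1 0 (Or.inl one_ne_zero)
    simpa using this
  have pm : 0 < h11 * (4 * (h11 * h22) - (h12 + h21) * (h12 + h21)) := by
    have hne : (-2 * h11 : ℝ) ≠ 0 := by
      have : (0 : ℝ) < 2 * h11 := by linarith
      intro h; linarith
    have := hpos (h12 + h21) (-2 * h11) (Or.inr hne)
    nlinarith [this]
  have pm' : 0 < 4 * (h11 * h22) - (h12 + h21) * (h12 + h21) := (mul_pos_iff_of_pos_left p11).mp pm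
  have hdet : 0 < h11 * h22 - h12 * h21 := by nlinarith [sq_nonneg (h12 - h21), pm']
  obtain ⟨d, hd⟩ : ∃ d, d = h11 * h22 - h12 * h21 := ⟨_, rfl⟩
  have hd0 : d ≠ 0 := by rw [hd]; exact ne_of_gt hdet
  obtain ⟨α, hα⟩ : ∃ α, α = (h21 * h22 + h12 * h11) / d := ⟨_, rfl⟩
  obtain ⟨β, hβ⟩ : ∃ β, β = -(h11 * h11 + h21 * h21) / d := ⟨_, rfl⟩
  have hβ0 : β ≠ 0 := by
    rw [hβ]
    apply div_ne_zero _ hd0
    have : 0 < h11 * h11 + h21 * h21 := by nlinarith [mul_pos p11 p11, mul_self_nonneg h21]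
    intro h; linarith
  have E1 : α * h11 + β * h12 = h21 := by
    rw [hα, hβ]; field_simp; rw [hd]; ring
  have E2 : α * h21 + β * h22 = -h11 := by
    rw [hα, hβ]; field_simp; rw [hd]; ring
  have hp : ∀ s t : ℝ, H.Om (s • P.u1 + t • P.u2) (H.J P.u1) = s * h11 + t * h21 := by
    intro s t
    simp only [map_add, map_smul, LinearMap.add_apply, LinearMap.smul_apply, smul_eq_mul,
      ← e11, ← e21]
  have hq : ∀ s t : ℝ, H.Om (s • P.u1 + t • P.u2) (H.J (α • P.u1 + β • P.u2))
      = s * h21 - t * h11 := by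
    intro s t
    simp only [map_add, map_smul, LinearMap.add_apply, LinearMap.smul_apply, smul_eq_mul,
      ← e11, ← e12, ← e21, ← e22]
    have : α * (s * h11 + t * h21) + β * (s * h12 + t * h22)
        = s * (α * h11 + β * h12) + t * (α * h21 + β * h22) := by ring
    rw [this, E1, E2]; ring
  have hbr : ∀ (x : V) (s t : ℝ), H.br x (s • P.u1 + t • P.u2)
      = (s * P.nu x + t * P.mu x) • P.u1 + (t * P.nu x - s * P.mu x) • P.u2 := by
    intro x s t
    rw [map_add, map_smul, map_smul, P.h1, P.h2]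
    module
  have m1 : P.u1 ∈ P.pl := Submodule.subset_span (by simp)
  have m2 : P.u2 ∈ P.pl := Submodule.subset_span (by simp)
  refine ⟨P.u1, m1, α • P.u1 + β • P.u2,
    Submodule.add_mem _ (Submodule.smul_mem _ _ m1) (Submodule.smul_mem _ _ m2), ?_, ?_, ?_⟩
  · apply le_antisymm
    · rw [Submodule.span_le]
      intro z hz
      rcases hz with rfl | hz
      · exact m1
      · rw [Set.mem_singleton_iff] at hz
        rw [hz]
        exact Submodule.add_mem _ (Submodule.smul_mem _ _ m1) (Submodule.smul_mem _ _ m2)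
    · unfold Pair.pl
      rw [Submodule.span_le]
      intro z hz
      rcases hz with rfl | hz
      · exact Submodule.subset_span (by simp)
      · rw [Set.mem_singleton_iff] at hz
        rw [hz]
        have hu2 : P.u2 = (-(β⁻¹ * α)) • P.u1 + β⁻¹ • (α • P.u1 + β • P.u2) := by
          rw [smul_add, smul_smul, smul_smul, inv_mul_cancel₀ hβ0]
          module
        have key : (-(β⁻¹ * α)) • P.u1 + β⁻¹ • (α • P.u1 + β • P.u2)
            ∈ Submodule.span ℝ {P.u1, α • P.u1 + β • P.u2} :=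
          Submodule.add_mem _ (Submodule.smul_mem _ _ (Submodule.subset_span
            (Set.mem_insert _ _))) (Submodule.smul_mem _ _ (Submodule.subset_span
            (Set.mem_insert_of_mem _ rfl)))
        rw [← hu2] at key
        exact key
  · intro x w hw
    obtain ⟨s, t, rfl⟩ := Submodule.mem_span_pair.mp hw
    rw [hbr, hp, hp, hq]; ring
  · intro x w hw
    obtain ⟨s, t, rfl⟩ := Submodule.mem_span_pair.mp hw
    rw [hbr, hq, hp, hq]; ring

end Pool.Agent.STT
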