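import Pool.Agent.STT.Stmts
import Mathlib.Tactic

set_option autoImplicit false

namespace Pool.Agent.STT

namespace PREAux

variable {V : Type} [AddCommGroup V] [Module ℝ V]

/-- the scalar part: all four numbers vanish -/
theorem scal (n1 n2 m1 m2 h11 h12 h21 h22 : ℝ)
    (A1 : m1 * n1 + m2 * n2 = 0) (A2 : m1 * m1 + m2 * m2 - n2 * m1 + n1 * m2 = 0)
    (I1 : (2 * n2 - m1) * h11 - (2 * n1 + m2) * h12 - m2 * h21 + m1 * h22 = 0)
    (I2 : (2 * n2 - m1) * h21 - (2 * n1 + m2) * h22 + m2 * h11 - m1 * h12 = 0)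
    (hp : ∀ s t : ℝ, (s ≠ 0 ∨ t ≠ 0) → 0 < s * s * h11 + s * t * (h12 + h21) + t * t * h22) :
    n1 = 0 ∧ n2 = 0 ∧ m1 = 0 ∧ m2 = 0 := by
  have hh1 : 0 < h11 := by
    have := hp 1 0 (Or.inl one_ne_zero); simpa using this
  have hh2 : 0 < h22 := by
    have := hp 0 1 (Or.inr one_ne_zero); simpa using this
  have hm : m1 * m1 + m2 * m2 = 0 := by
    by_contra hne
    have hM : m1 * m1 + m2 * m2 ≠ 0 := hne
    have e1 : (m1 * m1 + m2 * m2) * (n1 + m2) = 0 := by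
      have : (m1 * m1 + m2 * m2) * (n1 + m2)
        = m1 * (m1 * n1 + m2 * n2) + m2 * (m1 * m1 + m2 * m2 - n2 * m1 + n1 * m2) := by ring
      rw [this, A1, A2]; ring
    have e2 : (m1 * m1 + m2 * m2) * (n2 - m1) = 0 := by
      have : (m1 * m1 + m2 * m2) * (n2 - m1)
        = m2 * (m1 * n1 + m2 * n2) - m1 * (m1 * m1 + m2 * m2 - n2 * m1 + n1 * m2) := by ring
      rw [this, A1, A2]; ring
    have f1 : n1 = - m2 := by
      rcases mul_eq_zero.mp e1 with h | h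
      · exact absurd h hM
      · linarith
    have f2 : n2 = m1 := by
      rcases mul_eq_zero.mp e2 with h | h
      · exact absurd h hM
      · linarith
    rw [f1, f2] at I1 I2
    have e3 : (m1 * m1 + m2 * m2) * (h11 + h22) = 0 := by
      have : (m1 * m1 + m2 * m2) * (h11 + h22)
        = m1 * ((2 * m1 - m1) * h11 - (2 * (-m2) + m2) * h12 - m2 * h21 + m1 * h22)
        + m2 * ((2 * m1 - m1) * h21 - (2 * (-m2) + m2) * h22 + m2 * h11 - m1 * h12) := by ring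
      rw [this, I1, I2]; ring
    rcases mul_eq_zero.mp e3 with h | h
    · exact hM h
    · linarith
  have hm1 : m1 = 0 := by nlinarith [mul_self_nonneg m1, mul_self_nonneg m2]
  have hm2 : m2 = 0 := by nlinarith [mul_self_nonneg m1, mul_self_nonneg m2]
  subst hm1
  subst hm2
  have hn : n1 = 0 ∧ n2 = 0 := by
    by_contra hne
    have h1 : n2 ≠ 0 ∨ -n1 ≠ 0 := by
      by_contra hcon
      push Not at hcon
      exact hne ⟨by linarith [hcon.2], hcon.1⟩
    have h2 := hp n2 (-n1) h1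
    have h3 : n2 * n2 * h11 + n2 * (-n1) * (h12 + h21) + (-n1) * (-n1) * h22 = 0 := by
      have : n2 * n2 * h11 + n2 * (-n1) * (h12 + h21) + (-n1) * (-n1) * h22
        = (n2 * ((2 * n2 - 0) * h11 - (2 * n1 + 0) * h12 - 0 * h21 + 0 * h22)
          - n1 * ((2 * n2 - 0) * h21 - (2 * n1 + 0) * h22 + 0 * h11 - 0 * h12)) / 2 := by ring
      rw [this, I1, I2]; ring
    linarith
  exact ⟨hn.1, hn.2, rfl, rfl⟩

theorem zz (H : HS V) (P : Pair H) (n1' : P.nu P.u1 = 0) (m1' : P.mu P.u1 = 0)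
    (hnu : ∀ x y, P.nu (H.br x y) = 0) (hmu : ∀ x y, P.mu (H.br x y) = 0) :
    P.nu (H.J P.u1) = 0 ∧ P.nu (H.J P.u2) = 0 ∧ P.mu (H.J P.u1) = 0 ∧ P.mu (H.J P.u2) = 0 := by
  have h12 : H.br P.u1 P.u2 = 0 := by
    rw [P.h2, n1', m1', zero_smul, zero_smul, add_zero]
  have hf : H.br (H.J P.u1) (H.J P.u2)
      = (P.mu (H.J P.u1) - P.nu (H.J P.u2)) • H.J P.u1
        + (P.nu (H.J P.u1) + P.mu (H.J P.u2)) • H.J P.u2 := by
    have h := H.nij P.u1 P.u2
    rw [h12, sub_zero, H.anti P.u1 (H.J P.u2), P.h2, P.h1] at h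
    rw [h]
    simp only [map_add, map_sub, map_neg, map_smul]
    module
  have A1 := hnu (H.J P.u1) (H.J P.u2)
  have A2 := hmu (H.J P.u1) (H.J P.u2)
  rw [hf] at A1 A2
  simp only [map_add, map_smul, smul_eq_mul] at A1 A2
  have c1 := H.closed (H.J P.u1) (H.J P.u2) P.u1
  have c2 := H.closed (H.J P.u1) (H.J P.u2) P.u2
  rw [hf, H.anti P.u1 (H.J P.u1), P.h1, P.h1] at c1
  rw [hf, H.anti P.u2 (H.J P.u1), P.h2, P.h2] at c2
  simp only [map_add, map_sub, map_neg, map_smul, LinearMap.add_apply, LinearMap.sub_apply,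
    LinearMap.neg_apply, LinearMap.smul_apply, smul_eq_mul] at c1 c2
  rw [H.oanti (H.J P.u1) P.u1, H.oanti (H.J P.u2) P.u1] at c1
  rw [H.oanti (H.J P.u1) P.u2, H.oanti (H.J P.u2) P.u2] at c2
  refine scal (P.nu (H.J P.u1)) (P.nu (H.J P.u2)) (P.mu (H.J P.u1)) (P.mu (H.J P.u2))
    (H.Om P.u1 (H.J P.u1)) (H.Om P.u1 (H.J P.u2)) (H.Om P.u2 (H.J P.u1)) (H.Om P.u2 (H.J P.u2))
    ?_ ?_ ?_ ?_ ?_
  · linear_combination A1
  · linear_combination A2
  · linear_combination c1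
  · linear_combination c2
  · intro s t hst
    have hne : s • P.u1 + t • P.u2 ≠ 0 := by
      intro h0
      have := (LinearIndependent.pair_iff.mp P.ind) s t h0
      rcases hst with h | h
      · exact h this.1
      · exact h this.2
    have h := H.tame _ hne
    simp only [map_add, map_smul, LinearMap.add_apply, LinearMap.smul_apply, smul_eq_mul] at h
    linarith

end PREAux

open PREAux in
theorem pre_proof (hPBR : Stmt_PBR) : Stmt_PRE := by
  intro V _ _ H P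
  obtain ⟨hnu, hmu, a1, a2, b1, b2⟩ := hPBR V H P
  obtain ⟨n1, n2, m1, m2⟩ := zz H P a1 b1 hnu hmu
  have key : ∀ w ∈ P.pl, P.nu w = 0 ∧ P.mu w = 0 ∧ P.nu (H.J w) = 0 ∧ P.mu (H.J w) = 0 := by
    intro w hw
    obtain ⟨s, t, rfl⟩ := Submodule.mem_span_pair.mp hw
    refine ⟨?_, ?_, ?_, ?_⟩ <;>
      simp only [map_add, map_smul, a1, a2, b1, b2, n1, n2, m1, m2, smul_zero, add_zero]
  have br0 : ∀ x, P.nu x = 0 → P.mu x = 0 → ∀ w' ∈ P.pl, H.br x w' = 0 := by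
    intro x hx hy w' hw'
    obtain ⟨s, t, rfl⟩ := Submodule.mem_span_pair.mp hw'
    rw [map_add, map_smul, map_smul, P.h1, P.h2, hx, hy]
    simp
  intro w hw
  obtain ⟨k1, k2, k3, k4⟩ := key w hw
  refine ⟨k1, k2, k3, k4, ?_⟩
  intro w' hw'
  obtain ⟨l1, l2, l3, l4⟩ := key w' hw'
  have r1 := br0 w k1 k2 w' hw'
  have r2 := br0 (H.J w) k3 k4 w' hw'
  have r3 := br0 (H.J w') l3 l4 w hw
  refine ⟨r1, r2, ?_⟩
  have h := H.nij w w'
  rw [r1, sub_zero, r2, H.anti w (H.J w'), r3, neg_zero, add_zero, map_zero] at h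
  exact h

end Pool.Agent.STT
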