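import Pool.Agent.STT.Stmts
import Mathlib

set_option autoImplicit false

namespace Pool.Agent.STT

theorem rd1_proof (hLBR : Stmt_LBR) (hD1J : Stmt_D1J) (hD1E1 : Stmt_D1E1) (hD1E2 : Stmt_D1E2)
    (hD1E3 : Stmt_D1E3) (hD1C : Stmt_D1C) (hD1T : Stmt_D1T) : Stmt_RD1 := by
  intro V _ _ _ H v lam0 hv hn d
  have hv0 : v ≠ 0 := by
    rintro rfl
    rw [map_zero, map_zero] at hn
    exact zero_ne_one hn
  obtain ⟨l0, lb⟩ := hLBR V H v lam0 hv0 hv
  have hth0 : ∀ x y : d.G.c, lam0 (d.G.th x y) = 0 := by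
    intro x y
    obtain ⟨t, ht⟩ := Submodule.mem_span_singleton.1 (d.G.tha x y)
    rw [← ht, map_smul, l0, smul_zero]
  refine ⟨{ lam := lam0 ∘ₗ d.G.c.subtype
            ell := lam0 (H.J v)
            D := d.D
            th := d.G.th.compr₂ (H.Om.flip (H.J v))
            tau := (H.Om.flip (H.J v)) ∘ₗ d.G.c.subtype
            lbr := ?_
            DJ := ?_
            thalt := ?_
            thJ := ?_
            thc := ?_
            e1 := ?_
            e2 := ?_
            e3 := ?_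
            tr := ?_
            pos := ?_ }, ?_, ?_, ?_, ?_, ?_⟩
  · intro x y
    have h1 := lb (x : V) (y : V)
    rw [d.G.hbr, map_add, hth0, zero_add] at h1
    exact h1
  · exact hD1J V H v lam0 hv hn d
  · intro x
    show H.Om (d.G.th x x) (H.J v) = 0
    rw [d.G.thalt, map_zero, LinearMap.zero_apply]
  · intro x y
    show H.Om (d.G.th (d.G.Hc.J x) (d.G.Hc.J y)) (H.J v) = H.Om (d.G.th x y) (H.J v)
    rw [d.G.thJ]
  · intro x y z
    exact hD1C V H v lam0 hv hn d.G x y z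
  · intro x y
    exact hD1E1 V H v lam0 hv hn d x y
  · intro x y
    exact hD1E2 V H v lam0 hv hn d x y
  · intro x y
    have h := hD1E3 V H v lam0 hv hn d x y
    show H.Om (d.G.th (d.D x) y) (H.J v) + H.Om (d.G.th x (d.D y)) (H.J v)
      = lam0 (H.J v) * H.Om (d.G.th x y) (H.J v)
        + 2 * lam0 ((d.G.Hc.J (d.G.Hc.br x y) : d.G.c) : V)
        - 4 * lam0 (x : V) * lam0 ((d.G.Hc.J y : d.G.c) : V)
        + 4 * lam0 ((d.G.Hc.J x : d.G.c) : V) * lam0 (y : V)
    rw [d.G.hJ, d.G.hJ, d.G.hJ]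
    exact h
  · exact hD1T V H v lam0 hv hn d
  · intro b
    show 0 < 1 + H.Om ((d.G.Hc.J b : d.G.c) : V) (H.J v) + d.G.Hc.Om b (d.G.Hc.J b)
    rw [d.G.hOm, d.G.hJ]
    have hne : H.J v - (b : V) ≠ 0 := by
      intro h
      have h2 := d.G.uniq 0 (Submodule.zero_mem _) v (Submodule.mem_span_singleton_self v) (-b)
        (by rw [zero_add, Submodule.coe_neg, ← sub_eq_add_neg]; exact h)
      exact hv0 h2.2.1
    have ht := H.tame _ hne
    have e : H.Om (H.J v - (b : V)) (H.J (H.J v - (b : V)))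
        = 1 + H.Om (H.J (b : V)) (H.J v) + H.Om (b : V) (H.J (b : V)) := by
      have o1 : H.Om (H.J v) v = - H.Om v (H.J v) := H.oanti _ _
      have o2 : H.Om (H.J v) (H.J (b : V)) = - H.Om (H.J (b : V)) (H.J v) := H.oanti _ _
      have o3 : H.Om (b : V) v = - H.Om v (b : V) := H.oanti _ _
      have o4 : H.Om v (b : V) = 0 := d.G.orth v (Submodule.mem_span_singleton_self v) b
      simp only [map_sub, LinearMap.sub_apply, H.JJ, map_neg]
      rw [o1, o2, o3, o4, hn]
      ring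
    rw [e] at ht
    exact ht
  · intro y; rfl
  · rfl
  · rfl
  · intro x y; rfl
  · intro y; rfl

end Pool.Agent.STT
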