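import Pool.Agent.STT.Stmts

/-!
# MP_e0fc50_gt (Streets-Tian): module RD2
-/

set_option autoImplicit false

namespace Pool.Agent.STT

namespace RD2Aux

variable {V : Type} [AddCommGroup V] [Module ℝ V]

/-- a pair of spanning vectors of the plane consists of nonzero vectors -/
theorem ne_zero {H : HS V} (P : Pair H) (p q : V) (h : Submodule.span ℝ {p, q} = P.pl) :
    p ≠ 0 := by
  intro hp
  have h1 : P.u1 ∈ Submodule.span ℝ {p, q} := by
    rw [h]; exact Submodule.subset_span (by simp)
  have h2 : P.u2 ∈ Submodule.span ℝ {p, q} := by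
    rw [h]; exact Submodule.subset_span (by simp)
  rw [hp, Submodule.mem_span_pair] at h1 h2
  obtain ⟨a, b, hab⟩ := h1
  obtain ⟨a', b', hab'⟩ := h2
  rw [smul_zero, zero_add] at hab hab'
  have hind := P.ind
  rw [LinearIndependent.pair_iff] at hind
  have h3 := hind b' (-b) (by
    rw [← hab, ← hab', smul_smul, smul_smul, ← add_smul]
    have : b' * b + -b * b' = 0 := by ring
    rw [this, zero_smul])
  have hb : b = 0 := by linarith [h3.2]
  have h4 : P.u1 = 0 := by rw [← hab, hb, zero_smul]
  have h5 := hind 1 0 (by rw [h4]; simp)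
  exact one_ne_zero h5.1

theorem posAux {H : HS V} {P : Pair H} (G : DecG H P.pl) (p : V) (hp : p ∈ P.pl) (hp0 : p ≠ 0)
    (b : G.c) : 0 < H.Om p (H.J p) + H.Om ((G.Hc.J b : G.c) : V) (H.J p)
      + G.Hc.Om b (G.Hc.J b) := by
  have hne : H.J p - (b : V) ≠ 0 := by
    intro h0
    have := G.uniq 0 (Submodule.zero_mem _) p hp (-b) (by
      rw [zero_add]
      simpa [sub_eq_add_neg] using h0)
    exact hp0 this.2.1
  have ht := H.tame _ hne
  have ho : H.Om p (b : V) = 0 := G.orth p hp b
  rw [G.hOm, G.hJ]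
  simp only [map_sub, LinearMap.sub_apply, H.JJ, map_neg] at ht
  have e1 := H.oanti (H.J p) p
  have e2 := H.oanti (H.J p) (H.J (b : V))
  have e3 := H.oanti (b : V) p
  linarith

end RD2Aux

theorem rd2_proof (_hPBR : Stmt_PBR) (hPRE : Stmt_PRE) (hD2J : Stmt_D2J) (hD2E1 : Stmt_D2E1)
    (hD2E2 : Stmt_D2E2) (hD2E3 : Stmt_D2E3) (hD2T : Stmt_D2T) (hD2M : Stmt_D2M) : Stmt_RD2 := by
  intro V _ _ _ H P d
  have hp0 : d.p ≠ 0 := RD2Aux.ne_zero P d.p d.q d.sp
  have hq0 : d.q ≠ 0 := RD2Aux.ne_zero P d.q d.p (by rw [Set.pair_comm]; exact d.sp)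
  refine ⟨{ nu := P.nu ∘ₗ d.G.c.subtype
            mu := P.mu ∘ₗ d.G.c.subtype
            Dp := d.Dp
            Dq := d.Dq
            tp := d.G.th.compr₂ (H.Om.flip (H.J d.p))
            tq := d.G.th.compr₂ (H.Om.flip (H.J d.q))
            ap := (H.Om.flip (H.J d.p)) ∘ₗ d.G.c.subtype
            aq := (H.Om.flip (H.J d.q)) ∘ₗ d.G.c.subtype
            Tp := H.Om d.p (H.J d.p)
            Tq := H.Om d.q (H.J d.q)
            mu0 := ?_
            Tp0 := H.tame _ hp0
            Tq0 := H.tame _ hq0
            nubr := ?_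
            mubr := ?_
            DpJ := (hD2J V H P d).1
            DqJ := (hD2J V H P d).2
            tpalt := ?_
            tqalt := ?_
            tpJ := ?_
            tqJ := ?_
            e1p := fun x y => (hD2E1 V H P d x y).1
            e1q := fun x y => (hD2E1 V H P d x y).2
            e2p := fun x y => (hD2E2 V H P d x y).1
            e2q := fun x y => (hD2E2 V H P d x y).2
            e3 := ?_
            comm := hD2M V H P d
            trp := (hD2T V H P d).1
            trq := (hD2T V H P d).2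
            posp := fun b => RD2Aux.posAux d.G d.p d.pm hp0 b
            posq := fun b => RD2Aux.posAux d.G d.q d.qm hq0 b }, fun _ => rfl, fun _ => rfl,
            rfl, rfl⟩
  · intro h0
    apply P.mu0
    ext x
    obtain ⟨u, hu, w, hw, y, rfl⟩ := d.G.ex x
    have h1 := (hPRE V H P u hu).2.1
    have h2 := (hPRE V H P w hw).2.2.2.1
    have h3 : P.mu (y : V) = 0 := by
      have := congrArg (fun f => f y) h0
      simpa using this
    rw [map_add, map_add, h1, h2, h3]
    simp
  · intro x y
    have h1 := (_hPBR V H P).1 (x : V) (y : V)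
    rw [d.G.hbr, map_add, (hPRE V H P _ (d.G.tha x y)).1, zero_add] at h1
    exact h1
  · intro x y
    have h1 := (_hPBR V H P).2.1 (x : V) (y : V)
    rw [d.G.hbr, map_add, (hPRE V H P _ (d.G.tha x y)).2.1, zero_add] at h1
    exact h1
  · intro x
    simp [LinearMap.compr₂_apply, d.G.thalt]
  · intro x
    simp [LinearMap.compr₂_apply, d.G.thalt]
  · intro x y
    simp only [LinearMap.compr₂_apply, d.G.thJ]
  · intro x y
    simp only [LinearMap.compr₂_apply, d.G.thJ]
  · intro x y
    have h := hD2E3 V H P d x y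
    simp only [LinearMap.compr₂_apply, LinearMap.flip_apply, LinearMap.comp_apply,
      Submodule.subtype_apply, d.G.hJ]
    rw [h]

end Pool.Agent.STT
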