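import Pool.Agent.STT.Stmts

/-!
# Squad STT, module RVX: the orthogonal complement of a good ideal
-/

set_option autoImplicit false

namespace Pool.Agent.STT

namespace RVXAux

variable {V : Type} [AddCommGroup V] [Module ℝ V]

/-- `Om` as a map into the dual -/
noncomputable def toD (H : HS V) (V0 : Submodule ℝ V) : V0 →ₗ[ℝ] Module.Dual ℝ V0 :=
  H.Om.compl₁₂ V0.subtype V0.subtype

theorem toD_apply (H : HS V) (V0 : Submodule ℝ V) (u w : V0) :
    toD H V0 u w = H.Om (u : V) (w : V) := rfl

theorem toD_inj (H : HS V) (V0 : Submodule ℝ V) (hj : ∀ x ∈ V0, H.J x ∈ V0) :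
    Function.Injective (toD H V0) := by
  rw [← LinearMap.ker_eq_bot, LinearMap.ker_eq_bot']
  intro u hu
  by_contra hne
  have h := H.tame (u : V) (by simpa using hne)
  have h2 : toD H V0 u ⟨H.J u, hj _ u.2⟩ = 0 := by rw [hu]; rfl
  rw [toD_apply] at h2
  simp only at h2
  linarith

/-- the orthogonal complement -/
def WW (H : HS V) (V0 : Submodule ℝ V) : Submodule ℝ V where
  carrier := {y | ∀ u ∈ V0, H.Om u y = 0}
  zero_mem' := by intro u _; simp
  add_mem' := by
    intro x y hx hy u hu
    rw [map_add, hx u hu, hy u hu, add_zero]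
  smul_mem' := by
    intro t x hx u hu
    rw [map_smul, hx u hu, smul_zero]

theorem mem_WW (H : HS V) (V0 : Submodule ℝ V) (y : V) :
    y ∈ WW H V0 ↔ ∀ u ∈ V0, H.Om u y = 0 := Iff.rfl

theorem surj [FiniteDimensional ℝ V] (H : HS V) (V0 : Submodule ℝ V)
    (hj : ∀ x ∈ V0, H.J x ∈ V0) : Function.Surjective (toD H V0) :=
  (LinearMap.injective_iff_surjective_of_finrank_eq_finrank
    (Subspace.dual_finrank_eq (K := ℝ) (V := V0)).symm).mp (toD_inj H V0 hj)

theorem compl [FiniteDimensional ℝ V] (H : HS V) (V0 : Submodule ℝ V)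
    (hj : ∀ x ∈ V0, H.J x ∈ V0) : IsCompl V0 (WW H V0) := by
  constructor
  · rw [Submodule.disjoint_def]
    intro x hx hW
    by_contra hne
    have h := H.tame x hne
    have h2 := hW (H.J x) (hj x hx)
    rw [H.oanti] at h2
    linarith
  · rw [codisjoint_iff, eq_top_iff]
    intro x _
    obtain ⟨u, hu⟩ := surj H V0 hj (-((H.Om.flip x) ∘ₗ V0.subtype))
    rw [Submodule.mem_sup]
    refine ⟨(u : V), u.2, x - (u : V), ?_, by abel⟩
    intro w hw
    have h1 : H.Om (u : V) w = - H.Om w x := by
      have := congrArg (fun f => f ⟨w, hw⟩) hu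
      simpa [toD_apply] using this
    rw [map_sub, H.oanti w (u : V), h1]
    ring

/-- trace of a skew map -/
theorem tr0 [FiniteDimensional ℝ V] (H : HS V) (V0 : Submodule ℝ V)
    (hj : ∀ x ∈ V0, H.J x ∈ V0) (f : V0 →ₗ[ℝ] V0)
    (hf : ∀ u w : V0, H.Om (f u : V) (w : V) = - H.Om (u : V) (f w : V)) :
    LinearMap.trace ℝ V0 f = 0 := by
  let e : V0 ≃ₗ[ℝ] Module.Dual ℝ V0 :=
    LinearEquiv.ofBijective (toD H V0) ⟨toD_inj H V0 hj, surj H V0 hj⟩
  have he : e.conj f = (-1 : ℝ) • Module.Dual.transpose (R := ℝ) f := by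
    apply LinearMap.ext
    intro φ
    obtain ⟨u, rfl⟩ := e.surjective φ
    rw [LinearEquiv.conj_apply_apply, LinearEquiv.symm_apply_apply]
    apply LinearMap.ext
    intro w
    have h1 : (e (f u)) w = H.Om (f u : V) (w : V) := rfl
    have h2 : (((-1 : ℝ) • Module.Dual.transpose (R := ℝ) f) (e u)) w =
        (-1 : ℝ) • H.Om (u : V) (f w : V) := rfl
    rw [h1, h2, hf, neg_one_smul]
  have h1 := LinearMap.trace_conj' f e
  rw [he, map_smul, LinearMap.trace_transpose', smul_eq_mul] at h1
  linarith

end RVXAux

open RVXAux in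
theorem rvx_proof : Stmt_RVX := by
  intro V _ _ _ H V0 hG
  have hc := compl H V0 hG.j
  let W := WW H V0
  let P : V →ₗ[ℝ] W := W.projectionOnto V0 hc.symm
  have hP1 : ∀ y : W, P (y : V) = y := fun y => Submodule.projectionOnto_apply_left hc.symm y
  have hP0 : ∀ u ∈ V0, P u = 0 := fun u hu =>
    (Submodule.projectionOnto_apply_eq_zero_iff hc.symm).mpr hu
  have hPm : ∀ x, x - ((P x : W) : V) ∈ V0 := by
    intro x
    apply (Submodule.projectionOnto_apply_eq_zero_iff hc.symm).mp
    change P (x - ((P x : W) : V)) = 0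
    rw [map_sub, hP1, sub_self]
  have hP2 : ∀ x y : V, x - y ∈ V0 → P x = P y := by
    intro x y h
    have := hP0 _ h
    rwa [map_sub, sub_eq_zero] at this
  have horth : ∀ x ∈ V0, ∀ y : W, H.Om x (y : V) = 0 := fun x hx y => y.2 x hx
  have horth' : ∀ x ∈ V0, ∀ y : W, H.Om (y : V) x = 0 := by
    intro x hx y
    rw [H.oanti, horth x hx y, neg_zero]
  have hbrl : ∀ u ∈ V0, ∀ x, H.br u x ∈ V0 := by
    intro u hu x
    rw [H.toLA.anti]
    exact V0.neg_mem (hG.i x u hu)
  have hbrW : ∀ x y : W, H.br (x : V) (y : V) ∈ W := by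
    intro x y u hu
    have h := H.closed (x : V) (y : V) u
    rw [horth _ (hG.i _ u hu) x, horth _ (hbrl u hu _) y] at h
    rw [H.oanti]
    linarith
  have hbrP : ∀ x y : W, ((P (H.br (x : V) (y : V)) : W) : V) = H.br (x : V) (y : V) := by
    intro x y
    exact congrArg Subtype.val (hP1 ⟨_, hbrW x y⟩)
  have hJP : ∀ z : V, P (H.J ((P z : W) : V)) = P (H.J z) := by
    intro z
    symm
    apply hP2
    rw [← map_sub]
    exact hG.j _ (hPm z)
  -- the trace on `V0`
  have htr : ∀ x : W, LinearMap.trace ℝ V0
      ((H.br (x : V)).restrict (fun u hu => hG.i (x : V) u hu)) = 0 := by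
    intro x
    apply tr0 H V0 hG.j
    intro u w
    have h := H.closed (x : V) (u : V) (w : V)
    rw [hG.ab u u.2 w w.2, map_zero, LinearMap.zero_apply] at h
    have e1 : H.br (w : V) (x : V) = - H.br (x : V) (w : V) := H.toLA.anti _ _
    rw [e1, map_neg, LinearMap.neg_apply, H.oanti (H.br (x : V) (w : V)) (u : V)] at h
    change H.Om (H.br (x : V) (u : V)) (w : V) = - H.Om (u : V) (H.br (x : V) (w : V))
    linarith
  let HW : HS W :=
    { br := (H.br.compl₁₂ W.subtype W.subtype).compr₂ P
      skew := by
        intro x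
        change P (H.br (x : V) (x : V)) = 0
        rw [H.skew, map_zero]
      jac := by
        intro x y z
        apply Subtype.ext
        change ((P (H.br (x : V) ((P (H.br (y : V) (z : V)) : W) : V)) : W) : V) =
          ((P (H.br ((P (H.br (x : V) (y : V)) : W) : V) (z : V)) : W) : V) +
          ((P (H.br (y : V) ((P (H.br (x : V) (z : V)) : W) : V)) : W) : V)
        rw [hbrP, hbrP, hbrP, hbrP, hbrP, hbrP]
        exact H.jac _ _ _
      J := P ∘ₗ H.J ∘ₗ W.subtype
      JJ := by
        intro x
        change P (H.J ((P (H.J (x : V)) : W) : V)) = -x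
        rw [hJP, H.JJ, map_neg, hP1]
      nij := by
        intro x y
        change P (H.br ((P (H.J (x : V)) : W) : V) ((P (H.J (y : V)) : W) : V)) -
          P (H.br (x : V) (y : V)) =
          P (H.J ((P (H.br ((P (H.J (x : V)) : W) : V) (y : V)) +
            P (H.br (x : V) ((P (H.J (y : V)) : W) : V)) : W) : V))
        have e1 : P (H.br ((P (H.J (x : V)) : W) : V) ((P (H.J (y : V)) : W) : V)) =
            P (H.br (H.J (x : V)) (H.J (y : V))) := by
          symm
          apply hP2
          have : H.br (H.J (x : V)) (H.J (y : V)) -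
              H.br ((P (H.J (x : V)) : W) : V) ((P (H.J (y : V)) : W) : V) =
              H.br (H.J (x : V) - ((P (H.J (x : V)) : W) : V)) (H.J (y : V)) +
              H.br ((P (H.J (x : V)) : W) : V) (H.J (y : V) - ((P (H.J (y : V)) : W) : V)) := by
            rw [map_sub, LinearMap.sub_apply, map_sub]
            abel
          rw [this]
          exact V0.add_mem (hbrl _ (hPm _) _) (hG.i _ _ (hPm _))
        have e2 : P (H.br ((P (H.J (x : V)) : W) : V) (y : V)) =
            P (H.br (H.J (x : V)) (y : V)) := by
          symm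
          apply hP2
          rw [← LinearMap.sub_apply, ← map_sub]
          exact hbrl _ (hPm _) _
        have e3 : P (H.br (x : V) ((P (H.J (y : V)) : W) : V)) =
            P (H.br (x : V) (H.J (y : V))) := by
          symm
          apply hP2
          rw [← map_sub]
          exact hG.i _ _ (hPm _)
        rw [e1, e2, e3, ← map_add, hJP, ← H.nij, map_sub]
      Om := H.Om.compl₁₂ W.subtype W.subtype
      alt := by
        intro x
        exact H.alt _
      closed := by
        intro x y z
        change H.Om ((P (H.br (x : V) (y : V)) : W) : V) (z : V) +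
          H.Om ((P (H.br (y : V) (z : V)) : W) : V) (x : V) +
          H.Om ((P (H.br (z : V) (x : V)) : W) : V) (y : V) = 0
        rw [hbrP, hbrP, hbrP]
        exact H.closed _ _ _
      tame := by
        intro x hx
        change 0 < H.Om (x : V) ((P (H.J (x : V)) : W) : V)
        have h1 := H.tame (x : V) (by simpa using hx)
        have h2 := horth' _ (hPm (H.J (x : V))) x
        rw [map_sub] at h2
        linarith
      unim := by
        intro x
        have hV := H.unim (x : V)
        set f := H.br (x : V) with hf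
        set h0 := f.restrict (fun u hu => hG.i (x : V) u hu) with hh0
        let P0 : V →ₗ[ℝ] V0 := V0.projectionOnto W hc
        let g : W →ₗ[ℝ] W := ((H.br.compl₁₂ W.subtype W.subtype).compr₂ P) x
        have hg : ∀ y : W, ((g y : W) : V) = f (y : V) := fun y => hbrP x y
        have hdec : f = V0.subtype ∘ₗ (h0 ∘ₗ P0) + W.subtype ∘ₗ (g ∘ₗ P) := by
          apply LinearMap.ext
          intro z
          change f z = f ((P0 z : V0) : V) + ((g (P z) : W) : V)
          rw [hg, ← map_add]
          congr 1
          have e1 : P0 z = ⟨z - ((P z : W) : V), hPm z⟩ := by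
            have e2 : P0 (z - ((P z : W) : V)) = ⟨z - ((P z : W) : V), hPm z⟩ :=
              Submodule.projectionOnto_apply_left hc ⟨z - ((P z : W) : V), hPm z⟩
            have e3 : P0 ((P z : W) : V) = 0 :=
              (Submodule.projectionOnto_apply_eq_zero_iff hc).mpr (P z).2
            rw [map_sub, e3, sub_zero] at e2
            exact e2
          rw [e1]
          simp
        have ht1 : LinearMap.trace ℝ V (V0.subtype ∘ₗ (h0 ∘ₗ P0)) = LinearMap.trace ℝ V0 h0 := by
          rw [LinearMap.trace_comp_comm' (h0 ∘ₗ P0) V0.subtype]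
          congr 1
          apply LinearMap.ext
          intro u
          change h0 (P0 (u : V)) = h0 u
          rw [show P0 (u : V) = u from Submodule.projectionOnto_apply_left hc u]
        have ht2 : LinearMap.trace ℝ V (W.subtype ∘ₗ (g ∘ₗ P)) = LinearMap.trace ℝ W g := by
          rw [LinearMap.trace_comp_comm' (g ∘ₗ P) W.subtype]
          congr 1
          apply LinearMap.ext
          intro u
          change g (P (u : V)) = g u
          rw [hP1]
        change LinearMap.trace ℝ W g = 0
        rw [hdec, map_add, ht1, ht2] at hV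
        have h3 : LinearMap.trace ℝ V0 h0 = 0 := htr x
        linarith }
  refine ⟨W, HW, hc, ?_, ?_, ?_, ?_, ?_⟩
  · intro x hx y hy
    exact hy x hx
  · intro x y
    exact hbrP x y
  · intro x
    exact hPm _
  · intro x y
    rfl
  · rintro ⟨n, hn⟩
    refine ⟨n, ?_⟩
    have key : ∀ n, ∀ z ∈ HW.toLA.der n, (z : V) ∈ H.toLA.der n := by
      intro n
      induction n with
      | zero =>
        intro z _
        exact Submodule.mem_top
      | succ n ih =>
        intro z hz
        have hz' : z ∈ Submodule.span ℝ {z | ∃ x ∈ HW.toLA.der n, ∃ y ∈ HW.toLA.der n,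
          HW.toLA.br x y = z} := hz
        change (z : V) ∈ Submodule.span ℝ {z | ∃ x ∈ H.toLA.der n, ∃ y ∈ H.toLA.der n,
          H.toLA.br x y = z}
        induction hz' using Submodule.span_induction with
        | mem z h =>
          obtain ⟨a, ha, b, hb, rfl⟩ := h
          apply Submodule.subset_span
          exact ⟨a, ih a ha, b, ih b hb, (hbrP a b).symm⟩
        | zero => exact Submodule.zero_mem _
        | add a b ha hb h1 h2 =>
          rw [Submodule.coe_add]
          exact Submodule.add_mem _ (h1 ha) (h2 hb)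
        | smul t a ha h1 =>
          rw [Submodule.coe_smul]
          exact Submodule.smul_mem _ _ (h1 ha)
    rw [eq_bot_iff]
    intro z hz
    have := key n z hz
    rw [hn, Submodule.mem_bot] at this
    rw [Submodule.mem_bot]
    exact Subtype.ext this

end Pool.Agent.STT
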