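import Pool.Agent.STT.Stmts

set_option autoImplicit false

namespace Pool.Agent.STT

theorem skl_proof : Stmt_SKL := by
  intro W _ _ b hb E F J hE hF hJ hJJ hEF hEJ hFJ x hx
  have h1 : b (F x) (F x) = - b x (F (J (E x))) := by
    conv_lhs => rw [hF x (F x)]
    rw [hx]
  have h2 : b (F (J (E x))) x = - b x (F (J (E x))) := by
    have e1 : b (F (J (E x))) x = - b (J (E x)) (F x) := hF _ _
    have e2 : b (J (E x)) (F x) = - b (E x) (J (F x)) := hJ _ _
    have e3 : b (E x) (J (F x)) = - b x (E (J (F x))) := hE _ _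
    have e4 : E (J (F x)) = F (J (E x)) := by
      rw [hEJ, hEF, hFJ]
    rw [e1, e2, e3, e4]; ring
  have h3 : b x (F (J (E x))) = 0 := by
    have := hb.symm (F (J (E x))) x
    linarith
  have h4 : F x = 0 := by
    by_contra hne
    have := hb.pos _ hne
    rw [h1, h3] at this
    simp at this
  have h5 : J (E x) = 0 := by rw [← hx, h4]
  have h6 : E x = 0 := by
    have := hJJ (E x)
    rw [h5, map_zero] at this
    exact neg_eq_zero.mp this.symm
  exact ⟨h6, h4⟩

end Pool.Agent.STT
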