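import Pool.Agent.STT.Stmts

set_option autoImplicit false

namespace Pool.Agent.STT

theorem spn_proof (hTR3 : Stmt_TR3) : Stmt_SPN := by
  intro V _ _ _ H K W hW y
  by_contra hy
  obtain ⟨f, hf, hle⟩ := Submodule.exists_le_ker_of_notMem hy
  obtain ⟨w, hw⟩ := (hTR3 V K.ip K.ipd).2.2 f
  have h1 : ∀ x z, K.ip (K.E x w) z = 0 := by
    intro x z
    have h2 : f (K.E x z) = 0 := hle (hW x z)
    have h3 := K.ipE x w z
    rw [hw, h2, neg_zero] at h3
    exact h3
  have h2 : ∀ x, K.E x w = 0 := by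
    intro x
    by_contra hne
    exact absurd (h1 x (K.E x w)) (K.ipd.pos _ hne).ne'
  have h3 : K.PA w = 0 := K.ker w h2
  apply hf
  rw [← hw, ← K.ipP, h3, map_zero, LinearMap.zero_apply]

end Pool.Agent.STT
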