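import Pool.Agent.STT.Stmts

set_option autoImplicit false

namespace Pool.Agent.STT

namespace SYLAux

variable {W : Type} [AddCommGroup W] [Module ℝ W]

/-- the inner product core of a symmetric positive definite form -/
@[reducible] noncomputable def core (b : W →ₗ[ℝ] W →ₗ[ℝ] ℝ) (hb : PD b) : InnerProductSpace.Core ℝ W where
  inner x y := b x y
  conj_inner_symm x y := by
    simp only [conj_trivial]
    exact hb.symm y x
  re_inner_nonneg x := by
    show 0 ≤ b x x
    by_cases h : x = 0
    · rw [h]; simp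
    · exact (hb.pos x h).le
  add_left x y z := by
    show b (x + y) z = b x z + b y z
    simp
  smul_left x y r := by
    show b (r • x) y = _ * b x y
    simp
  definite x h := by
    by_contra hne
    exact absurd h (hb.pos x hne).ne'

theorem trace_nonneg_zero [FiniteDimensional ℝ W] (b : W →ₗ[ℝ] W →ₗ[ℝ] ℝ) (hb : PD b)
    (S : W →ₗ[ℝ] W) (hS : ∀ x, 0 ≤ b x (S x)) (h0 : LinearMap.trace ℝ W S = 0) :
    ∃ (n : ℕ) (e : Module.Basis (Fin n) ℝ W), ∀ i, b (e i) (S (e i)) = 0 := by
  let _ : NormedAddCommGroup W := (core b hb).toNormedAddCommGroup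
  let _ : InnerProductSpace ℝ W := InnerProductSpace.ofCore (core b hb).toCore
  let e := stdOrthonormalBasis ℝ W
  have h1 := LinearMap.trace_eq_sum_inner S e
  rw [h0] at h1
  have h2 : ∀ i ∈ Finset.univ, 0 ≤ inner ℝ (e i) (S (e i)) := fun i _ => hS (e i)
  have h3 := (Finset.sum_eq_zero_iff_of_nonneg h2).1 h1.symm
  exact ⟨_, e.toBasis, fun i => by
    have h4 : b (e i) (S (e i)) = 0 := h3 i (Finset.mem_univ i)
    simpa using h4⟩

end SYLAux

open SYLAux in
theorem syl_proof (_hTR1 : Stmt_TR1) (hTR3 : Stmt_TR3) : Stmt_SYL := by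
  intro V W _ _ _ _ _ _ b c hb hc K M n T hn hK hM hT
  obtain ⟨S, hS⟩ := (hTR3 V b hb).2.1 (c.compl₁₂ T T)
  have hS' : ∀ x y, b (S x) y = c (T x) (T y) := by
    intro x y; rw [hS]; rfl
  have hsym : ∀ x y, b (S x) y = b x (S y) := by
    intro x y
    rw [hS', hb.symm x (S y), hS', hc.symm]
  have hcM : ∀ z, c z (M z) = 0 := by
    intro z
    have h1 := hM z z
    rw [hc.symm (M z) z] at h1
    linarith
  -- `S K - K S = 2 n S`
  have key : ∀ x y, b (S (K x)) y - b (K (S x)) y = 2 * n * b (S x) y := by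
    intro x y
    have q : ∀ z, b (S z) (K z) = n * c (T z) (T z) := by
      intro z
      rw [hS', hT, map_add, map_smul, hcM, add_zero, smul_eq_mul]
    have h1 := q (x + y)
    have h2 := q x
    have h3 := q y
    simp only [map_add, LinearMap.add_apply] at h1
    have h4 : b (S (K x)) y = b (S y) (K x) := by
      rw [hsym, hb.symm]
    have h5 : b (K (S x)) y = - b (S x) (K y) := hK _ _
    have h6 : b (S x) y = c (T x) (T y) := hS' x y
    have h7 : c (T y) (T x) = c (T x) (T y) := hc.symm _ _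
    rw [h4, h5, h6]
    linear_combination h1 - h2 - h3 + n * h7
  have key2 : S ∘ₗ K - K ∘ₗ S = (2 * n) • S := by
    apply LinearMap.ext
    intro x
    by_contra hne
    have h1 : (S ∘ₗ K - K ∘ₗ S) x - ((2 * n) • S) x ≠ 0 := sub_ne_zero.mpr hne
    have h3 : ∀ y, b ((S ∘ₗ K - K ∘ₗ S) x - ((2 * n) • S) x) y = 0 := by
      intro y
      have h2 := key x y
      simp only [LinearMap.sub_apply, LinearMap.comp_apply, LinearMap.smul_apply, map_sub, map_smul,
        smul_eq_mul]
      linarith
    exact absurd (h3 _) (hb.pos _ h1).ne'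
  have htr : LinearMap.trace ℝ V S = 0 := by
    have h1 := congrArg (LinearMap.trace ℝ V) key2
    rw [map_sub, map_smul, LinearMap.trace_comp_comm', sub_self, smul_eq_mul] at h1
    have h2 : 2 * n ≠ 0 := mul_ne_zero two_ne_zero hn
    rcases mul_eq_zero.mp h1.symm with h | h
    · exact absurd h h2
    · exact h
  have hnn : ∀ x, 0 ≤ b x (S x) := by
    intro x
    rw [← hsym, hS']
    by_cases h : T x = 0
    · rw [h]; simp
    · exact (hc.pos _ h).le
  obtain ⟨m, e, he⟩ := trace_nonneg_zero b hb S hnn htr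
  apply e.ext
  intro i
  have h1 := he i
  rw [← hsym, hS'] at h1
  rw [LinearMap.zero_apply]
  by_contra h
  exact absurd h1 (hc.pos _ h).ne'

end Pool.Agent.STT
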