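import Pool.Agent.STT.Defs

/-!
# MP_e0fc50_gt (Streets-Tian): statements of the modules of squad STT
-/

set_option autoImplicit false

namespace Pool.Agent.STT

/-! ## T: general linear algebra -/

def Stmt_SKL : Prop := ∀ (W : Type) [AddCommGroup W] [Module ℝ W] (b : W →ₗ[ℝ] W →ₗ[ℝ] ℝ), PD b →
  ∀ (E F J : W →ₗ[ℝ] W), (∀ x y, b (E x) y = - b x (E y)) → (∀ x y, b (F x) y = - b x (F y)) →
  (∀ x y, b (J x) y = - b x (J y)) → (∀ x, J (J x) = -x) → (∀ x, E (F x) = F (E x)) →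
  (∀ x, E (J x) = J (E x)) → (∀ x, F (J x) = J (F x)) → ∀ x, F x = J (E x) → E x = 0 ∧ F x = 0

def Stmt_TR1 : Prop := ∀ (W : Type) [AddCommGroup W] [Module ℝ W] [FiniteDimensional ℝ W]
  (b : W →ₗ[ℝ] W →ₗ[ℝ] ℝ), PD b → ∀ (T K : W →ₗ[ℝ] W), (∀ x y, b (T x) y = b x (T y)) →
  (∀ x y, b (K x) y = - b x (K y)) →
  LinearMap.trace ℝ W (T ∘ₗ K) = 0 ∧ LinearMap.trace ℝ W K = 0

def Stmt_TR2 : Prop := ∀ (W : Type) [AddCommGroup W] [Module ℝ W] [FiniteDimensional ℝ W]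
  (b : W →ₗ[ℝ] W →ₗ[ℝ] ℝ), PD b →
  (∀ T : W →ₗ[ℝ] W, (∀ x y, b (T x) y = b x (T y)) →
    0 ≤ LinearMap.trace ℝ W (T ∘ₗ T) ∧ (LinearMap.trace ℝ W (T ∘ₗ T) = 0 → T = 0)) ∧
  (∀ K : W →ₗ[ℝ] W, (∀ x y, b (K x) y = - b x (K y)) →
    LinearMap.trace ℝ W (K ∘ₗ K) = 0 → K = 0)

def Stmt_TR3 : Prop := ∀ (W : Type) [AddCommGroup W] [Module ℝ W] [FiniteDimensional ℝ W]
  (b : W →ₗ[ℝ] W →ₗ[ℝ] ℝ), PD b →
  (∀ D : W →ₗ[ℝ] W, ∃ D' : W →ₗ[ℝ] W, (∀ x y, b (D x) y = b x (D' y)) ∧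
    LinearMap.trace ℝ W D' = LinearMap.trace ℝ W D) ∧
  (∀ β : W →ₗ[ℝ] W →ₗ[ℝ] ℝ, ∃ T : W →ₗ[ℝ] W, ∀ x y, b (T x) y = β x y) ∧
  (∀ f : W →ₗ[ℝ] ℝ, ∃ w, ∀ y, b w y = f y)

def Stmt_TT1 : Prop := ∀ (W : Type) [AddCommGroup W] [Module ℝ W] [FiniteDimensional ℝ W]
  (b : W →ₗ[ℝ] W →ₗ[ℝ] ℝ), PD b → ∀ (D : W →ₗ[ℝ] W) (β : W →ₗ[ℝ] W →ₗ[ℝ] ℝ) (l : ℝ),
  (∀ x y, β x y = β y x) → (∀ x y, b (D x) y + b x (D y) = - β x y) →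
  (∀ x y, β (D x) y + β x (D y) = l * β x y) →
  0 ≤ l * LinearMap.trace ℝ W D ∧ (l * LinearMap.trace ℝ W D = 0 → ∀ x y, β x y = 0)

def Stmt_TT2 : Prop := ∀ (W : Type) [AddCommGroup W] [Module ℝ W] [FiniteDimensional ℝ W]
  (b : W →ₗ[ℝ] W →ₗ[ℝ] ℝ), PD b → ∀ (Dp Dq : W →ₗ[ℝ] W) (βp βq : W →ₗ[ℝ] W →ₗ[ℝ] ℝ),
  (∀ x y, βp x y = βp y x) → (∀ x y, βq x y = βq y x) →
  (∀ x y, b (Dp x) y + b x (Dp y) = - βp x y) → (∀ x y, b (Dq x) y + b x (Dq y) = - βq x y) →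
  (∀ x y, βp (Dp x) y + βp x (Dp y) + (βq (Dq x) y + βq x (Dq y)) = 0) →
  ∀ x y, βp x y = 0 ∧ βq x y = 0

def Stmt_TT3 : Prop := ∀ (W : Type) [AddCommGroup W] [Module ℝ W] [FiniteDimensional ℝ W]
  (b : W →ₗ[ℝ] W →ₗ[ℝ] ℝ), PD b → ∀ (Dp Dq E : W →ₗ[ℝ] W) (m : ℝ), m ≠ 0 →
  (∀ x y, b (Dp x) y = - b x (Dp y)) → (∀ x y, b (Dq x) y = - b x (Dq y)) →
  (∀ x, Dp (Dq x) = Dq (Dp x)) → (∀ x, E (Dp x) - Dp (E x) = m • Dq x) →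
  (∀ x, E (Dq x) - Dq (E x) = -(m • Dp x)) → Dp = 0 ∧ Dq = 0

def Stmt_SYL : Prop := ∀ (V W : Type) [AddCommGroup V] [Module ℝ V] [FiniteDimensional ℝ V]
  [AddCommGroup W] [Module ℝ W] [FiniteDimensional ℝ W]
  (b : V →ₗ[ℝ] V →ₗ[ℝ] ℝ) (c : W →ₗ[ℝ] W →ₗ[ℝ] ℝ), PD b → PD c →
  ∀ (K : V →ₗ[ℝ] V) (M : W →ₗ[ℝ] W) (n : ℝ) (T : V →ₗ[ℝ] W), n ≠ 0 →
  (∀ x y, b (K x) y = - b x (K y)) → (∀ x y, c (M x) y = - c x (M y)) →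
  (∀ x, T (K x) = n • T x + M (T x)) → T = 0

def Stmt_INV : Prop := ∀ (W : Type) [AddCommGroup W] [Module ℝ W] [FiniteDimensional ℝ W]
  (b : W →ₗ[ℝ] W →ₗ[ℝ] ℝ), PD b → ∀ (M : W →ₗ[ℝ] W) (n : ℝ), n ≠ 0 →
  (∀ x y, b (M x) y = - b x (M y)) → ∀ w, ∃ z, n • z + M z = w

/-- an invariant subspace of a normal operator is reducing, in real form -/
def Stmt_NRM : Prop := ∀ (V : Type) [AddCommGroup V] [Module ℝ V] [FiniteDimensional ℝ V]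
  (A A1 : Submodule ℝ V) (k : V →ₗ[ℝ] V →ₗ[ℝ] ℝ) (X X' J : V →ₗ[ℝ] V), A1 ≤ A →
  (∀ x y, k x y = k y x) → (∀ u ∈ A, u ≠ 0 → 0 < k u u) →
  (∀ u ∈ A, X u ∈ A) → (∀ u ∈ A, X' u ∈ A) →
  (∀ u ∈ A, ∀ w ∈ A, k (X u) w = - k u (X w)) → (∀ u ∈ A, ∀ w ∈ A, k (X' u) w = - k u (X' w)) →
  (∀ u ∈ A, X (X' u) = X' (X u)) → (∀ u ∈ A1, J u ∈ A1) → (∀ u ∈ A1, J (J u) = -u) →
  (∀ u ∈ A1, X' u + X (J u) ∈ A1) → (∀ u ∈ A1, X' (J u) - X u = J (X' u + X (J u))) →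
  ∀ u ∈ A1, X u ∈ A1 ∧ X (J u) = J (X u)

/-! ## K: the class `IsK` -/

def Stmt_KFX : Prop := ∀ (V : Type) [AddCommGroup V] [Module ℝ V] [FiniteDimensional ℝ V]
  (H : HS V), IsK H.toLA H.J → Nonempty (KF H)

def Stmt_SPN : Prop := ∀ (V : Type) [AddCommGroup V] [Module ℝ V] [FiniteDimensional ℝ V]
  (H : HS V) (K : KF H) (W : Submodule ℝ V), (∀ x y, K.E x y ∈ W) → ∀ y, K.PA y ∈ W

def Stmt_KAH : Prop := ∀ (V : Type) [AddCommGroup V] [Module ℝ V] [FiniteDimensional ℝ V]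
  (H : HS V), KF H → ∃ om : V →ₗ[ℝ] V →ₗ[ℝ] ℝ, (∀ x, om x x = 0) ∧
  (∀ x y z, om (H.br x y) z + om (H.br y z) x + om (H.br z x) y = 0) ∧
  (∀ x y, om (H.J x) (H.J y) = om x y) ∧ (∀ x, x ≠ 0 → 0 < om x (H.J x))

/-- `IsK` without `J`-invariance of the complement: the complement can be corrected -/
def Stmt_HRM : Prop := ∀ (V : Type) [AddCommGroup V] [Module ℝ V] [FiniteDimensional ℝ V]
  (H : HS V) (A S : Submodule ℝ V), IsCompl A S → (∀ x ∈ A, H.J x ∈ A) →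
  (∀ x ∈ A, ∀ y ∈ A, H.br x y = 0) → (∀ x ∈ S, ∀ y ∈ S, H.br x y = 0) →
  (∀ s ∈ S, ∀ x ∈ A, H.br s x ∈ A) → (∀ s ∈ S, ∀ x ∈ A, H.br s (H.J x) = H.J (H.br s x)) →
  (∀ x ∈ A, (∀ s ∈ S, H.br s x = 0) → x = 0) → IsK H.toLA H.J

/-! ## 1: one-dimensional ideal, computations on the reduction -/

def Stmt_C1A : Prop := ∀ (V : Type) [AddCommGroup V] [Module ℝ V] [FiniteDimensional ℝ V]
  (H : HS V) (K : KF H) (R : Red1 H), R.lam = 0 → ∀ t, K.PA t = 0 → K.PA (R.D t) = 0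

def Stmt_C1B : Prop := ∀ (V : Type) [AddCommGroup V] [Module ℝ V] [FiniteDimensional ℝ V]
  (H : HS V) (K : KF H) (R : Red1 H), R.lam = 0 → (∀ t, K.PA t = 0 → K.PA (R.D t) = 0) →
  (∀ x y, K.E (R.D x) y = 0) ∧ (∀ y, K.PA (R.D (K.PA y)) = R.D (K.PA y)) ∧
  (∀ x y, R.D (K.E x y) = K.E x (R.D y))

def Stmt_C1C : Prop := ∀ (V : Type) [AddCommGroup V] [Module ℝ V] [FiniteDimensional ℝ V]
  (H : HS V) (K : KF H) (R : Red1 H), R.lam = 0 → (∀ t, K.PA t = 0 → K.PA (R.D t) = 0) →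
  (∀ y, K.PA (R.D (K.PA y)) = R.D (K.PA y)) →
  R.ell = 0 ∧ (∀ x y, K.PA x = x → K.PA y = y → R.th x y = 0) ∧
  (∀ x y, K.PA x = 0 → K.PA y = 0 → R.th x y = 0)

def Stmt_C1D : Prop := ∀ (V : Type) [AddCommGroup V] [Module ℝ V] [FiniteDimensional ℝ V]
  (H : HS V) (K : KF H) (R : Red1 H), R.lam = 0 →
  ∀ x y, K.PA x = 0 → K.PA y = y → R.th x y = 0

def Stmt_F1A : Prop := ∀ (V : Type) [AddCommGroup V] [Module ℝ V] [FiniteDimensional ℝ V]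
  (H : HS V) (_ : KF H) (R : Red1 H), R.lam ≠ 0 → ∃ b, ∀ y, R.D y = H.br b y - R.lam y • b

def Stmt_F1B : Prop := ∀ (V : Type) [AddCommGroup V] [Module ℝ V] [FiniteDimensional ℝ V]
  (H : HS V) (K : KF H) (R : Red1 H), R.lam ≠ 0 → ∀ b, (∀ y, R.D y = H.br b y - R.lam y • b) →
  ∀ y, K.PA y = 0 → K.E y b = -(R.lam (H.J y) • H.J b)

def Stmt_F1C : Prop := ∀ (V : Type) [AddCommGroup V] [Module ℝ V] [FiniteDimensional ℝ V]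
  (H : HS V) (K : KF H) (R : Red1 H), R.lam ≠ 0 → ∀ b, (∀ y, R.D y = H.br b y - R.lam y • b) →
  (∀ y, K.PA y = 0 → K.E y b = -(R.lam (H.J y) • H.J b)) → False

/-! ## 2: two-dimensional isotropic ideal, computations on the reduction -/

def Stmt_G2A : Prop := ∀ (V : Type) [AddCommGroup V] [Module ℝ V] [FiniteDimensional ℝ V]
  (H : HS V) (_ : KF H) (R : Red2 H), R.nu ≠ 0 →
  ∃ bp bq, (∀ y, R.Dp y = H.br bp y - (R.nu y • bp - R.mu y • bq)) ∧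
    (∀ y, R.Dq y = H.br bq y - (R.nu y • bq + R.mu y • bp))

def Stmt_G2B : Prop := ∀ (V : Type) [AddCommGroup V] [Module ℝ V] [FiniteDimensional ℝ V]
  (H : HS V) (K : KF H) (R : Red2 H), R.nu ≠ 0 →
  ∀ bp bq, (∀ y, R.Dp y = H.br bp y - (R.nu y • bp - R.mu y • bq)) →
    (∀ y, R.Dq y = H.br bq y - (R.nu y • bq + R.mu y • bp)) →
  ∀ y, K.PA y = 0 → K.E y bp = R.mu y • bq - R.nu (H.J y) • H.J bp ∧
    K.E y bq = -(R.mu y • bp) - R.nu (H.J y) • H.J bq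

def Stmt_G2C : Prop := ∀ (V : Type) [AddCommGroup V] [Module ℝ V] [FiniteDimensional ℝ V]
  (H : HS V) (K : KF H) (R : Red2 H), R.nu ≠ 0 →
  ∀ bp bq, (∀ y, R.Dp y = H.br bp y - (R.nu y • bp - R.mu y • bq)) →
    (∀ y, R.Dq y = H.br bq y - (R.nu y • bq + R.mu y • bp)) →
  (∀ y, K.PA y = 0 → K.E y bp = R.mu y • bq - R.nu (H.J y) • H.J bp ∧
    K.E y bq = -(R.mu y • bp) - R.nu (H.J y) • H.J bq) →
  R.nu bp = 0 ∧ R.nu bq = 0 ∧ R.mu bp = 0 ∧ R.mu bq = 0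

def Stmt_G2D : Prop := ∀ (V : Type) [AddCommGroup V] [Module ℝ V] [FiniteDimensional ℝ V]
  (H : HS V) (K : KF H) (R : Red2 H), R.nu ≠ 0 →
  ∀ bp bq, (∀ y, R.Dp y = H.br bp y - (R.nu y • bp - R.mu y • bq)) →
    (∀ y, R.Dq y = H.br bq y - (R.nu y • bq + R.mu y • bp)) →
  (∀ y, K.PA y = 0 → K.E y bp = R.mu y • bq - R.nu (H.J y) • H.J bp ∧
    K.E y bq = -(R.mu y • bp) - R.nu (H.J y) • H.J bq) →
  R.nu bp = 0 → R.nu bq = 0 → R.mu bp = 0 → R.mu bq = 0 → False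

def Stmt_N2A : Prop := ∀ (V : Type) [AddCommGroup V] [Module ℝ V] [FiniteDimensional ℝ V]
  (H : HS V) (K : KF H) (R : Red2 H), R.nu = 0 → ∀ s t, K.PA s = 0 → K.PA t = 0 →
  K.E s (R.Dp t) = R.mu s • R.Dq t ∧ K.E s (R.Dq t) = -(R.mu s • R.Dp t) ∧
  K.PA (R.Dp t) = R.Dp t ∧ K.PA (R.Dq t) = R.Dq t

def Stmt_N2B : Prop := ∀ (V : Type) [AddCommGroup V] [Module ℝ V] [FiniteDimensional ℝ V]
  (H : HS V) (K : KF H) (R : Red2 H), R.nu = 0 → ∀ s y, K.PA s = 0 → K.PA y = y →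
  K.E s (R.Dp y) - R.Dp (K.E s y) = R.mu s • R.Dq y ∧
  K.E s (R.Dq y) - R.Dq (K.E s y) = -(R.mu s • R.Dp y)

def Stmt_N2C : Prop := ∀ (V : Type) [AddCommGroup V] [Module ℝ V] [FiniteDimensional ℝ V]
  (H : HS V) (K : KF H) (R : Red2 H), R.nu = 0 → ∀ y, K.PA y = y → ∀ w,
  K.E (R.Dp y) w = 0 ∧ K.E (H.J (R.Dp y)) w = 0 ∧ K.E (R.Dq y) w = 0 ∧ K.E (H.J (R.Dq y)) w = 0

def Stmt_N2D : Prop := ∀ (V : Type) [AddCommGroup V] [Module ℝ V] [FiniteDimensional ℝ V]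
  (H : HS V) (K : KF H) (R : Red2 H), R.nu = 0 → ∀ y, K.PA y = y → R.Dp y = 0 ∧ R.Dq y = 0

def Stmt_N2E : Prop := ∀ (V : Type) [AddCommGroup V] [Module ℝ V] [FiniteDimensional ℝ V]
  (H : HS V) (K : KF H) (R : Red2 H), R.nu = 0 →
  (∀ y, K.PA y = y → R.Dp y = 0 ∧ R.Dq y = 0) → R.Dp = 0 ∧ R.Dq = 0

/-! ## R: Lie theorem, weights, reductions -/

def Stmt_LIE : Prop := ∀ (V : Type) [AddCommGroup V] [Module ℝ V] [FiniteDimensional ℝ V]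
  (H : HS V), H.toLA.Solv → ∀ C : Submodule ℝ V, C ≠ ⊥ → (∀ x, ∀ y ∈ C, H.br x y ∈ C) →
  (∃ v ∈ C, v ≠ 0 ∧ ∃ lam : V →ₗ[ℝ] ℝ, ∀ x, H.br x v = lam x • v) ∨
  (∃ P : Pair H, P.u1 ∈ C ∧ P.u2 ∈ C)

def Stmt_LBR : Prop := ∀ (V : Type) [AddCommGroup V] [Module ℝ V] (H : HS V) (v : V)
  (lam0 : V →ₗ[ℝ] ℝ), v ≠ 0 → (∀ x, H.br x v = lam0 x • v) →
  lam0 v = 0 ∧ ∀ x y, lam0 (H.br x y) = 0

def Stmt_PBR : Prop := ∀ (V : Type) [AddCommGroup V] [Module ℝ V] (H : HS V) (P : Pair H),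
  (∀ x y, P.nu (H.br x y) = 0) ∧ (∀ x y, P.mu (H.br x y) = 0) ∧
  P.nu P.u1 = 0 ∧ P.nu P.u2 = 0 ∧ P.mu P.u1 = 0 ∧ P.mu P.u2 = 0

/-- `a + J a` is abelian and the weights vanish on it -/
def Stmt_PRE : Prop := ∀ (V : Type) [AddCommGroup V] [Module ℝ V] (H : HS V) (P : Pair H),
  ∀ w ∈ P.pl, P.nu w = 0 ∧ P.mu w = 0 ∧ P.nu (H.J w) = 0 ∧ P.mu (H.J w) = 0 ∧
    ∀ w' ∈ P.pl, H.br w w' = 0 ∧ H.br (H.J w) w' = 0 ∧ H.br (H.J w) (H.J w') = 0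

def Stmt_DGP : Prop := ∀ (V : Type) [AddCommGroup V] [Module ℝ V] [FiniteDimensional ℝ V]
  (H : HS V) (a : Submodule ℝ V), (∀ u ∈ a, ∀ w ∈ a, H.Om u w = 0) →
  Nonempty (DP H a) ∧
  Module.finrank ℝ (cc H a) + 2 * Module.finrank ℝ a = Module.finrank ℝ V

/-- brackets of elements of `c` -/
def Stmt_DGJ : Prop := ∀ (V : Type) [AddCommGroup V] [Module ℝ V] [FiniteDimensional ℝ V]
  (H : HS V) (a : Submodule ℝ V), (∀ x, ∀ u ∈ a, H.br x u ∈ a) →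
  (∀ u ∈ a, ∀ w ∈ a, H.Om u w = 0) → ∀ (p : DP H a), (∀ y ∈ cc H a, H.J y ∈ cc H a) ∧
  ∀ x ∈ cc H a, ∀ y ∈ cc H a,
    p.pj (H.br x y) = 0 ∧ p.pa (H.br (H.J x) (H.J y)) = p.pa (H.br x y) ∧
    p.pa (H.br (H.J x) y + H.br x (H.J y)) = 0 ∧
    p.pc (H.br (H.J x) (H.J y)) - p.pc (H.br x y)
      = H.J (p.pc (H.br (H.J x) y + H.br x (H.J y)))

def Stmt_DGU : Prop := ∀ (V : Type) [AddCommGroup V] [Module ℝ V] [FiniteDimensional ℝ V]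
  (H : HS V) (a : Submodule ℝ V), (∀ x, ∀ u ∈ a, H.br x u ∈ a) →
  (∀ u ∈ a, ∀ w ∈ a, H.Om u w = 0) → ∀ (p : DP H a), ∀ x ∈ cc H a,
  LinearMap.trace ℝ V (p.pc ∘ₗ H.br x ∘ₗ p.pc) = 0

def Stmt_DGS : Prop := ∀ (V : Type) [AddCommGroup V] [Module ℝ V] [FiniteDimensional ℝ V]
  (H : HS V) (a : Submodule ℝ V), (∀ x, ∀ u ∈ a, H.br x u ∈ a) →
  (∀ u ∈ a, ∀ w ∈ a, H.Om u w = 0) → ∀ (p : DP H a) (L : LA (cc H a)),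
  (∀ x y : cc H a, ((L.br x y : cc H a) : V) = p.pc (H.br (x : V) (y : V))) →
  H.toLA.Solv → L.Solv

def Stmt_DEG : Prop := ∀ (V : Type) [AddCommGroup V] [Module ℝ V] [FiniteDimensional ℝ V]
  (H : HS V) (a : Submodule ℝ V), (∀ x, ∀ u ∈ a, H.br x u ∈ a) →
  (∀ u ∈ a, ∀ w ∈ a, H.Om u w = 0) → Nonempty (DecG H a)

/-! ## D1: the line -/

def Stmt_D1X : Prop := ∀ (V : Type) [AddCommGroup V] [Module ℝ V] [FiniteDimensional ℝ V]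
  (H : HS V) (v : V) (lam0 : V →ₗ[ℝ] ℝ), (∀ x, H.br x v = lam0 x • v) → H.Om v (H.J v) = 1 →
  ∀ G : DecG H (Submodule.span ℝ {v}), ∃ D : G.c →ₗ[ℝ] G.c,
  ∀ y : G.c, H.br (H.J v) (y : V) = lam0 (y : V) • H.J v + (2 * lam0 (H.J (y : V))) • v
    + ((D y : G.c) : V)

def Stmt_D1J : Prop := ∀ (V : Type) [AddCommGroup V] [Module ℝ V] [FiniteDimensional ℝ V]
  (H : HS V) (v : V) (lam0 : V →ₗ[ℝ] ℝ), (∀ x, H.br x v = lam0 x • v) → H.Om v (H.J v) = 1 →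
  ∀ d : Dec1 H v lam0, ∀ y, d.D (d.G.Hc.J y) = d.G.Hc.J (d.D y)

def Stmt_D1E1 : Prop := ∀ (V : Type) [AddCommGroup V] [Module ℝ V] [FiniteDimensional ℝ V]
  (H : HS V) (v : V) (lam0 : V →ₗ[ℝ] ℝ), (∀ x, H.br x v = lam0 x • v) → H.Om v (H.J v) = 1 →
  ∀ d : Dec1 H v lam0, ∀ x y : d.G.c, d.D (d.G.Hc.br x y) = lam0 (x : V) • d.D y
    - lam0 (y : V) • d.D x + d.G.Hc.br (d.D x) y + d.G.Hc.br x (d.D y)

def Stmt_D1E2 : Prop := ∀ (V : Type) [AddCommGroup V] [Module ℝ V] [FiniteDimensional ℝ V]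
  (H : HS V) (v : V) (lam0 : V →ₗ[ℝ] ℝ), (∀ x, H.br x v = lam0 x • v) → H.Om v (H.J v) = 1 →
  ∀ d : Dec1 H v lam0, ∀ x y : d.G.c, d.G.Hc.Om (d.D x) y + d.G.Hc.Om x (d.D y)
    - lam0 (x : V) * H.Om (y : V) (H.J v) + lam0 (y : V) * H.Om (x : V) (H.J v)
    + H.Om (d.G.th x y) (H.J v) + H.Om ((d.G.Hc.br x y : d.G.c) : V) (H.J v) = 0

def Stmt_D1E3 : Prop := ∀ (V : Type) [AddCommGroup V] [Module ℝ V] [FiniteDimensional ℝ V]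
  (H : HS V) (v : V) (lam0 : V →ₗ[ℝ] ℝ), (∀ x, H.br x v = lam0 x • v) → H.Om v (H.J v) = 1 →
  ∀ d : Dec1 H v lam0, ∀ x y : d.G.c, H.Om (d.G.th (d.D x) y) (H.J v)
    + H.Om (d.G.th x (d.D y)) (H.J v) = lam0 (H.J v) * H.Om (d.G.th x y) (H.J v)
    + 2 * lam0 (H.J ((d.G.Hc.br x y : d.G.c) : V)) - 4 * lam0 (x : V) * lam0 (H.J (y : V))
    + 4 * lam0 (H.J (x : V)) * lam0 (y : V)

def Stmt_D1C : Prop := ∀ (V : Type) [AddCommGroup V] [Module ℝ V] [FiniteDimensional ℝ V]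
  (H : HS V) (v : V) (lam0 : V →ₗ[ℝ] ℝ), (∀ x, H.br x v = lam0 x • v) → H.Om v (H.J v) = 1 →
  ∀ G : DecG H (Submodule.span ℝ {v}), ∀ x y z : G.c,
    lam0 (x : V) * H.Om (G.th y z) (H.J v) + lam0 (y : V) * H.Om (G.th z x) (H.J v)
    + lam0 (z : V) * H.Om (G.th x y) (H.J v) + H.Om (G.th x (G.Hc.br y z)) (H.J v)
    + H.Om (G.th y (G.Hc.br z x)) (H.J v) + H.Om (G.th z (G.Hc.br x y)) (H.J v) = 0

def Stmt_D1T : Prop := ∀ (V : Type) [AddCommGroup V] [Module ℝ V] [FiniteDimensional ℝ V]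
  (H : HS V) (v : V) (lam0 : V →ₗ[ℝ] ℝ), (∀ x, H.br x v = lam0 x • v) → H.Om v (H.J v) = 1 →
  ∀ d : Dec1 H v lam0, lam0 (H.J v) + LinearMap.trace ℝ d.G.c d.D = 0

def Stmt_RD1 : Prop := ∀ (V : Type) [AddCommGroup V] [Module ℝ V] [FiniteDimensional ℝ V]
  (H : HS V) (v : V) (lam0 : V →ₗ[ℝ] ℝ), (∀ x, H.br x v = lam0 x • v) → H.Om v (H.J v) = 1 →
  ∀ d : Dec1 H v lam0, ∃ R : Red1 d.G.Hc, (∀ y : d.G.c, R.lam y = lam0 (y : V)) ∧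
    R.ell = lam0 (H.J v) ∧ R.D = d.D ∧ (∀ x y, R.th x y = H.Om (d.G.th x y) (H.J v)) ∧
    (∀ y : d.G.c, R.tau y = H.Om (y : V) (H.J v))

/-- central vector: the algebra is in the class `IsK` -/
def Stmt_K1 : Prop := ∀ (V : Type) [AddCommGroup V] [Module ℝ V] [FiniteDimensional ℝ V]
  (H : HS V) (v : V), (∀ x, H.br x v = 0) → H.Om v (H.J v) = 1 →
  ∀ (d : Dec1 H v 0) (K : KF d.G.Hc), (∀ x y, d.G.th x y = 0) →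
  (∀ y, d.D (d.G.Hc.J y) = d.G.Hc.J (d.D y)) →
  (∀ t, K.PA t = 0 → K.PA (d.D t) = 0) → (∀ x y, K.E (d.D x) y = 0) →
  (∀ y, K.PA (d.D (K.PA y)) = d.D (K.PA y)) → (∀ x y, d.D (K.E x y) = K.E x (d.D y)) →
  (∀ x y, K.PA x = 0 → K.PA y = 0 → d.G.Hc.Om (d.D x) y + d.G.Hc.Om x (d.D y) = 0) →
  IsK H.toLA H.J

/-! ## D2: the plane -/

def Stmt_PQX : Prop := ∀ (V : Type) [AddCommGroup V] [Module ℝ V] [FiniteDimensional ℝ V]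
  (H : HS V) (P : Pair H), ∃ p ∈ P.pl, ∃ q ∈ P.pl, Submodule.span ℝ {p, q} = P.pl ∧
  (∀ x : V, ∀ w ∈ P.pl, H.Om (H.br x w) (H.J p)
    = P.nu x * H.Om w (H.J p) - P.mu x * H.Om w (H.J q)) ∧
  (∀ x : V, ∀ w ∈ P.pl, H.Om (H.br x w) (H.J q)
    = P.nu x * H.Om w (H.J q) + P.mu x * H.Om w (H.J p))

def Stmt_D2X : Prop := ∀ (V : Type) [AddCommGroup V] [Module ℝ V] [FiniteDimensional ℝ V]
  (H : HS V) (P : Pair H) (G : DecG H P.pl) (p q : V), p ∈ P.pl → q ∈ P.pl →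
  (∀ x : V, ∀ w ∈ P.pl, H.Om (H.br x w) (H.J p)
    = P.nu x * H.Om w (H.J p) - P.mu x * H.Om w (H.J q)) →
  ∃ Dp : G.c →ₗ[ℝ] G.c, ∀ y : G.c,
  H.br (H.J p) (y : V) = H.J (P.nu (y : V) • p - P.mu (y : V) • q)
    + (H.br (H.J (y : V)) p + P.nu (H.J (y : V)) • p - P.mu (H.J (y : V)) • q) + ((Dp y : G.c) : V)

def Stmt_D2J : Prop := ∀ (V : Type) [AddCommGroup V] [Module ℝ V] [FiniteDimensional ℝ V]
  (H : HS V) (P : Pair H) (d : Dec2 H P), (∀ y, d.Dp (d.G.Hc.J y) = d.G.Hc.J (d.Dp y)) ∧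
  (∀ y, d.Dq (d.G.Hc.J y) = d.G.Hc.J (d.Dq y))

def Stmt_D2E1 : Prop := ∀ (V : Type) [AddCommGroup V] [Module ℝ V] [FiniteDimensional ℝ V]
  (H : HS V) (P : Pair H) (d : Dec2 H P), ∀ x y : d.G.c,
  d.Dp (d.G.Hc.br x y) = P.nu (x : V) • d.Dp y - P.mu (x : V) • d.Dq y
    - (P.nu (y : V) • d.Dp x - P.mu (y : V) • d.Dq x) + d.G.Hc.br (d.Dp x) y
    + d.G.Hc.br x (d.Dp y) ∧
  d.Dq (d.G.Hc.br x y) = P.nu (x : V) • d.Dq y + P.mu (x : V) • d.Dp y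
    - (P.nu (y : V) • d.Dq x + P.mu (y : V) • d.Dp x) + d.G.Hc.br (d.Dq x) y
    + d.G.Hc.br x (d.Dq y)

def Stmt_D2E2 : Prop := ∀ (V : Type) [AddCommGroup V] [Module ℝ V] [FiniteDimensional ℝ V]
  (H : HS V) (P : Pair H) (d : Dec2 H P), ∀ x y : d.G.c,
  d.G.Hc.Om (d.Dp x) y + d.G.Hc.Om x (d.Dp y)
    - (P.nu (x : V) * H.Om (y : V) (H.J d.p) - P.mu (x : V) * H.Om (y : V) (H.J d.q))
    + (P.nu (y : V) * H.Om (x : V) (H.J d.p) - P.mu (y : V) * H.Om (x : V) (H.J d.q))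
    + H.Om (d.G.th x y) (H.J d.p) + H.Om ((d.G.Hc.br x y : d.G.c) : V) (H.J d.p) = 0 ∧
  d.G.Hc.Om (d.Dq x) y + d.G.Hc.Om x (d.Dq y)
    - (P.nu (x : V) * H.Om (y : V) (H.J d.q) + P.mu (x : V) * H.Om (y : V) (H.J d.p))
    + (P.nu (y : V) * H.Om (x : V) (H.J d.q) + P.mu (y : V) * H.Om (x : V) (H.J d.p))
    + H.Om (d.G.th x y) (H.J d.q) + H.Om ((d.G.Hc.br x y : d.G.c) : V) (H.J d.q) = 0

/-- the `a`-part of the Jacobi identity for `(J p, x, y)` and `(J q, x, y)` -/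
def Stmt_D2A : Prop := ∀ (V : Type) [AddCommGroup V] [Module ℝ V] [FiniteDimensional ℝ V]
  (H : HS V) (P : Pair H) (d : Dec2 H P), ∀ (Pp Pq : V → V),
  (∀ y, Pp y = H.br (H.J y) d.p + P.nu (H.J y) • d.p - P.mu (H.J y) • d.q) →
  (∀ y, Pq y = H.br (H.J y) d.q + P.nu (H.J y) • d.q + P.mu (H.J y) • d.p) →
  ∀ x y : d.G.c,
  (d.G.th (d.Dp x) y + d.G.th x (d.Dp y) = Pp ((d.G.Hc.br x y : d.G.c) : V)
    - (P.nu (x : V) • Pp (y : V) - P.mu (x : V) • Pq (y : V)) + H.br (y : V) (Pp (x : V))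
    + (P.nu (y : V) • Pp (x : V) - P.mu (y : V) • Pq (x : V)) - H.br (x : V) (Pp (y : V))) ∧
  (d.G.th (d.Dq x) y + d.G.th x (d.Dq y) = Pq ((d.G.Hc.br x y : d.G.c) : V)
    - (P.nu (x : V) • Pq (y : V) + P.mu (x : V) • Pp (y : V)) + H.br (y : V) (Pq (x : V))
    + (P.nu (y : V) • Pq (x : V) + P.mu (y : V) • Pp (x : V)) - H.br (x : V) (Pq (y : V)))

/-- the paired and summed `a`-part -/
def Stmt_D2E3 : Prop := ∀ (V : Type) [AddCommGroup V] [Module ℝ V] [FiniteDimensional ℝ V]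
  (H : HS V) (P : Pair H) (d : Dec2 H P), ∀ x y : d.G.c,
  H.Om (d.G.th (d.Dp x) y) (H.J d.p) + H.Om (d.G.th x (d.Dp y)) (H.J d.p)
    + (H.Om (d.G.th (d.Dq x) y) (H.J d.q) + H.Om (d.G.th x (d.Dq y)) (H.J d.q))
    = (H.Om d.p (H.J d.p) + H.Om d.q (H.J d.q)) * (2 * P.nu (H.J ((d.G.Hc.br x y : d.G.c) : V))
      - 4 * P.nu (x : V) * P.nu (H.J (y : V)) + 4 * P.nu (H.J (x : V)) * P.nu (y : V))

def Stmt_D2T : Prop := ∀ (V : Type) [AddCommGroup V] [Module ℝ V] [FiniteDimensional ℝ V]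
  (H : HS V) (P : Pair H) (d : Dec2 H P), LinearMap.trace ℝ d.G.c d.Dp = 0 ∧
  LinearMap.trace ℝ d.G.c d.Dq = 0

def Stmt_D2M : Prop := ∀ (V : Type) [AddCommGroup V] [Module ℝ V] [FiniteDimensional ℝ V]
  (H : HS V) (P : Pair H) (d : Dec2 H P), ∀ x, d.Dp (d.Dq x) = d.Dq (d.Dp x)

def Stmt_RD2 : Prop := ∀ (V : Type) [AddCommGroup V] [Module ℝ V] [FiniteDimensional ℝ V]
  (H : HS V) (P : Pair H) (d : Dec2 H P), ∃ R : Red2 d.G.Hc,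
    (∀ y : d.G.c, R.nu y = P.nu (y : V)) ∧ (∀ y : d.G.c, R.mu y = P.mu (y : V)) ∧
    R.Dp = d.Dp ∧ R.Dq = d.Dq

/-- if `Dp = Dq = 0` then the ideal `a + J a` is good -/
def Stmt_GV2 : Prop := ∀ (V : Type) [AddCommGroup V] [Module ℝ V] [FiniteDimensional ℝ V]
  (H : HS V) (P : Pair H) (d : Dec2 H P), KF d.G.Hc → P.nu = 0 → d.Dp = 0 → d.Dq = 0 →
  ∃ V0 : Submodule ℝ V, V0 ≠ ⊥ ∧ Good H V0

/-! ## X: good ideals -/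

def Stmt_RVX : Prop := ∀ (V : Type) [AddCommGroup V] [Module ℝ V] [FiniteDimensional ℝ V]
  (H : HS V) (V0 : Submodule ℝ V), Good H V0 → ∃ (W : Submodule ℝ V) (HW : HS W),
  IsCompl V0 W ∧ (∀ x ∈ V0, ∀ y ∈ W, H.Om x y = 0) ∧
  (∀ x y : W, ((HW.br x y : W) : V) = H.br (x : V) (y : V)) ∧
  (∀ x : W, H.J (x : V) - ((HW.J x : W) : V) ∈ V0) ∧
  (∀ x y : W, HW.Om x y = H.Om (x : V) (y : V)) ∧ (H.toLA.Solv → HW.toLA.Solv)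

/-- `J`-linearity of the action on `V0 + A_H` -/
def Stmt_XPA : Prop := ∀ (V : Type) [AddCommGroup V] [Module ℝ V] [FiniteDimensional ℝ V]
  (H : HS V) (V0 : Submodule ℝ V), Good H V0 → ∀ (W : Submodule ℝ V) (HW : HS W) (K : KF HW),
  IsCompl V0 W → (∀ x ∈ V0, ∀ y ∈ W, H.Om x y = 0) →
  (∀ x y : W, ((HW.br x y : W) : V) = H.br (x : V) (y : V)) →
  (∀ x : W, H.J (x : V) - ((HW.J x : W) : V) ∈ V0) →
  (∀ x y : W, HW.Om x y = H.Om (x : V) (y : V)) →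
  ∀ (A : Submodule ℝ V), (∀ z, z ∈ A ↔ ∃ u ∈ V0, ∃ y : W, z = u + ((K.PA y : W) : V)) →
  (∀ z ∈ A, H.J z ∈ A) ∧ (∀ z ∈ A, ∀ z' ∈ A, H.br z z' = 0) ∧ (∀ x, ∀ z ∈ A, H.br x z ∈ A) ∧
  (∀ x, ∀ z ∈ A, H.br x (H.J z) = H.J (H.br x z))

def Stmt_XP : Prop := ∀ (V : Type) [AddCommGroup V] [Module ℝ V] [FiniteDimensional ℝ V]
  (H : HS V), H.toLA.Solv → NoLine H → IH V → ∀ V0 : Submodule ℝ V, V0 ≠ ⊥ → Good H V0 →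
  IsK H.toLA H.J

/-! ## C3: no isotropic minimal ideal -/

def Stmt_C3A : Prop := ∀ (V : Type) [AddCommGroup V] [Module ℝ V] [FiniteDimensional ℝ V]
  (H : HS V), H.toLA.Solv → NoLine H → NoIso H → ∃ A : Submodule ℝ V, QA H A ∧
  (∀ x y, H.br x y ∈ A) ∧
  (∀ x, (∀ u ∈ A, H.Om x u = 0) → (∀ u ∈ A, H.br x u = 0) → x = 0)

def Stmt_C3B : Prop := ∀ (V : Type) [AddCommGroup V] [Module ℝ V] [FiniteDimensional ℝ V]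
  (H : HS V) (A : Submodule ℝ V), QA H A → ∀ u ∈ A, H.J u ∈ A → ∀ x,
  H.br x (H.J u) = H.J (H.br x u) ∧ H.J (H.br x u) ∈ A

def Stmt_C3C : Prop := ∀ (V : Type) [AddCommGroup V] [Module ℝ V] [FiniteDimensional ℝ V]
  (H : HS V) (A : Submodule ℝ V), QA H A → (∀ x y, H.br x y ∈ A) →
  (∀ u ∈ A, H.J u ∈ A → u = 0) → ∀ P : Pair H, H.Om P.u1 P.u2 = 0

def Stmt_CS3 : Prop := ∀ (V : Type) [AddCommGroup V] [Module ℝ V] [FiniteDimensional ℝ V]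
  [Nontrivial V] (H : HS V), H.toLA.Solv → NoLine H → NoIso H → IH V → IsK H.toLA H.J

/-! ## assembly -/

def Stmt_CS1 : Prop := ∀ (V : Type) [AddCommGroup V] [Module ℝ V] [FiniteDimensional ℝ V]
  (H : HS V), H.toLA.Solv → IH V → ∀ (v : V) (lam0 : V →ₗ[ℝ] ℝ), v ≠ 0 →
  (∀ x, H.br x v = lam0 x • v) → IsK H.toLA H.J

def Stmt_CS2 : Prop := ∀ (V : Type) [AddCommGroup V] [Module ℝ V] [FiniteDimensional ℝ V]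
  (H : HS V), H.toLA.Solv → NoLine H → IH V → ∀ P : Pair H, H.Om P.u1 P.u2 = 0 →
  IsK H.toLA H.J

def Stmt_MAIN : Prop := ∀ (V : Type) [AddCommGroup V] [Module ℝ V] [FiniteDimensional ℝ V]
  (H : HS V), H.toLA.Solv → IsK H.toLA H.J

end Pool.Agent.STT
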