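import Pool.Agent.STT.Stmts

set_option autoImplicit false

namespace Pool.Agent.STT

theorem tr1_adj (W : Type) [AddCommGroup W] [Module ℝ W] [FiniteDimensional ℝ W]
    (b : W →ₗ[ℝ] W →ₗ[ℝ] ℝ) (hb : PD b) (D D' : W →ₗ[ℝ] W)
    (h : ∀ x y, b (D x) y = b x (D' y)) :
    LinearMap.trace ℝ W D = LinearMap.trace ℝ W D' := by
  have hinj : Function.Injective b := by
    rw [injective_iff_map_eq_zero]
    intro x hx
    by_contra hne
    have := hb.pos x hne
    rw [hx] at this
    simp at this
  have hfr : Module.finrank ℝ W = Module.finrank ℝ (Module.Dual ℝ W) :=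
    (Subspace.dual_finrank_eq (K := ℝ) (V := W)).symm
  let e : W ≃ₗ[ℝ] Module.Dual ℝ W := LinearEquiv.ofInjectiveOfFinrankEq b hinj hfr
  have he : ∀ x, e x = b x := fun x => rfl
  have h1 : Module.Dual.transpose (R := ℝ) D' = e.conj D := by
    apply LinearMap.ext
    intro f
    obtain ⟨x, rfl⟩ := e.surjective f
    rw [LinearEquiv.conj_apply]
    simp only [LinearMap.comp_apply, LinearEquiv.coe_coe, LinearEquiv.symm_apply_apply]
    apply LinearMap.ext
    intro y
    rw [Module.Dual.transpose_apply]
    simp only [LinearMap.comp_apply, he]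
    exact (h x y).symm
  have h2 := LinearMap.trace_transpose' (R := ℝ) (M := W) D'
  rw [← h2, h1, LinearMap.trace_conj']

theorem tr1_proof : Stmt_TR1 := by
  intro W _ _ _ b hb T K hT hK
  refine ⟨?_, ?_⟩
  · have h1 := tr1_adj W b hb (T ∘ₗ K) (-(K ∘ₗ T)) (by
      intro x y
      simp only [LinearMap.comp_apply, LinearMap.neg_apply, map_neg]
      rw [hT, hK])
    rw [map_neg] at h1
    have h2 := LinearMap.trace_comp_comm' (R := ℝ) (M := W) (N := W) T K
    linarith
  · have h1 := tr1_adj W b hb K (-K) (by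
      intro x y
      simp only [LinearMap.neg_apply, map_neg]
      rw [hK])
    rw [map_neg] at h1
    linarith

end Pool.Agent.STT
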