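import Pool.Agent.STT.Stmts

set_option autoImplicit false

namespace Pool.Agent.STT

theorem tr2_basis (W : Type) [AddCommGroup W] [Module ℝ W] [FiniteDimensional ℝ W]
    (b : W →ₗ[ℝ] W →ₗ[ℝ] ℝ) (hb : PD b) :
    ∃ (n : ℕ) (v : Module.Basis (Fin n) ℝ W), ∀ L : W →ₗ[ℝ] W,
      LinearMap.trace ℝ W L = ∑ i, b (v i) (L (v i)) / b (v i) (v i) := by
  have hs : LinearMap.IsSymm (b : LinearMap.BilinForm ℝ W) := ⟨fun x y => by
    simpa using hb.symm x y⟩
  obtain ⟨v, hv⟩ := LinearMap.BilinForm.exists_orthogonal_basis (B := b) hs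
  refine ⟨_, v, ?_⟩
  intro L
  rw [LinearMap.trace_eq_matrix_trace ℝ v, Matrix.trace]
  apply Finset.sum_congr rfl
  intro i _
  rw [Matrix.diag_apply, LinearMap.toMatrix_apply]
  have hpos : 0 < b (v i) (v i) := hb.pos _ (v.ne_zero i)
  rw [eq_div_iff (ne_of_gt hpos)]
  have hx : b (v i) (L (v i)) = b (v i) (∑ j, (v.repr (L (v i)) j) • v j) := by
    rw [v.sum_repr]
  rw [hx, map_sum, Finset.sum_eq_single i]
  · rw [map_smul, smul_eq_mul]
  · intro j _ hj
    rw [map_smul, smul_eq_mul]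
    have : b (v i) (v j) = 0 := hv (Ne.symm hj)
    rw [this, mul_zero]
  · intro h; exact absurd (Finset.mem_univ i) h

theorem tr2_proof : Stmt_TR2 := by
  intro W _ _ _ b hb
  obtain ⟨n, v, hv⟩ := tr2_basis W b hb
  have hpos : ∀ i, 0 < b (v i) (v i) := fun i => hb.pos _ (v.ne_zero i)
  have hnn : ∀ x, 0 ≤ b x x := by
    intro x
    by_cases hx : x = 0
    · rw [hx]; simp
    · exact le_of_lt (hb.pos x hx)
  have key : ∀ L : W →ₗ[ℝ] W, (∑ i, b (L (v i)) (L (v i)) / b (v i) (v i) = 0) → L = 0 := by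
    intro L h0
    have h1 := (Finset.sum_eq_zero_iff_of_nonneg (s := Finset.univ)
      (f := fun i => b (L (v i)) (L (v i)) / b (v i) (v i))
      (fun i _ => div_nonneg (hnn _) (le_of_lt (hpos i)))).mp h0
    apply v.ext
    intro i
    have h2 := h1 i (Finset.mem_univ i)
    have h3 : b (L (v i)) (L (v i)) = 0 := by
      rcases div_eq_zero_iff.mp h2 with h | h
      · exact h
      · exact absurd h (ne_of_gt (hpos i))
    by_contra hne
    have h4 := hb.pos (L (v i)) (by simpa using hne)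
    linarith
  refine ⟨?_, ?_⟩
  · intro T hT
    have e : LinearMap.trace ℝ W (T ∘ₗ T) = ∑ i, b (T (v i)) (T (v i)) / b (v i) (v i) := by
      rw [hv]
      apply Finset.sum_congr rfl
      intro i _
      rw [LinearMap.comp_apply, ← hT]
    refine ⟨?_, ?_⟩
    · rw [e]
      exact Finset.sum_nonneg (fun i _ => div_nonneg (hnn _) (le_of_lt (hpos i)))
    · intro h
      rw [e] at h
      exact key T h
  · intro K hK h
    have e : LinearMap.trace ℝ W (K ∘ₗ K) = - ∑ i, b (K (v i)) (K (v i)) / b (v i) (v i) := by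
      rw [hv, ← Finset.sum_neg_distrib]
      apply Finset.sum_congr rfl
      intro i _
      have : b (v i) (K (K (v i))) = - b (K (v i)) (K (v i)) := by
        rw [hK]; ring
      rw [LinearMap.comp_apply, this, neg_div]
    rw [e] at h
    exact key K (neg_eq_zero.mp h)

end Pool.Agent.STT
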