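import Pool.Agent.STT.TR1

set_option autoImplicit false

namespace Pool.Agent.STT

theorem tr3_proof : Stmt_TR3 := by
  intro W _ _ _ b hb
  have hinj : Function.Injective b := by
    rw [injective_iff_map_eq_zero]
    intro x hx
    by_contra hne
    have := hb.pos x hne
    rw [hx] at this
    simp at this
  have hfr : Module.finrank ℝ W = Module.finrank ℝ (Module.Dual ℝ W) :=
    (Subspace.dual_finrank_eq (K := ℝ) (V := W)).symm
  let e : W ≃ₗ[ℝ] Module.Dual ℝ W := LinearEquiv.ofInjectiveOfFinrankEq b hinj hfr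
  have he : ∀ x, e x = b x := fun x => rfl
  have h2 : ∀ β : W →ₗ[ℝ] W →ₗ[ℝ] ℝ, ∃ T : W →ₗ[ℝ] W, ∀ x y, b (T x) y = β x y := by
    intro β
    refine ⟨e.symm.toLinearMap ∘ₗ β, ?_⟩
    intro x y
    have : e (e.symm (β x)) = β x := e.apply_symm_apply _
    rw [he] at this
    simp only [LinearMap.comp_apply, LinearEquiv.coe_coe]
    rw [this]
  refine ⟨?_, h2, ?_⟩
  · intro D
    obtain ⟨D', hD'⟩ := h2 (b.compl₂ D)
    have h3 : ∀ x y, b (D x) y = b x (D' y) := by
      intro x y
      rw [hb.symm x (D' y), hD' y x, LinearMap.compl₂_apply, hb.symm]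
    exact ⟨D', h3, (tr1_adj W b hb D D' h3).symm⟩
  · intro f
    refine ⟨e.symm f, ?_⟩
    intro y
    have : e (e.symm f) = f := e.apply_symm_apply _
    rw [he] at this
    rw [this]

end Pool.Agent.STT
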