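import Pool.Agent.STT.Stmts

set_option autoImplicit false

namespace Pool.Agent.STT

theorem tt1_ext {W : Type} [AddCommGroup W] [Module ℝ W]
    {b : W →ₗ[ℝ] W →ₗ[ℝ] ℝ} (hb : PD b) {A B : W →ₗ[ℝ] W}
    (h : ∀ x y, b (A x) y = b (B x) y) : A = B := by
  apply LinearMap.ext
  intro x
  by_contra hne
  have h1 : A x - B x ≠ 0 := sub_ne_zero.mpr hne
  have h2 := hb.pos _ h1
  have h3 := h x (A x - B x)
  have h4 : b (A x - B x) (A x - B x) = b (A x) (A x - B x) - b (B x) (A x - B x) := by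
    rw [map_sub b (A x) (B x), LinearMap.sub_apply]
  rw [h4, h3, sub_self] at h2
  exact lt_irrefl _ h2

theorem tt1_proof (hTR2 : Stmt_TR2) (hTR3 : Stmt_TR3) : Stmt_TT1 := by
  intro W _ _ _ b hb D β l hβ h1 h2
  obtain ⟨Θ, hΘ⟩ := (hTR3 W b hb).2.1 β
  obtain ⟨D', hD', htr⟩ := (hTR3 W b hb).1 D
  have hΘs : ∀ x y, b (Θ x) y = b x (Θ y) := by
    intro x y
    rw [hΘ, hβ, ← hΘ, hb.symm]
  have e1 : D + D' = -Θ := by
    apply tt1_ext hb
    intro x y
    have a1 := h1 x y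
    have a2 : b x (D y) = b (D' x) y := by
      rw [hb.symm x (D y), hD' y x, hb.symm]
    simp only [LinearMap.add_apply, LinearMap.neg_apply, map_add, map_neg, hΘ]
    rw [← a2]; exact a1
  have e2 : Θ ∘ₗ D + D' ∘ₗ Θ = l • Θ := by
    apply tt1_ext hb
    intro x y
    have a1 := h2 x y
    have a2 : b (D' (Θ x)) y = β x (D y) := by
      rw [hb.symm, ← hD' y (Θ x), hb.symm, hΘ]
    simp only [LinearMap.add_apply, LinearMap.comp_apply, LinearMap.smul_apply, map_add, map_smul,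
      smul_eq_mul, hΘ]
    rw [a2]; exact a1
  have t1 : LinearMap.trace ℝ W (Θ ∘ₗ D) + LinearMap.trace ℝ W (D' ∘ₗ Θ)
      = l * LinearMap.trace ℝ W Θ := by
    rw [← map_add, e2, map_smul, smul_eq_mul]
  have t2 : LinearMap.trace ℝ W (D' ∘ₗ Θ) = LinearMap.trace ℝ W (Θ ∘ₗ D') :=
    LinearMap.trace_comp_comm' (R := ℝ) (M := W) (N := W) Θ D'
  have t3 : LinearMap.trace ℝ W (Θ ∘ₗ D) + LinearMap.trace ℝ W (Θ ∘ₗ D')
      = - LinearMap.trace ℝ W (Θ ∘ₗ Θ) := by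
    rw [← map_add, ← LinearMap.comp_add, e1, LinearMap.comp_neg, map_neg]
  have t4 : LinearMap.trace ℝ W D + LinearMap.trace ℝ W D' = - LinearMap.trace ℝ W Θ := by
    rw [← map_add, e1, map_neg]
  have t5 : LinearMap.trace ℝ W (Θ ∘ₗ Θ) = 2 * (l * LinearMap.trace ℝ W D) := by
    have : LinearMap.trace ℝ W Θ = -(2 * LinearMap.trace ℝ W D) := by linarith
    rw [this] at t1
    rw [t2] at t1
    linear_combination -t1 + t3
  have hT := (hTR2 W b hb).1 Θ hΘs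
  refine ⟨by linarith [hT.1], ?_⟩
  intro h0 x y
  have hz : Θ = 0 := hT.2 (by rw [t5, h0, mul_zero])
  rw [← hΘ, hz]
  simp

end Pool.Agent.STT
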