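import Pool.Agent.STT.Stmts

set_option autoImplicit false

namespace Pool.Agent.STT

theorem tt2_ext {W : Type} [AddCommGroup W] [Module ℝ W]
    {b : W →ₗ[ℝ] W →ₗ[ℝ] ℝ} (hb : PD b) {A B : W →ₗ[ℝ] W}
    (h : ∀ x y, b (A x) y = b (B x) y) : A = B := by
  apply LinearMap.ext
  intro x
  by_contra hne
  have h1 : A x - B x ≠ 0 := sub_ne_zero.mpr hne
  have h2 := hb.pos _ h1
  have h3 := h x (A x - B x)
  have h4 : b (A x - B x) (A x - B x) = b (A x) (A x - B x) - b (B x) (A x - B x) := by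
    rw [map_sub b (A x) (B x), LinearMap.sub_apply]
  rw [h4, h3, sub_self] at h2
  exact lt_irrefl _ h2

theorem tt2_aux (hTR3 : Stmt_TR3) (W : Type) [AddCommGroup W] [Module ℝ W] [FiniteDimensional ℝ W]
    (b : W →ₗ[ℝ] W →ₗ[ℝ] ℝ) (hb : PD b) (D : W →ₗ[ℝ] W) (β : W →ₗ[ℝ] W →ₗ[ℝ] ℝ)
    (hβ : ∀ x y, β x y = β y x) (h1 : ∀ x y, b (D x) y + b x (D y) = - β x y) :
    ∃ Θ P : W →ₗ[ℝ] W, (∀ x y, b (Θ x) y = β x y) ∧ (∀ x y, b (Θ x) y = b x (Θ y)) ∧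
      (∀ x y, b (P x) y = β (D x) y + β x (D y)) ∧
      LinearMap.trace ℝ W P = - LinearMap.trace ℝ W (Θ ∘ₗ Θ) := by
  obtain ⟨Θ, hΘ⟩ := (hTR3 W b hb).2.1 β
  obtain ⟨D', hD', htr⟩ := (hTR3 W b hb).1 D
  have hΘs : ∀ x y, b (Θ x) y = b x (Θ y) := by
    intro x y
    rw [hΘ, hβ, ← hΘ, hb.symm]
  have e1 : D + D' = -Θ := by
    apply tt2_ext hb
    intro x y
    have a1 := h1 x y
    have a2 : b x (D y) = b (D' x) y := by
      rw [hb.symm x (D y), hD' y x, hb.symm]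
    simp only [LinearMap.add_apply, LinearMap.neg_apply, map_add, map_neg, hΘ]
    rw [← a2]; exact a1
  refine ⟨Θ, Θ ∘ₗ D + D' ∘ₗ Θ, hΘ, hΘs, ?_, ?_⟩
  · intro x y
    have a2 : b (D' (Θ x)) y = β x (D y) := by
      rw [hb.symm, ← hD' y (Θ x), hb.symm, hΘ]
    simp only [LinearMap.add_apply, LinearMap.comp_apply, map_add, hΘ]
    rw [a2]
  · have t2 : LinearMap.trace ℝ W (D' ∘ₗ Θ) = LinearMap.trace ℝ W (Θ ∘ₗ D') :=
      LinearMap.trace_comp_comm' (R := ℝ) (M := W) (N := W) Θ D'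
    rw [map_add, t2, ← map_add, ← LinearMap.comp_add, e1, LinearMap.comp_neg, map_neg]

theorem tt2_proof (hTR2 : Stmt_TR2) (hTR3 : Stmt_TR3) : Stmt_TT2 := by
  intro W _ _ _ b hb Dp Dq βp βq hp hq h1 h2 h3
  obtain ⟨Θ, P, a1, a2, a3, a4⟩ := tt2_aux hTR3 W b hb Dp βp hp h1
  obtain ⟨Θ', P', b1, b2, b3, b4⟩ := tt2_aux hTR3 W b hb Dq βq hq h2
  have hz : P + P' = 0 := by
    apply tt2_ext hb
    intro x y
    simp only [LinearMap.add_apply, map_add, LinearMap.zero_apply, map_zero, a3, b3]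
    exact h3 x y
  have ht : LinearMap.trace ℝ W (Θ ∘ₗ Θ) + LinearMap.trace ℝ W (Θ' ∘ₗ Θ') = 0 := by
    have : LinearMap.trace ℝ W (P + P') = 0 := by rw [hz, map_zero]
    rw [map_add, a4, b4] at this
    linarith
  have c1 := (hTR2 W b hb).1 Θ a2
  have c2 := (hTR2 W b hb).1 Θ' b2
  have z1 : Θ = 0 := c1.2 (by linarith [c1.1, c2.1])
  have z2 : Θ' = 0 := c2.2 (by linarith [c1.1, c2.1])
  intro x y
  refine ⟨?_, ?_⟩
  · rw [← a1, z1]; simp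
  · rw [← b1, z2]; simp

end Pool.Agent.STT
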