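import Pool.Agent.STT.Stmts

set_option autoImplicit false

namespace Pool.Agent.STT

theorem tt3_proof (hTR2 : Stmt_TR2) : Stmt_TT3 := by
  intro W _ _ _ b hb Dp Dq E m hm hp hq hc h1 h2
  have e1 : m • (Dq ∘ₗ Dq) = Dq ∘ₗ (E ∘ₗ Dp) - Dq ∘ₗ (Dp ∘ₗ E) := by
    apply LinearMap.ext
    intro x
    have a1 := h1 x
    simp only [LinearMap.smul_apply, LinearMap.sub_apply, LinearMap.comp_apply]
    rw [← map_smul, ← a1, map_sub]
  have e2 : Dp ∘ₗ Dq = Dq ∘ₗ Dp := LinearMap.ext hc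
  have t1 : LinearMap.trace ℝ W (Dq ∘ₗ (E ∘ₗ Dp)) = LinearMap.trace ℝ W (E ∘ₗ (Dp ∘ₗ Dq)) := by
    have := LinearMap.trace_comp_comm' (R := ℝ) (M := W) (N := W) (E ∘ₗ Dp) Dq
    rw [this, LinearMap.comp_assoc]
  have t2 : LinearMap.trace ℝ W (Dq ∘ₗ (Dp ∘ₗ E)) = LinearMap.trace ℝ W (E ∘ₗ (Dq ∘ₗ Dp)) := by
    have := LinearMap.trace_comp_comm' (R := ℝ) (M := W) (N := W) E (Dq ∘ₗ Dp)
    rw [← LinearMap.comp_assoc, this]
  have t3 : LinearMap.trace ℝ W (Dq ∘ₗ Dq) = 0 := by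
    have : m * LinearMap.trace ℝ W (Dq ∘ₗ Dq) = 0 := by
      rw [← smul_eq_mul, ← map_smul, e1, map_sub, t1, t2, e2, sub_self]
    rcases mul_eq_zero.mp this with h | h
    · exact absurd h hm
    · exact h
  have hq0 : Dq = 0 := (hTR2 W b hb).2 Dq hq t3
  refine ⟨?_, hq0⟩
  apply LinearMap.ext
  intro x
  have a2 := h2 x
  rw [hq0] at a2
  simp only [LinearMap.zero_apply, map_zero, sub_self] at a2
  have a3 : m • Dp x = 0 := neg_eq_zero.mp a2.symm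
  rcases smul_eq_zero.mp a3 with h | h
  · exact absurd h hm
  · simpa using h

end Pool.Agent.STT
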