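import Pool.Agent.STT.Defs

/-!
# MP_e0fc50_gt: transfer from `HS (Fin n → ℝ)` to Mathlib Lie algebras in any universe
-/

set_option autoImplicit false

namespace Pool.Agent.STT

universe u

/-- the Kähler conclusion for all solvable unimodular Hermitian-symplectic algebras `HS V` -/
def Stmt_ALL : Prop := ∀ (V : Type) [AddCommGroup V] [Module ℝ V] [FiniteDimensional ℝ V]
  (H : HS V), H.toLA.Solv → ∃ om : V →ₗ[ℝ] V →ₗ[ℝ] ℝ, (∀ x, om x x = 0) ∧
  (∀ x y z, om (H.br x y) z + om (H.br y z) x + om (H.br z x) y = 0) ∧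
  (∀ x y, om (H.J x) (H.J y) = om x y) ∧ (∀ x, x ≠ 0 → 0 < om x (H.J x))

theorem kahler_of_main (hM : Stmt_ALL) (g : Type u)
    [LieRing g] [LieAlgebra ℝ g] [FiniteDimensional ℝ g] [LieAlgebra.IsSolvable g]
    (hu : ∀ x : g, LinearMap.trace ℝ g (LieAlgebra.ad ℝ g x) = 0) (J : g →ₗ[ℝ] g)
    (hJJ : ∀ x, J (J x) = -x)
    (hN : ∀ x y, ⁅J x, J y⁆ - ⁅x, y⁆ = J (⁅J x, y⁆ + ⁅x, J y⁆))
    (ω : g →ₗ[ℝ] g →ₗ[ℝ] ℝ) (halt : ∀ x, ω x x = 0)
    (hcl : ∀ x y z, ω ⁅x, y⁆ z + ω ⁅y, z⁆ x + ω ⁅z, x⁆ y = 0)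
    (ht : ∀ x, x ≠ 0 → 0 < ω x (J x)) :
    ∃ κ : g →ₗ[ℝ] g →ₗ[ℝ] ℝ,
      ((∀ x, κ x x = 0) ∧ ∀ x y z, κ ⁅x, y⁆ z + κ ⁅y, z⁆ x + κ ⁅z, x⁆ y = 0) ∧
      (∀ x y, κ (J x) (J y) = κ x y) ∧ ∀ x, x ≠ 0 → 0 < κ x (J x) := by
  classical
  let n := Module.finrank ℝ g
  let W := Fin n → ℝ
  let e : g ≃ₗ[ℝ] W := (Module.finBasis ℝ g).equivFun
  let adb : g →ₗ[ℝ] g →ₗ[ℝ] g :=
    { toFun := fun x => LieAlgebra.ad ℝ g x
      map_add' := by intro x y; ext z; simp
      map_smul' := by intro t x; ext z; simp }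
  have hadb : ∀ x y : g, adb x y = ⁅x, y⁆ := fun x y => rfl
  let br : W →ₗ[ℝ] W →ₗ[ℝ] W := (adb.compl₁₂ e.symm.toLinearMap e.symm.toLinearMap).compr₂
    e.toLinearMap
  have hbr : ∀ x y : W, br x y = e ⁅e.symm x, e.symm y⁆ := fun x y => rfl
  let L : LA W :=
    { br := br
      skew := by intro x; rw [hbr, lie_self, map_zero]
      jac := by
        intro x y z
        simp only [hbr, LinearEquiv.symm_apply_apply]
        rw [← map_add, ← leibniz_lie] }
  let H : HS W :=
    { toLA := L
      J := e.toLinearMap ∘ₗ J ∘ₗ e.symm.toLinearMap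
      JJ := by intro x; simp [hJJ]
      nij := by
        intro x y
        change br _ _ - br _ _ = e (J (e.symm (br _ _ + br _ _)))
        simp only [LinearMap.comp_apply, LinearEquiv.coe_coe, map_add, LinearEquiv.symm_apply_apply,
          hbr]
        rw [← map_sub, hN, map_add, map_add]
      Om := ω.compl₁₂ e.symm.toLinearMap e.symm.toLinearMap
      alt := by intro x; exact halt _
      closed := by
        intro x y z
        change ω (e.symm (br x y)) (e.symm z) + ω (e.symm (br y z)) (e.symm x)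
          + ω (e.symm (br z x)) (e.symm y) = 0
        simp only [hbr, LinearEquiv.symm_apply_apply]
        exact hcl _ _ _
      tame := by
        intro x hx
        change 0 < ω (e.symm x) (e.symm (e (J (e.symm x))))
        rw [LinearEquiv.symm_apply_apply]
        exact ht _ (by simpa using hx)
      unim := by
        intro x
        have h1 : br x = e.conj (LieAlgebra.ad ℝ g (e.symm x)) := by
          ext y
          rfl
        change LinearMap.trace ℝ W (br x) = 0
        rw [h1, LinearMap.trace_conj']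
        exact hu _ }
  have hS : H.toLA.Solv := by
    obtain ⟨k, hk⟩ := LieAlgebra.IsSolvable.solvable ℝ g
    refine ⟨k, ?_⟩
    have key : ∀ m : ℕ, ∀ x ∈ L.der m, e.symm x ∈ LieAlgebra.derivedSeries ℝ g m := by
      intro m
      induction m with
      | zero => intro x _; exact LieSubmodule.mem_top _
      | succ m ih =>
        intro x hx
        rw [LieAlgebra.derivedSeries_def, LieAlgebra.derivedSeriesOfIdeal_succ]
        change x ∈ Submodule.span ℝ _ at hx
        induction hx using Submodule.span_induction with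
        | mem y hy =>
          obtain ⟨a, ha, b, hb, rfl⟩ := hy
          change e.symm (e ⁅e.symm a, e.symm b⁆) ∈ _
          rw [LinearEquiv.symm_apply_apply]
          exact LieSubmodule.lie_mem_lie (ih a ha) (ih b hb)
        | zero => rw [map_zero]; exact zero_mem _
        | add y z _ _ hy hz => rw [map_add]; exact add_mem hy hz
        | smul t y _ hy => rw [map_smul]; exact Submodule.smul_mem _ t hy
    rw [eq_bot_iff]
    intro x hx
    have h2 := key k x hx
    rw [hk, LieSubmodule.mem_bot] at h2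
    rw [Submodule.mem_bot]
    simpa using h2
  obtain ⟨om, h1, h2, h3, h4⟩ := hM W H hS
  refine ⟨om.compl₁₂ e.toLinearMap e.toLinearMap, ⟨fun x => h1 _, ?_⟩, ?_, ?_⟩
  · intro x y z
    have h5 := h2 (e x) (e y) (e z)
    change om (br (e x) (e y)) (e z) + om (br (e y) (e z)) (e x) + om (br (e z) (e x)) (e y) = 0
      at h5
    simp only [hbr, LinearEquiv.symm_apply_apply] at h5
    exact h5
  · intro x y
    have h5 := h3 (e x) (e y)
    change om (e (J (e.symm (e x)))) (e (J (e.symm (e y)))) = _ at h5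
    simp only [LinearEquiv.symm_apply_apply] at h5
    exact h5
  · intro x hx
    have h5 := h4 (e x) (by simpa using hx)
    change 0 < om (e x) (e (J (e.symm (e x)))) at h5
    rw [LinearEquiv.symm_apply_apply] at h5
    exact h5

end Pool.Agent.STT
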