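import Pool.Agent.STT.Stmts

set_option autoImplicit false

namespace Pool.Agent.STT

namespace XPAAux

variable {V : Type} [AddCommGroup V] [Module ℝ V]

theorem gskew (H : HS V) (V0 : Submodule ℝ V) (G : Good H V0) (x : V) (u : V) (hu : u ∈ V0)
    (u' : V) (hu' : u' ∈ V0) : H.g (H.br x u) u' = - H.g u (H.br x u') := by
  have key : ∀ a ∈ V0, ∀ b ∈ V0, H.Om (H.br x a) b + H.Om a (H.br x b) = 0 := by
    intro a ha b hb
    have h1 := H.closed x a b
    rw [G.ab a ha b hb, map_zero, LinearMap.zero_apply, H.anti b x, map_neg,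
      LinearMap.neg_apply, H.oanti (H.br x b) a] at h1
    linarith
  have h1 := key u hu (H.J u') (G.j u' hu')
  have h2 := key u' hu' (H.J u) (G.j u hu)
  rw [H.g_apply, H.g_apply]
  rw [G.jl x u' hu'] at h1
  rw [G.jl x u hu] at h2
  linarith

end XPAAux

theorem xpa_proof (hNRM : Stmt_NRM) (hSPN : Stmt_SPN) : Stmt_XPA := by
  intro V _ _ _ H V0 G W HW K hc horth hbr hJ hOm A hA
  obtain ⟨P, hPl, hPr⟩ : ∃ P : V →ₗ[ℝ] W, (∀ w : W, P (w : V) = w) ∧ (∀ x, P x = 0 ↔ x ∈ V0) :=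
    ⟨Submodule.projectionOnto W V0 hc.symm,
      fun w => Submodule.projectionOnto_apply_left hc.symm w,
      fun x => Submodule.projectionOnto_apply_eq_zero_iff hc.symm⟩
  have hV0 : ∀ x : V, x - ((P x : W) : V) ∈ V0 := by
    intro x
    rw [← hPr, map_sub, hPl, sub_self]
  -- brackets in terms of `E`
  have hE : ∀ x y : W, K.E x y = HW.br (x - K.PA x) (K.PA y) := by
    intro x y
    rw [K.breq, K.EPl, sub_zero, K.EPr, map_sub, LinearMap.sub_apply, K.EPl, sub_zero]
  have hbrP : ∀ x y : W, HW.br x (K.PA y) = K.E x y := by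
    intro x y
    rw [K.breq, K.EPl, sub_zero, K.EPr]
  have hE0 : ∀ x y z : W, K.E (K.E x y) z = 0 := by
    intro x y z
    rw [← K.PE x y, K.EPl]
  -- `PA y` acts trivially on `V0`
  have htriv : ∀ (y : W), ∀ u ∈ V0, H.br ((K.PA y : W) : V) u = 0 := by
    let W0 : Submodule ℝ W :=
      { carrier := {y | ∀ u ∈ V0, H.br (y : V) u = 0}
        zero_mem' := by intro u _; simp
        add_mem' := by
          intro a b ha hb u hu
          rw [Submodule.coe_add, map_add, LinearMap.add_apply, ha u hu, hb u hu, add_zero]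
        smul_mem' := by
          intro t a ha u hu
          rw [Submodule.coe_smul, map_smul, LinearMap.smul_apply, ha u hu, smul_zero] }
    intro y
    have h1 : K.PA y ∈ W0 := by
      refine hSPN W HW K W0 ?_ y
      intro x z u hu
      rw [hE, hbr]
      exact G.tr _ _ u hu
    exact h1
  have htriv' : ∀ (y : W), ∀ u ∈ V0, H.br u ((K.PA y : W) : V) = 0 := by
    intro y u hu
    rw [H.anti, htriv y u hu, neg_zero]
  -- action on `A`
  have hact : ∀ (x : V) (u : V), u ∈ V0 → ∀ y : W,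
      H.br x (u + ((K.PA y : W) : V)) = H.br x u + ((K.E (P x) y : W) : V) := by
    intro x u hu y
    have h1 : H.br x ((K.PA y : W) : V) = ((K.E (P x) y : W) : V) := by
      have h2 : x = (x - ((P x : W) : V)) + ((P x : W) : V) := by abel
      conv_lhs => rw [h2]
      rw [map_add, LinearMap.add_apply, htriv' y _ (hV0 x), zero_add, ← hbr, hbrP]
    rw [map_add, h1]
  have hmem : ∀ u ∈ V0, ∀ y : W, u + ((K.PA y : W) : V) ∈ A := fun u hu y =>
    (hA _).2 ⟨u, hu, y, rfl⟩
  have hmemE : ∀ u ∈ V0, ∀ x y : W, u + ((K.E x y : W) : V) ∈ A := by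
    intro u hu x y
    rw [← K.PE x y]
    exact hmem u hu _
  have c1 : ∀ z ∈ A, H.J z ∈ A := by
    intro z hz
    obtain ⟨u, hu, y, rfl⟩ := (hA z).1 hz
    have h1 := hJ (K.PA y)
    have h2 : H.J (u + ((K.PA y : W) : V)) =
        (H.J u + (H.J ((K.PA y : W) : V) - ((HW.J (K.PA y) : W) : V)))
          + ((K.PA (HW.J y) : W) : V) := by
      rw [K.pJ, map_add]; abel
    rw [h2]
    exact hmem _ (V0.add_mem (G.j u hu) h1) _
  have c3 : ∀ x, ∀ z ∈ A, H.br x z ∈ A := by
    intro x z hz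
    obtain ⟨u, hu, y, rfl⟩ := (hA z).1 hz
    rw [hact x u hu y]
    exact hmemE _ (G.i x u hu) _ _
  have c2 : ∀ z ∈ A, ∀ z' ∈ A, H.br z z' = 0 := by
    intro z hz z' hz'
    obtain ⟨u, hu, y, rfl⟩ := (hA z).1 hz
    obtain ⟨u', hu', y', rfl⟩ := (hA z').1 hz'
    rw [hact _ u' hu' y']
    have h1 : P (u + ((K.PA y : W) : V)) = K.PA y := by
      rw [map_add, (hPr u).2 hu, zero_add, hPl]
    rw [h1, K.EPl, map_add, LinearMap.add_apply, G.ab u hu u' hu', htriv y u' hu']
    simp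
  refine ⟨c1, c2, c3, ?_⟩
  intro x z hz
  -- the bilinear form
  let Q : V →ₗ[ℝ] V := LinearMap.id - W.subtype ∘ₗ P
  have hQ : ∀ v, Q v = v - ((P v : W) : V) := fun v => rfl
  let k : V →ₗ[ℝ] V →ₗ[ℝ] ℝ := H.g.compl₁₂ Q Q + K.ip.compl₁₂ P P
  have hk : ∀ a b, k a b = H.g (Q a) (Q b) + K.ip (P a) (P b) := fun a b => rfl
  have hPA : ∀ u ∈ V0, ∀ w : W, P (u + (w : V)) = w := by
    intro u hu w
    rw [map_add, (hPr u).2 hu, zero_add, hPl]
  have hQA : ∀ u ∈ V0, ∀ w : W, Q (u + (w : V)) = u := by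
    intro u hu w
    rw [hQ, hPA u hu w, add_sub_cancel_right]
  have hskew : ∀ x' : V, ∀ u ∈ A, ∀ w ∈ A, k (H.br x' u) w = - k u (H.br x' w) := by
    intro x' a ha b hb
    obtain ⟨u, hu, y, rfl⟩ := (hA a).1 ha
    obtain ⟨u', hu', y', rfl⟩ := (hA b).1 hb
    rw [hact x' u hu y, hact x' u' hu' y', hk, hk, hPA u hu, hPA u' hu', hQA u hu, hQA u' hu',
      hPA _ (G.i x' u hu), hQA _ (G.i x' u hu), hPA _ (G.i x' u' hu'), hQA _ (G.i x' u' hu'),
      XPAAux.gskew H V0 G x' u hu u' hu', K.ipE, K.EPr, K.ipP, K.PE]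
    ring
  refine (hNRM V A A k (H.br x) (H.br (H.J x)) H.J le_rfl ?_ ?_ (c3 x) (c3 (H.J x)) (hskew x)
    (hskew (H.J x)) ?_ c1 (fun u _ => H.JJ u) ?_ ?_ z hz).2
  · intro a b
    rw [hk, hk, H.g_symm, K.ipd.symm]
  · intro u _ hu0
    rw [hk]
    by_cases h1 : P u = 0
    · have h2 : Q u = u := by rw [hQ, h1]; simp
      rw [h1, h2]
      have := H.g_pos u hu0
      simpa using this
    · have h3 := K.ipd.pos _ h1
      by_cases h4 : Q u = 0
      · rw [h4]; simpa using h3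
      · have := H.g_pos _ h4
        linarith
  · intro w hw
    obtain ⟨u, hu, y, rfl⟩ := (hA w).1 hw
    rw [H.jac x (H.J x)]
    have h1 : H.br (H.br x (H.J x)) (u + ((K.PA y : W) : V)) = 0 := by
      rw [hact _ u hu y, G.tr _ _ u hu]
      have h2 : P (H.br x (H.J x)) = K.E (P x) (P (H.J x)) - K.E (P (H.J x)) (P x) := by
        have h3 : H.br x (H.J x) - ((HW.br (P x) (P (H.J x)) : W) : V) ∈ V0 := by
          have h4 : H.br x (H.J x) - ((HW.br (P x) (P (H.J x)) : W) : V)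
              = H.br (x - ((P x : W) : V)) (H.J x)
                + H.br ((P x : W) : V) (H.J x - ((P (H.J x) : W) : V)) := by
            rw [hbr, map_sub, map_sub, LinearMap.sub_apply]
            abel
          rw [h4]
          refine V0.add_mem ?_ (G.i _ _ (hV0 _))
          rw [H.anti]
          exact V0.neg_mem (G.i _ _ (hV0 _))
        have h5 := (hPr _).2 h3
        rw [map_sub, hPl, sub_eq_zero] at h5
        rw [h5, K.breq]
      rw [h2, map_sub, LinearMap.sub_apply, hE0, hE0]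
      simp
    rw [h1, zero_add]
  · intro u hu
    exact A.add_mem (c3 _ u hu) (c3 x _ (c1 u hu))
  · intro u _
    exact H.nij x u

end Pool.Agent.STT
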